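import Pool.Agent.Helper10.CI.Pl

/-!
# CJ: one degree less: `sum (d_i + 1) = 2 N - 1`, all `d_i <= n - 3`

`BddL`: bounded at the valuation rings where `x_m` is a maximal coordinate of `x` and `pl x y j l` a
maximal Plücker coordinate. `ExpG`: a function `G` with `G pl^t / x_m` bounded.
-/

set_option autoImplicit false

namespace Pool.Agent.Helper64.CJ

open scoped BigOperators
open MvPolynomial
open Pool.Agent.Helper8.LG (Bdd form mon Ix)
open Pool.Agent.Helper49.LN (cP mo hf pl)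
open Pool.Agent.Helper6.QS (dv ev lf dt Par RatP)
open Pool.Agent.Helper10.CI

section

variable {Ω : Type*} [Field Ω] {N r : ℕ} {d : Fin r → ℕ}

/-- `z` is bounded where `x_m` and `pl x y j l` are maximal -/
def BddL (D : Ix (Fin (N + 1)) d → Derivation ℤ Ω Ω) (B : Subfield Ω) (x y : Fin (N + 1) → Ω)
    (m j l : Fin (N + 1)) (z : Ω) : Prop :=
  ∃ (s : Finset Ω) (M : ℕ), (∀ b ∈ s, b ∈ B) ∧
    ∀ (O : ValuationSubring Ω) (Δ : Ω), Bdd D Δ O → (∀ b ∈ s, Δ * b ∈ O) →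
      x m ≠ 0 → (∀ k, x k / x m ∈ O) → pl x y j l ≠ 0 →
      (∀ j' l', pl x y j' l' / pl x y j l ∈ O) → Δ ^ M * z ∈ O

/-- a function with `G pl^t / x_m` bounded for all Plücker coordinates `pl` -/
def ExpG (D : Ix (Fin (N + 1)) d → Derivation ℤ Ω Ω) (B : Subfield Ω) (x y : Fin (N + 1) → Ω)
    (t : ℕ) : Prop :=
  ∃ G : Ω, G ≠ 0 ∧ ∀ m, x m ≠ 0 → ∀ j l, BddAt D B x m (G * pl x y j l ^ t / x m)

end

end Pool.Agent.Helper64.CJ
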