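import Pool.Agent.Helper10.CI.Pl
import Pool.Agent.Helper64.CI.Line

/-!
# CJ-PL: a single vector among the rows gives a rational line through `x` (`sum (d_i + 1) = 2 N - 1`)

Copies of `Pl_fin`, `pl_one`, `pl_blk` of `Helper10/CI/Pl.lean`; `lin_mem2` from `Helper64/CI/Line.lean`.
-/

set_option autoImplicit false

namespace Pool.Agent.Helper64.CJ

open scoped BigOperators
open MvPolynomial
open Pool.Agent.Helper8.LG (Bdd form mon Ix)
open Pool.Agent.Helper49.LN (cP mo hf pl)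
open Pool.Agent.Helper6.QS (dv ev lf dt Par RatP)
open Pool.Agent.Helper10.CI

section

variable {Ω : Type*} [Field Ω] [CharZero Ω] {N r p : ℕ} {d : Fin r → ℕ}
  {D : Ix (Fin (N + 1)) d → Derivation ℤ Ω Ω} {a : Ix (Fin (N + 1)) d → Ω} {B : Subfield Ω}

theorem lin_mem2 (hB : Frame D a B) (hnum : ∑ i, (d i + 1) + 1 = 2 * N)
    (x : Fin (N + 1) → Ω) (hx : x 0 = 1) (hF : ∀ i, form (fun J => a ⟨i, J⟩) x = 0)
    (y : Fin (N + 1) → Ω) (hy : ∃ j l, pl x y j l ≠ 0) (hyB : ∀ j l, pl x y j l ∈ B) :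
    ∀ l, x l ∈ B :=
  Pool.Agent.Helper64.CI.line_mem ⟨hB.dual, hB.mem, rat_alg hB, rat_der hB⟩ (by omega) hx hF y hy
    hyB

/-- a nonzero functional with rational values at the single vectors gives a rational line -/
theorem Pl_fin2 (hB : Frame D a B) (hnum : ∑ i, (d i + 1) + 1 = 2 * N)
    (x : Fin (N + 1) → Ω) (hx : x 0 = 1) (hF : ∀ i, form (fun J => a ⟨i, J⟩) x = 0)
    (Q : Fin r → MvPolynomial (Fin (N + 1)) Ω) (l₀ : Fin (N + 1))
    (L : (Fin (N + 1) → Ω) →ₗ[Ω] Ω) (h0 : L (Sv D x Q l₀) ≠ 0)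
    (hL : ∀ j l, L (dvC D x (fun i => hf x j l * Q i)) ∈ B) : ∀ l, x l ∈ B := by
  refine lin_mem2 hB hnum x hx hF (fun l => L (dvC D x (fun i => X l * Q i)))
    ⟨0, l₀, ?_⟩ fun j l => ?_
  · rw [Pl_pl, ← Sing_rl x hx]
    exact h0
  · rw [Pl_pl]
    exact hL j l

/-- `v_1, …, v_p` tangent of total weight `W` and one single -/
theorem pl_one2 (hB : Frame D a B) (hn : p + 1 + r = N) (hd : ∀ i, 1 ≤ d i)
    (hnum : ∑ i, (d i + 1) + 1 = 2 * N)
    (x : Fin (N + 1) → Ω) (hx : x 0 = 1) (hF : ∀ i, form (fun J => a ⟨i, J⟩) x = 0)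
    (v : Fin p → Fin (N + 1) → Ω) (w : Fin p → ℕ) (hT : ∀ j, v j ∈ TT a x)
    (hw : ∀ j, Wt D B x (w j) (v j)) (hsum : ∑ j, w j + 3 + r = ∑ i, d i)
    (s : Fin (N + 1) → Ω) (hs : s ∈ SS D B x)
    (hli : LinearIndependent Ω (Fin.cons x (Fin.snoc v s) :
      Fin (p + 1 + 1) → Fin (N + 1) → Ω)) : ∀ l, x l ∈ B := by
  obtain ⟨e⟩ := Pl_e (N := N) (r := r) (n := p + 1) hn
  obtain ⟨L, hL⟩ := Pl_last e D x v
  obtain ⟨l₀, Q, hQ, rfl⟩ := hs
  refine Pl_fin2 hB hnum x hx hF Q l₀ L ?_ fun j l => ?_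
  · rw [hL]
    refine (tan_ne hB.dual hn x hx hF e _ fun j => ?_).2 hli
    refine Fin.lastCases ?_ (fun j => ?_) j
    · rw [Fin.snoc_last]
      exact sv_TT hB.dual x hx hF hd Q l₀
    · rw [Fin.snoc_castSucc]
      exact hT j
  · rw [hL]
    refine aa_zero hB hn x hx hF e _ (Fin.snoc w 2 : Fin (p + 1) → ℕ) (fun k => ?_) (fun k => ?_) ?_
    · refine Fin.lastCases ?_ (fun k => ?_) k
      · rw [Fin.snoc_last]
        exact hf_TT hB.dual x hF hd Q j l
      · rw [Fin.snoc_castSucc]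
        exact hT k
    · refine Fin.lastCases ?_ (fun k => ?_) k
      · rw [Fin.snoc_last, Fin.snoc_last]
        exact wt_hf x Q hQ j l
      · rw [Fin.snoc_castSucc, Fin.snoc_castSucc]
        exact hw k
    · rw [Fin.sum_univ_castSucc]
      simp only [Fin.snoc_castSucc, Fin.snoc_last]
      omega

/-- a block, singles `v_1, …, v_p` of total weight `W` and one more single -/
theorem pl_blk2 (hB : Frame D a B) (hn : p + 1 + 2 + r = N) (hd : ∀ i, 1 ≤ d i)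
    (hnum : ∑ i, (d i + 1) + 1 = 2 * N)
    (x : Fin (N + 1) → Ω) (hx : x 0 = 1) (hF : ∀ i, form (fun J => a ⟨i, J⟩) x = 0)
    (P : Fin r → MvPolynomial (Fin (N + 1)) Ω) (hP : RatT B P) (k l : Fin (N + 1))
    (v : Fin p → Fin (N + 1) → Ω) (w : Fin p → ℕ) (hT : ∀ j, v j ∈ TT a x)
    (hw : ∀ j, Wt D B x (w j) (v j)) (hsum : ∑ j, w j + 6 + r = ∑ i, d i)
    (s : Fin (N + 1) → Ω) (hs : s ∈ SS D B x)
    (hli : LinearIndependent Ω (Fin.cons x (two (Sv D x P k) (Sv D x P l) (Fin.snoc v s)) :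
      Fin (p + 1 + 2 + 1) → Fin (N + 1) → Ω)) : ∀ l, x l ∈ B := by
  obtain ⟨e⟩ := Pl_e (N := N) (r := r) (n := p + 1 + 2) hn
  have htwo : ∀ y : Fin (N + 1) → Ω, two (Sv D x P k) (Sv D x P l) (Fin.snoc v y) =
      (Fin.snoc (two (Sv D x P k) (Sv D x P l) v) y : Fin (p + 1 + 2) → Fin (N + 1) → Ω) := by
    intro y
    unfold two
    rw [Fin.cons_snoc_eq_snoc_cons]
    exact Fin.cons_snoc_eq_snoc_cons _ _ _
  obtain ⟨L, hL⟩ := Pl_last (n := p + 2) e D x (two (Sv D x P k) (Sv D x P l) v)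
  have hL' : ∀ y, L y = AA e D x (two (Sv D x P k) (Sv D x P l) (Fin.snoc v y)) := by
    intro y
    rw [htwo]
    exact hL y
  obtain ⟨l₀, Q, hQ, rfl⟩ := hs
  refine Pl_fin2 hB hnum x hx hF Q l₀ L ?_ fun j l' => ?_
  · rw [hL']
    refine (tan_ne hB.dual hn x hx hF e _ fun j => ?_).2 hli
    unfold two
    refine Fin.cases ?_ (fun j => Fin.cases ?_ (fun j => ?_) j) j
    · exact sv_TT hB.dual x hx hF hd P k
    · exact sv_TT hB.dual x hx hF hd P l
    · rw [Fin.cons_succ, Fin.cons_succ]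
      refine Fin.lastCases ?_ (fun j => ?_) j
      · rw [Fin.snoc_last]
        exact sv_TT hB.dual x hx hF hd Q l₀
      · rw [Fin.snoc_castSucc]
        exact hT j
  · rw [hL', ← gam_zero e x hx P]
    refine gam_mem hB hn hd x hx hF e P hP _ (Fin.snoc w 2 : Fin (p + 1) → ℕ) (fun k => ?_)
      (fun k => ?_) ?_ 0 k l
    · refine Fin.lastCases ?_ (fun k => ?_) k
      · rw [Fin.snoc_last]
        exact hf_TT hB.dual x hF hd Q j l'
      · rw [Fin.snoc_castSucc]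
        exact hT k
    · refine Fin.lastCases ?_ (fun k => ?_) k
      · rw [Fin.snoc_last, Fin.snoc_last]
        exact wt_hf x Q hQ j l'
      · rw [Fin.snoc_castSucc, Fin.snoc_castSucc]
        exact hw k
    · rw [Fin.sum_univ_castSucc]
      simp only [Fin.snoc_castSucc, Fin.snoc_last]
      omega


end

end Pool.Agent.Helper64.CJ
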