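import Pool.Agent.Helper64.CJ.Pol
import Pool.Agent.Helper10.CI.LineData

/-!
# CJ-STRUCT: the line modulo `W = span (x, u)`

`W` has a complement; `π` the projection along `W` as an endomorphism of `Ω^(N+1)` with kernel `W`
(`Submodule.exists_isCompl`, `Submodule.projection`). Dependence of `x, u, S_k, S_l` gives
dependence of `π S_k, π S_l` (the `x, u` are independent); `pol2`; two single vectors independent modulo `W`
exist by `ho` and dimensions (`finrank TT = n + 1 >= p + 3`, as in `LineData_two`); `rank_one`. `y_0 = 0` since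
`Sv D x P 0 = 0`; then `π (S_l - y_l S_β) = 0`.
-/

set_option autoImplicit false

namespace Pool.Agent.Helper64.CJ

open scoped BigOperators
open MvPolynomial
open Pool.Agent.Helper8.LG (Bdd form mon Ix)
open Pool.Agent.Helper49.LN (cP mo hf pl)
open Pool.Agent.Helper6.QS (dv ev lf dt Par RatP)
open Pool.Agent.Helper10.CI

section

/-- there is a linear map with kernel `W` -/
private theorem Struct_ker {K V : Type*} [Field K] [AddCommGroup V] [Module K V]
    (W : Submodule K V) : ∃ π : V →ₗ[K] V, LinearMap.ker π = W := by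
  obtain ⟨W', hW'⟩ := W.exists_isCompl
  exact ⟨W'.projection W hW'.symm, Submodule.ker_projection _⟩

/-- vectors independent after `π` are independent modulo the kernel of `π` -/
private theorem Struct_li {K V : Type*} [Field K] [AddCommGroup V] [Module K V] {p : ℕ}
    (π : V →ₗ[K] V) (x : V) (u : Fin p → V) (hx : π x = 0) (hu0 : ∀ i, π (u i) = 0)
    (hu : LinearIndependent K (Fin.cons x u : Fin (p + 1) → V)) (s₁ s₂ : V)
    (h : LinearIndependent K ![π s₁, π s₂]) :
    LinearIndependent K (Fin.cons x (Fin.append u ![s₁, s₂]) : Fin (p + 2 + 1) → V) := by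
  rw [Fintype.linearIndependent_iff] at hu ⊢
  intro g hg
  rw [Fin.sum_univ_succ] at hg
  simp only [Fin.cons_zero, Fin.cons_succ] at hg
  rw [Fin.sum_univ_add] at hg
  simp only [Fin.append_left, Fin.append_right, Fin.sum_univ_two, Matrix.cons_val_zero,
    Matrix.cons_val_one] at hg
  have h1 := congrArg π hg
  simp only [map_add, map_sum, map_smul, hx, hu0, smul_zero, Finset.sum_const_zero, zero_add,
    map_zero] at h1
  rw [LinearIndependent.pair_iff] at h
  obtain ⟨h2, h3⟩ := h _ _ h1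
  rw [h2, h3, zero_smul, zero_smul, add_zero, add_zero] at hg
  have h4 := hu (Fin.cons (g 0) (fun i => g (Fin.castAdd 2 i).succ)) (by
    rw [Fin.sum_univ_succ]
    simp only [Fin.cons_zero, Fin.cons_succ]
    exact hg)
  intro k
  refine Fin.cases ?_ (fun k => ?_) k
  · exact h4 0
  · refine Fin.addCases (fun i => ?_) (fun j => ?_) k
    · exact h4 i.succ
    · fin_cases j
      · exact h2
      · exact h3

/-- a subspace spanned by `x` and a set, of larger dimension than the kernel `span (x, u)` of `π` -/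
private theorem Struct_two {K V : Type*} [Field K] [AddCommGroup V] [Module K V]
    [FiniteDimensional K V] {p : ℕ} (π : V →ₗ[K] V) (x : V) (u : Fin p → V)
    (hW : LinearMap.ker π = Submodule.span K (insert x (Set.range u)))
    (T : Submodule K V) (S : Set V) (hT : p + 3 ≤ Module.finrank K T)
    (ho : T ≤ Submodule.span K (insert x S)) :
    ∃ s₁ ∈ S, ∃ s₂ ∈ S, LinearIndependent K ![π s₁, π s₂] := by
  have hx : x ∈ Submodule.span K (insert x (Set.range u)) :=
    Submodule.subset_span (Set.mem_insert _ _)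
  have h1 : ∃ s₁ ∈ S, s₁ ∉ Submodule.span K (insert x (Set.range u)) := by
    by_contra hcon
    push Not at hcon
    have h2 : T ≤ Submodule.span K (insert x (Set.range u)) := by
      refine ho.trans (Submodule.span_le.2 ?_)
      rintro v (rfl | hv)
      · exact hx
      · exact hcon v hv
    have h3 := Submodule.finrank_mono h2
    have h4 := finrank_range_le_card (R := K) (Fin.cons x u : Fin (p + 1) → V)
    rw [Fintype.card_fin, Fin.range_cons] at h4
    unfold Set.finrank at h4
    omega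
  obtain ⟨s₁, hs₁, hn₁⟩ := h1
  have h2 : ∃ s₂ ∈ S, s₂ ∉ Submodule.span K (insert s₁ (insert x (Set.range u))) := by
    by_contra hcon
    push Not at hcon
    have h2 : T ≤ Submodule.span K (insert s₁ (insert x (Set.range u))) := by
      refine ho.trans (Submodule.span_le.2 ?_)
      rintro v (rfl | hv)
      · exact Submodule.subset_span (Set.mem_insert_of_mem _ (Set.mem_insert _ _))
      · exact hcon v hv
    have h3 := Submodule.finrank_mono h2
    have h4 := finrank_range_le_card (R := K)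
      (Fin.cons s₁ (Fin.cons x u : Fin (p + 1) → V) : Fin (p + 1 + 1) → V)
    rw [Fintype.card_fin, Fin.range_cons, Fin.range_cons] at h4
    unfold Set.finrank at h4
    omega
  obtain ⟨s₂, hs₂, hn₂⟩ := h2
  refine ⟨s₁, hs₁, s₂, hs₂, ?_⟩
  have h3 : π s₁ ≠ 0 := by
    intro h0
    exact hn₁ (hW ▸ LinearMap.mem_ker.2 h0)
  rw [LinearIndependent.pair_iff' h3]
  intro a ha
  apply hn₂
  have h4 : s₂ - a • s₁ ∈ Submodule.span K (insert x (Set.range u)) := by
    rw [← hW, LinearMap.mem_ker, map_sub, map_smul, ha, sub_self]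
  have h5 : s₂ = (s₂ - a • s₁) + a • s₁ := by abel
  rw [h5]
  exact Submodule.add_mem _ (Submodule.span_mono (Set.subset_insert _ _) h4)
    (Submodule.smul_mem _ _ (Submodule.subset_span (Set.mem_insert _ _)))

end

section

variable {Ω : Type*} [Field Ω] [CharZero Ω] {N r n p q : ℕ} {d : Fin r → ℕ}
  {D : Ix (Fin (N + 1)) d → Derivation ℤ Ω Ω} {a : Ix (Fin (N + 1)) d → Ω} {B : Subfield Ω}

omit [CharZero Ω] in
/-- `P ↦ π (Sv D x P l)` as a linear map -/
private theorem Struct_u (D : Ix (Fin (N + 1)) d → Derivation ℤ Ω Ω) (x : Fin (N + 1) → Ω)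
    (π : (Fin (N + 1) → Ω) →ₗ[Ω] (Fin (N + 1) → Ω)) :
    ∃ U : Fin (N + 1) → (Fin r → MvPolynomial (Fin (N + 1)) Ω) →ₗ[Ω] (Fin (N + 1) → Ω),
      ∀ l P, U l P = π (Sv D x P l) :=
  ⟨fun l => π.comp ((dvC D x).comp (LinearMap.pi fun i =>
    (LinearMap.mulLeft Ω (rl x l)).comp (LinearMap.proj i))), fun _ _ => rfl⟩

theorem struct (hD : ∀ s t : Ix (Fin (N + 1)) d, D t (a s) = if s = t then 1 else 0)
    (hn : n + r = N) (hp : p + 2 ≤ n) (x : Fin (N + 1) → Ω) (hx : x 0 = 1)
    (hF : ∀ i, form (fun J => a ⟨i, J⟩) x = 0)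
    (ho : TT a x ≤ Submodule.span Ω (insert x (SS D B x)))
    (u : Fin p → Fin (N + 1) → Ω)
    (hu : LinearIndependent Ω (Fin.cons x u : Fin (p + 1) → Fin (N + 1) → Ω))
    (h : ∀ Q : Fin r → MvPolynomial (Fin (N + 1)) Ω, RatT B Q → ∀ k l,
      ¬ LinearIndependent Ω (Fin.cons x (Fin.append u ![Sv D x Q k, Sv D x Q l]) :
        Fin (p + 2 + 1) → Fin (N + 1) → Ω)) :
    ∃ (y : Fin (N + 1) → Ω) (β : Fin (N + 1)), y 0 = 0 ∧ y β = 1 ∧
      ∀ (l : Fin (N + 1)) (P : Fin r → MvPolynomial (Fin (N + 1)) Ω),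
        Sv D x P l - y l • Sv D x P β ∈ Submodule.span Ω (insert x (Set.range u)) := by
  obtain ⟨π, hπ⟩ := Struct_ker (Submodule.span Ω (insert x (Set.range u)))
  have hx0 : π x = 0 := by
    rw [← LinearMap.mem_ker, hπ]
    exact Submodule.subset_span (Set.mem_insert _ _)
  have hu0 : ∀ i, π (u i) = 0 := by
    intro i
    rw [← LinearMap.mem_ker, hπ]
    exact Submodule.subset_span (Set.mem_insert_of_mem _ ⟨i, rfl⟩)
  have hpol : ∀ (P : Fin r → MvPolynomial (Fin (N + 1)) Ω) (k l : Fin (N + 1)),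
      ¬ LinearIndependent Ω ![π (Sv D x P k), π (Sv D x P l)] :=
    fun P k l => pol2 (B := B) x π (fun Q hQ k' l' hli =>
      h Q hQ k' l' (Struct_li π x u hx0 hu0 hu _ _ hli)) P k l
  have hfr := finrank_TT hD hn x hx hF
  obtain ⟨s₁, ⟨k, P₁, hP₁, rfl⟩, s₂, ⟨l, P₂, hP₂, rfl⟩, hli⟩ :=
    Struct_two π x u hπ (TT a x) (SS D B x) (by omega) ho
  obtain ⟨U, hU⟩ := Struct_u D x π
  obtain ⟨y, t, ⟨β, hβ⟩, ht⟩ := rank_one U
    (fun P k l => by
      rw [hU, hU]
      exact hpol P k l)
    ⟨k, l, P₁, P₂, by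
      rw [hU, hU]
      exact hli⟩
  refine ⟨y, β, ?_, hβ, ?_⟩
  · have h1 : π (Sv D x P₁ k) ≠ 0 := hli.ne_zero (0 : Fin 2)
    rw [← hU, ht k P₁] at h1
    have h2 : t P₁ ≠ 0 := fun h2 => h1 (by rw [h2, smul_zero])
    have h3 := ht 0 P₁
    rw [hU, sv_zero x hx, map_zero] at h3
    exact (smul_eq_zero.1 h3.symm).resolve_right h2
  · intro l P
    rw [← hπ, LinearMap.mem_ker, map_sub, map_smul, ← hU, ← hU, ht, ht β, hβ, one_smul, sub_self]

end

end Pool.Agent.Helper64.CJ
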