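import Pool.Agent.Helper64.CJ.Pl
import Pool.Agent.Helper10.CI.W1

/-!
# CJ-CASEA: a tangent vector `w` of weight one, and a block independent modulo it

`tan_ext` (`p = 3`, `q = n - 3 >= 1`) completes `w, S_k, S_l` by single vectors; after a permutation of the
rows `pl_blk2` with `v = (w, singles)`, weights `1, 2, ..`: `1 + 2 (n - 4) + 6 + r = 2 n - 1 + r = ∑ d_i`.
(See `w1`, `rk2`, `W1_two` of `Helper10/CI/W1.lean`.)
-/

set_option autoImplicit false

namespace Pool.Agent.Helper64.CJ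

open scoped BigOperators
open MvPolynomial
open Pool.Agent.Helper8.LG (Bdd form mon Ix)
open Pool.Agent.Helper49.LN (cP mo hf pl)
open Pool.Agent.Helper6.QS (dv ev lf dt Par RatP)
open Pool.Agent.Helper10.CI

section

variable {Ω : Type*} [Field Ω] [CharZero Ω] {N r n p q : ℕ} {d : Fin r → ℕ}
  {D : Ix (Fin (N + 1)) d → Derivation ℤ Ω Ω} {a : Ix (Fin (N + 1)) d → Ω} {B : Subfield Ω}

omit [CharZero Ω] in
/-- the first three vectors in another order -/
theorem CaseA_perm (x w u v : Fin (N + 1) → Ω) {m : ℕ} (s : Fin m → Fin (N + 1) → Ω)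
    (hli : LinearIndependent Ω (Fin.cons x (Fin.append (Fin.append ![w] ![u, v]) s) :
      Fin (1 + 2 + m + 1) → Fin (N + 1) → Ω)) :
    LinearIndependent Ω (Fin.cons x (two u v (Fin.cons w s)) :
      Fin (m + 1 + 2 + 1) → Fin (N + 1) → Ω) := by
  let σ : Fin (m + 1 + 2 + 1) → Fin (1 + 2 + m + 1) :=
    Fin.cons 0 (Fin.cons (Fin.succ (Fin.castAdd m (Fin.natAdd 1 0)))
      (Fin.cons (Fin.succ (Fin.castAdd m (Fin.natAdd 1 1)))
        (Fin.cons (Fin.succ (Fin.castAdd m (Fin.castAdd 2 0)))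
          (fun j => Fin.succ (Fin.natAdd (1 + 2) j)))))
  have hσ : Function.Injective σ := by
    have hv : ∀ i : Fin (m + 1 + 2 + 1), (σ i).val =
        if i.val = 1 then (2 : ℕ) else if i.val = 2 then 3 else if i.val = 3 then 1 else i.val := by
      intro i
      refine Fin.cases ?_ (fun i => Fin.cases ?_ (fun i => Fin.cases ?_
        (fun i => Fin.cases ?_ (fun i => ?_) i) i) i) i
      · rfl
      · rfl
      · rfl
      · rfl
      · have h1 : (σ i.succ.succ.succ.succ).val = (1 + 2 + i.val) + 1 := rfl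
        rw [h1]
        simp only [Fin.val_succ]
        split_ifs <;> omega
    intro i j hij
    have h1 := congrArg Fin.val hij
    rw [hv i, hv j] at h1
    apply Fin.ext
    split_ifs at h1 <;> omega
  have h2 := hli.comp σ hσ
  convert h2 using 1
  funext i
  refine Fin.cases ?_ (fun i => Fin.cases ?_ (fun i => Fin.cases ?_
    (fun i => Fin.cases ?_ (fun i => ?_) i) i) i) i
  · rfl
  · have h3 : σ (Fin.succ (0 : Fin (m + 1 + 2))) = Fin.succ (Fin.castAdd m (Fin.natAdd 1 0)) := rfl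
    rw [Function.comp_apply, h3]
    change u = Fin.append (Fin.append ![w] ![u, v]) s (Fin.castAdd m (Fin.natAdd 1 0))
    rw [Fin.append_left, Fin.append_right]
    rfl
  · have h3 : σ (Fin.succ (Fin.succ (0 : Fin (m + 2)))) =
        Fin.succ (Fin.castAdd m (Fin.natAdd 1 1)) := rfl
    rw [Function.comp_apply, h3]
    change v = Fin.append (Fin.append ![w] ![u, v]) s (Fin.castAdd m (Fin.natAdd 1 1))
    rw [Fin.append_left, Fin.append_right]
    rfl
  · have h3 : σ (Fin.succ (Fin.succ (Fin.succ (0 : Fin (m + 1))))) =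
        Fin.succ (Fin.castAdd m (Fin.castAdd 2 0)) := rfl
    rw [Function.comp_apply, h3]
    change w = Fin.append (Fin.append ![w] ![u, v]) s (Fin.castAdd m (Fin.castAdd 2 0))
    rw [Fin.append_left, Fin.append_left]
    rfl
  · have h3 : σ i.succ.succ.succ.succ = Fin.succ (Fin.natAdd (1 + 2) i) := rfl
    rw [Function.comp_apply, h3]
    change s i = Fin.append (Fin.append ![w] ![u, v]) s (Fin.natAdd (1 + 2) i)
    rw [Fin.append_right]

theorem case_a (hB : Frame D a B) (hn : n + r = N) (hn4 : 4 ≤ n) (hd : ∀ i, 1 ≤ d i)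
    (hnum : ∑ i, (d i + 1) + 1 = 2 * N) (x : Fin (N + 1) → Ω) (hx : x 0 = 1)
    (hF : ∀ i, form (fun J => a ⟨i, J⟩) x = 0)
    (ho : TT a x ≤ Submodule.span Ω (insert x (SS D B x)))
    (w : Fin (N + 1) → Ω) (hw : w ∈ TT a x) (hw1 : Wt D B x 1 w)
    (P : Fin r → MvPolynomial (Fin (N + 1)) Ω) (hP : RatT B P) (k l : Fin (N + 1))
    (hli : LinearIndependent Ω (Fin.cons x (Fin.append ![w] ![Sv D x P k, Sv D x P l]) :
      Fin (1 + 2 + 1) → Fin (N + 1) → Ω)) : ∀ l, x l ∈ B := by
  obtain ⟨m, rfl⟩ : ∃ m, n = m + 4 := ⟨n - 4, by omega⟩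
  have hST : SS D B x ⊆ TT a x := by
    rintro _ ⟨l, P, -, rfl⟩
    exact sv_TT hB.dual x hx hF hd P l
  obtain ⟨s, hs, hl⟩ := tan_ext (p := 1 + 2) (q := m + 1) hB.dual (by omega) x hx hF
    (SS D B x) hST ho (Fin.append ![w] ![Sv D x P k, Sv D x P l]) (fun j => by
      refine Fin.addCases (fun j => ?_) (fun j => ?_) j
      · rw [Fin.append_left]
        fin_cases j
        exact hw
      · rw [Fin.append_right]
        fin_cases j
        · exact sv_TT hB.dual x hx hF hd P k
        · exact sv_TT hB.dual x hx hF hd P l) hli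
  have hl2 := CaseA_perm x w (Sv D x P k) (Sv D x P l) s hl
  have hsn : (Fin.cons w s : Fin (m + 1 + 1) → Fin (N + 1) → Ω) =
      Fin.snoc (Fin.cons w (Fin.init s) : Fin (m + 1) → Fin (N + 1) → Ω) (s (Fin.last m)) := by
    rw [← Fin.cons_snoc_eq_snoc_cons, Fin.snoc_init_self]
  rw [hsn] at hl2
  have hd2 : ∑ i, d i + r + 1 = 2 * N := by
    rw [← hnum, Finset.sum_add_distrib]
    simp
  refine pl_blk2 (p := m + 1) hB (by omega) hd hnum x hx hF P hP k l
    (Fin.cons w (Fin.init s)) (Fin.cons 1 (fun _ => 2)) ?_ ?_ ?_ (s (Fin.last m)) (hs _) hl2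
  · intro j
    refine Fin.cases ?_ (fun j => ?_) j
    · exact hw
    · rw [Fin.cons_succ]
      exact hST (hs _)
  · intro j
    refine Fin.cases ?_ (fun j => ?_) j
    · exact hw1
    · rw [Fin.cons_succ, Fin.cons_succ]
      exact ss_wt x hx _ (hs _)
  · rw [Fin.sum_univ_succ]
    simp only [Fin.cons_zero, Fin.cons_succ, Finset.sum_const, Finset.card_univ,
      Fintype.card_fin, smul_eq_mul]
    omega

end

end Pool.Agent.Helper64.CJ
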