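import Pool.Agent.Helper64.CJ.PlTwo
import Pool.Agent.Helper10.CI.W1

/-!
# CJ-CASEB: two independent blocks

`tan_ext` (`p = 4`, `q = n - 4 >= 1`) completes the four vectors by single vectors; `pl_two` with the weights
`2, ..`: `2 (n - 5) + 9 + r = 2 n - 1 + r = ∑ d_i`. (See `rk2`, `W1_two` of `Helper10/CI/W1.lean`.)
-/

set_option autoImplicit false

namespace Pool.Agent.Helper64.CJ

open scoped BigOperators
open MvPolynomial
open Pool.Agent.Helper8.LG (Bdd form mon Ix)
open Pool.Agent.Helper49.LN (cP mo hf pl)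
open Pool.Agent.Helper6.QS (dv ev lf dt Par RatP)
open Pool.Agent.Helper10.CI

section

variable {Ω : Type*} [Field Ω] [CharZero Ω] {N r n p q : ℕ} {d : Fin r → ℕ}
  {D : Ix (Fin (N + 1)) d → Derivation ℤ Ω Ω} {a : Ix (Fin (N + 1)) d → Ω} {B : Subfield Ω}

theorem CaseB_four (x u v u' v' : Fin (N + 1) → Ω) {m : ℕ} (s : Fin m → Fin (N + 1) → Ω)
    (hli : LinearIndependent Ω (Fin.cons x (Fin.append (Fin.append ![u, v] ![u', v']) s) :
      Fin (2 + 2 + m + 1) → Fin (N + 1) → Ω)) :
    LinearIndependent Ω (Fin.cons x (two u v (two u' v' s)) :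
      Fin (m + 2 + 2 + 1) → Fin (N + 1) → Ω) := by
  have h : (Fin.cons x (two u v (two u' v' s)) : Fin (m + 2 + 2 + 1) → Fin (N + 1) → Ω) =
      (Fin.cons x (Fin.append (Fin.append ![u, v] ![u', v']) s) :
        Fin (2 + 2 + m + 1) → Fin (N + 1) → Ω) ∘ Fin.cast (by omega) := by
    funext i
    cases i using Fin.cases with
    | zero => rfl
    | succ i =>
      have h1 : Fin.cast (by omega : m + 2 + 2 + 1 = 2 + 2 + m + 1) i.succ =
          (Fin.cast (by omega : m + 2 + 2 = 2 + 2 + m) i).succ := rfl
      rw [Function.comp_apply, h1, Fin.cons_succ, Fin.cons_succ]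
      cases i using Fin.cases with
      | zero =>
        have h2 : Fin.cast (by omega : m + 2 + 2 = 2 + 2 + m) (0 : Fin (m + 2 + 2)) =
            Fin.castAdd m (Fin.castAdd 2 (0 : Fin 2)) := rfl
        rw [h2, Fin.append_left, Fin.append_left]
        rfl
      | succ i =>
        cases i using Fin.cases with
        | zero =>
          have h2 : Fin.cast (by omega : m + 2 + 2 = 2 + 2 + m)
              (Fin.succ (0 : Fin (m + 2 + 1))) =
              Fin.castAdd m (Fin.castAdd 2 (1 : Fin 2)) := rfl
          rw [h2, Fin.append_left, Fin.append_left]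
          rfl
        | succ i =>
          cases i using Fin.cases with
          | zero =>
            have h2 : Fin.cast (by omega : m + 2 + 2 = 2 + 2 + m)
                (Fin.succ (Fin.succ (0 : Fin (m + 1 + 1)))) =
                Fin.castAdd m (Fin.natAdd 2 (0 : Fin 2)) := rfl
            rw [h2, Fin.append_left, Fin.append_right]
            rfl
          | succ i =>
            cases i using Fin.cases with
            | zero =>
              have h2 : Fin.cast (by omega : m + 2 + 2 = 2 + 2 + m)
                  (Fin.succ (Fin.succ (Fin.succ (0 : Fin (m + 1))))) =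
                  Fin.castAdd m (Fin.natAdd 2 (1 : Fin 2)) := rfl
              rw [h2, Fin.append_left, Fin.append_right]
              rfl
            | succ i =>
              have h2 : Fin.cast (by omega : m + 2 + 2 = 2 + 2 + m) i.succ.succ.succ.succ =
                  Fin.natAdd (2 + 2) i := by
                apply Fin.ext
                simp only [Fin.val_cast, Fin.val_succ, Fin.val_natAdd]
                omega
              rw [h2, Fin.append_right]
              rfl
  rw [h]
  exact hli.comp _ (Fin.cast_injective _)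

theorem case_b (hB : Frame D a B) (hn : n + r = N) (hn5 : 5 ≤ n) (hd : ∀ i, 1 ≤ d i)
    (hnum : ∑ i, (d i + 1) + 1 = 2 * N) (x : Fin (N + 1) → Ω) (hx : x 0 = 1)
    (hF : ∀ i, form (fun J => a ⟨i, J⟩) x = 0)
    (ho : TT a x ≤ Submodule.span Ω (insert x (SS D B x)))
    (P : Fin r → MvPolynomial (Fin (N + 1)) Ω) (hP : RatT B P) (k l : Fin (N + 1))
    (Q : Fin r → MvPolynomial (Fin (N + 1)) Ω) (hQ : RatT B Q) (k' l' : Fin (N + 1))
    (hli : LinearIndependent Ω (Fin.cons x (Fin.append ![Sv D x P k, Sv D x P l]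
      ![Sv D x Q k', Sv D x Q l']) : Fin (2 + 2 + 1) → Fin (N + 1) → Ω)) : ∀ l, x l ∈ B := by
  obtain ⟨m, rfl⟩ : ∃ m, n = m + 5 := ⟨n - 5, by omega⟩
  have hST : SS D B x ⊆ TT a x := by
    rintro _ ⟨l, P, -, rfl⟩
    exact sv_TT hB.dual x hx hF hd P l
  obtain ⟨s, hs, hl⟩ := tan_ext (p := 2 + 2) (q := m + 1) hB.dual (by omega) x hx hF (SS D B x) hST
    ho (Fin.append ![Sv D x P k, Sv D x P l] ![Sv D x Q k', Sv D x Q l']) (fun j => by
      refine Fin.addCases (fun i => ?_) (fun i => ?_) j
      · rw [Fin.append_left]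
        fin_cases i
        · exact sv_TT hB.dual x hx hF hd P k
        · exact sv_TT hB.dual x hx hF hd P l
      · rw [Fin.append_right]
        fin_cases i
        · exact sv_TT hB.dual x hx hF hd Q k'
        · exact sv_TT hB.dual x hx hF hd Q l') hli
  have hl2 := CaseB_four x _ _ _ _ s hl
  have hsn : s = Fin.snoc (Fin.init s) (s (Fin.last m)) := (Fin.snoc_init_self s).symm
  rw [hsn] at hl2
  have hd2 : ∑ i, d i + r + 1 = 2 * N := by
    rw [← hnum, Finset.sum_add_distrib]
    simp
  refine pl_two hB (by omega) hd hnum x hx hF P hP k l Q hQ k' l' (Fin.init s) (fun _ => 2)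
    (fun j => hST (hs _)) (fun j => ss_wt x hx _ (hs _)) ?_ (s (Fin.last m)) (hs _)
    (by simpa using hl2)
  simp only [Finset.sum_const, Finset.card_univ, Fintype.card_fin, smul_eq_mul]
  omega

end

end Pool.Agent.Helper64.CJ
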