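import Pool.Agent.Helper10.CI.LineCase

/-!
# CJ-CASEC: all blocks have rank one and all weight one vectors are parallel to `x`: impossible

`line_data` gives `y, t` (`t` of rank `>= n`); `eqv` gives `heq`, `ker_t` gives `t (pdF a w) = 0`. Copy `exists_w` of
`Helper10/CI/DimArg.lean`: `w ↦ psi (pdF a w)` has rank `<= ∑ d_i - n = N - 1`, so its kernel has dimension `>= 2`
and contains some `w ≠ 0` with `w_0 = 0` (restrict to `w_0 = 0`). As in `const_x`: `heq` with `ζ = e_0` and
`psi_eq` give `- pr x w = pr x (dvC D x (X_0 pdF a w)) = 0`, so `w = w_0 x = 0`: a contradiction.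
-/

set_option autoImplicit false

namespace Pool.Agent.Helper64.CJ

open scoped BigOperators
open MvPolynomial
open Pool.Agent.Helper8.LG (Bdd form mon Ix)
open Pool.Agent.Helper49.LN (cP mo hf pl)
open Pool.Agent.Helper6.QS (dv ev lf dt Par RatP)
open Pool.Agent.Helper10.CI

section

variable {Ω : Type*} [Field Ω] [CharZero Ω] {N r n p q : ℕ} {d : Fin r → ℕ}
  {D : Ix (Fin (N + 1)) d → Derivation ℤ Ω Ω} {a : Ix (Fin (N + 1)) d → Ω} {B : Subfield Ω}

omit [CharZero Ω] in
theorem CaseC_exists_w (hn : n + r = N) (hnum : ∑ i, (d i + 1) + 1 = 2 * N) (hd : ∀ i, 1 ≤ d i)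
    (x y : Fin (N + 1) → Ω) (hx : x 0 = 1) (hy : y 0 = 0) (β : Fin (N + 1)) (hβ : y β = 1)
    (t : (Fin r → MvPolynomial (Fin (N + 1)) Ω) →ₗ[Ω] (Fin (N + 1) → Ω))
    (ht : ∀ l P, pr x (Sv D x P l) = y l • t P)
    (htn : n ≤ Module.finrank Ω (LinearMap.range t)) (hker : ∀ w, t (pdF a w) = 0) :
    ∃ w : Fin (N + 1) → Ω, w ≠ 0 ∧ w 0 = 0 ∧ ∀ i, psi x y β (pdF a w i) = 0 := by
  classical
  have hWle : Module.finrank Ω (DimArg_W d x β) ≤ ∑ i, d i := by
    have h1 : (Set.range (DimArg_b d x β)).finrank Ω ≤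
        Fintype.card (Σ i : Fin r, Fin (d i)) := finrank_range_le_card _
    rw [Fintype.card_sigma] at h1
    simp only [Fintype.card_fin] at h1
    exact h1
  have : FiniteDimensional Ω (DimArg_W d x β) :=
    FiniteDimensional.span_of_finite Ω (Set.finite_range _)
  have hsum : (∑ i, d i) + r + 1 = 2 * N := by
    rw [← hnum, Finset.sum_add_distrib]
    simp
  set tW : DimArg_W d x β →ₗ[Ω] (Fin (N + 1) → Ω) := t.domRestrict (DimArg_W d x β) with htW
  have hrange : LinearMap.range t ≤ LinearMap.range tW := by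
    rintro _ ⟨P, rfl⟩
    rw [t_hom hd x y β hβ t ht P,
      psi_t hd x y hx hy β hβ t ht _ fun i => homogeneousComponent_isHomogeneous _ _]
    refine ⟨⟨_, DimArg_tuple_mem hd x β (fun i =>
      psi x y β (homogeneousComponent (d i - 1) (P i))) fun i =>
        DimArg_psi_mem x y β _ _ (homogeneousComponent_isHomogeneous _ _)⟩, rfl⟩
  have hle1 : Module.finrank Ω (LinearMap.range t) ≤ Module.finrank Ω (LinearMap.range tW) :=
    Submodule.finrank_mono hrange
  have hrn := LinearMap.finrank_range_add_finrank_ker tW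
  have hkerle : Module.finrank Ω (LinearMap.ker tW) + 1 ≤ N := by omega
  have hmem : ∀ w : Fin (N + 1) → Ω, (fun i => psi x y β (pdF a w i)) ∈ DimArg_W d x β := fun w =>
    DimArg_tuple_mem hd x β _ fun i => DimArg_psi_mem x y β _ _ (pdF_hom a w i)
  have hadd : ∀ (u v : Fin (N + 1) → Ω) (i : Fin r), pdF a (u + v) i = pdF a u i + pdF a v i := by
    intro u v i
    unfold pdF
    rw [← Finset.sum_add_distrib]
    exact Finset.sum_congr rfl fun k _ => by rw [Pi.add_apply, add_smul]
  have hsmul : ∀ (c : Ω) (u : Fin (N + 1) → Ω) (i : Fin r), pdF a (c • u) i = c • pdF a u i := by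
    intro c u i
    unfold pdF
    rw [Finset.smul_sum]
    exact Finset.sum_congr rfl fun k _ => by rw [Pi.smul_apply, smul_eq_mul, mul_smul]
  let L0 : (Fin (N + 1) → Ω) →ₗ[Ω] DimArg_W d x β :=
    { toFun := fun w => ⟨fun i => psi x y β (pdF a w i), hmem w⟩
      map_add' := by
        intro u v
        apply Subtype.ext
        funext i
        show psi x y β (pdF a (u + v) i) = psi x y β (pdF a u i) + psi x y β (pdF a v i)
        rw [hadd, map_add]
      map_smul' := by
        intro c u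
        apply Subtype.ext
        funext i
        show psi x y β (pdF a (c • u) i) = c • psi x y β (pdF a u i)
        rw [hsmul, map_smul] }
  have hL0 : ∀ w, L0 w ∈ LinearMap.ker tW := by
    intro w
    rw [LinearMap.mem_ker]
    show t (fun i => psi x y β (pdF a w i)) = 0
    rw [← psi_t hd x y hx hy β hβ t ht (pdF a w) fun i => pdF_hom a w i]
    exact hker w
  let C0 : (Fin N → Ω) →ₗ[Ω] (Fin (N + 1) → Ω) :=
    { toFun := fun w => (Fin.cons 0 w : Fin (N + 1) → Ω)
      map_add' := by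
        intro u v
        funext l
        refine Fin.cases ?_ (fun l => ?_) l
        · simp
        · simp
      map_smul' := by
        intro c u
        funext l
        refine Fin.cases ?_ (fun l => ?_) l
        · simp
        · simp }
  have hne : LinearMap.ker ((L0.codRestrict (LinearMap.ker tW) hL0).comp C0) ≠ ⊥ := by
    have hlt : Module.finrank Ω (LinearMap.ker tW) < Module.finrank Ω (Fin N → Ω) := by
      rw [Module.finrank_fintype_fun_eq_card, Fintype.card_fin]
      omega
    exact LinearMap.ker_ne_bot_of_finrank_lt (K := Ω) (V := Fin N → Ω)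
      (V₂ := LinearMap.ker tW) (f := (L0.codRestrict (LinearMap.ker tW) hL0).comp C0) hlt
  obtain ⟨w, hw, hw0⟩ := Submodule.exists_mem_ne_zero_of_ne_bot hne
  rw [LinearMap.mem_ker] at hw
  refine ⟨(Fin.cons 0 w : Fin (N + 1) → Ω), ?_, rfl, fun i => ?_⟩
  · intro h
    apply hw0
    funext l
    have h1 := congrFun h l.succ
    rwa [Fin.cons_succ] at h1
  · have h4 := congrArg Subtype.val hw
    have h5 := congrArg Subtype.val h4
    exact congrFun h5 i

theorem case_c (hB : Frame D a B) (hn : n + r = N) (hn2 : 2 ≤ n) (hd : ∀ i, 1 ≤ d i)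
    (hnum : ∑ i, (d i + 1) + 1 = 2 * N) (x : Fin (N + 1) → Ω) (hx : x 0 = 1)
    (hF : ∀ i, form (fun J => a ⟨i, J⟩) x = 0)
    (hw1 : ∀ v ∈ TT a x, Wt D B x 1 v → pr x v = 0)
    (ho : TT a x ≤ Submodule.span Ω (insert x (SS D B x)))
    (h : ∀ P : Fin r → MvPolynomial (Fin (N + 1)) Ω, RatT B P → ∀ k l,
      ¬ LinearIndependent Ω ![x, Sv D x P k, Sv D x P l]) : False := by
  classical
  obtain ⟨y, t, hy, ⟨β, hβ⟩, ht, htn⟩ := line_data hB.dual hn hn2 hd x hx hF ho h
  have heq : ∀ w ζ : Fin (N + 1) → Ω,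
      pr x (dvC D x (fun i => lf ζ * pdF a w i)) = -(dt ζ x) • pr x w :=
    fun w ζ => eqv hB hd x hx hF hw1 w ζ
  obtain ⟨w, hw0, hw00, hw⟩ := CaseC_exists_w hn hnum hd x y hx hy β hβ t ht htn
    (ker_t x y hx heq β hβ t ht)
  have h1 := heq w (Pi.single 0 1)
  rw [DimArg_lf_single, DimArg_dt_single, one_smul, hx, one_mul] at h1
  have h2 := psi_eq hd x y hx hy β hβ t ht (fun i => X 0 * pdF a w i) fun i => by
    have h3 := (isHomogeneous_X Ω (0 : Fin (N + 1))).mul (pdF_hom a w i)
    have h4 : 1 + (d i - 1) = d i := by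
      have := hd i
      omega
    rw [h4] at h3
    exact h3
  have h5 : (fun i => psi x y β (X 0 * pdF a w i)) =
      (0 : Fin r → MvPolynomial (Fin (N + 1)) Ω) := by
    funext i
    rw [map_mul, hw i, mul_zero]
    rfl
  have h6 : pr x (0 : Fin (N + 1) → Ω) = 0 := by
    funext l
    simp [pr]
  rw [h2, h5, map_zero, h6] at h1
  have h7 : pr x w = 0 := by
    have h8 : -(pr x w) = 0 := by
      rw [← neg_one_smul Ω]
      exact h1.symm
    exact neg_eq_zero.1 h8
  obtain ⟨c, hc⟩ := (pr_zero_iff x hx w).1 h7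
  have hc0 : c = 0 := by
    have h9 := congrFun hc 0
    rw [Pi.smul_apply, hx, smul_eq_mul, mul_one, hw00] at h9
    exact h9.symm
  apply hw0
  rw [hc, hc0, zero_smul]

end

end Pool.Agent.Helper64.CJ
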