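import Pool.Agent.Helper10.CI.Pl

/-!
# CJ-IDN: the identity of the exponents

`pl x y j l • S_β - dvC D x (hf x j l * Q) ∈ span (x, u)` (`hf_lin`, `Sing_rl`: `hf x j l = x_j rl_l - x_l rl_j`,
and `H` for `l` and `j`). `alt_change`: changing the last `q` rows by elements of the span of `x` and the
first `p` rows (`Det_change` with `Det_f`, or one row at a time with `exists_alt`).
-/

set_option autoImplicit false

namespace Pool.Agent.Helper64.CJ

open scoped BigOperators
open MvPolynomial
open Pool.Agent.Helper8.LG (Bdd form mon Ix)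
open Pool.Agent.Helper49.LN (cP mo hf pl)
open Pool.Agent.Helper6.QS (dv ev lf dt Par RatP)
open Pool.Agent.Helper10.CI

section

variable {Ω : Type*} [Field Ω] [CharZero Ω] {N r n p q : ℕ} {d : Fin r → ℕ}
  {D : Ix (Fin (N + 1)) d → Derivation ℤ Ω Ω} {a : Ix (Fin (N + 1)) d → Ω} {B : Subfield Ω}

omit [CharZero Ω] in
/-- the difference of the two rows -/
private theorem Idn_hf (x : Fin (N + 1) → Ω) (Q : Fin r → MvPolynomial (Fin (N + 1)) Ω)
    (j l : Fin (N + 1)) : dvC D x (fun i => hf x j l * Q i) =
      x j • Sv D x Q l - x l • Sv D x Q j := by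
  unfold Sv
  rw [← map_smul, ← map_smul, ← map_sub]
  congr 1
  funext i
  show hf x j l * Q i = x j • (rl x l * Q i) - x l • (rl x j * Q i)
  unfold hf rl
  simp only [smul_eq_C_mul]
  ring

theorem alt_change (e : Kx (p + q) r ≃ Fin (N + 1)) (D : Ix (Fin (N + 1)) d → Derivation ℤ Ω Ω)
    (x : Fin (N + 1) → Ω) (u : Fin p → Fin (N + 1) → Ω) (v v' : Fin q → Fin (N + 1) → Ω)
    (h : ∀ t, v t - v' t ∈ Submodule.span Ω (insert x (Set.range u))) :
    AA e D x (Fin.append u v) = AA e D x (Fin.append u v') := by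
  unfold AA
  rw [← Det_f_apply, ← Det_f_apply]
  apply Det_change _ (Set.range (fun t : Fin q => (Sum.inr (Sum.inl (Fin.natAdd p t)) :
    Kx (p + q) r)))
  · rintro (u' | j | i) hk
    · rfl
    · refine Fin.addCases (fun i => ?_) (fun t => ?_) j (motive := fun j =>
        (Sum.inr (Sum.inl j) : Kx (p + q) r) ∉ Set.range (fun t : Fin q =>
          (Sum.inr (Sum.inl (Fin.natAdd p t)) : Kx (p + q) r)) →
        rows x (Fin.append u v) (tau D x) (Sum.inr (Sum.inl j)) =
          rows x (Fin.append u v') (tau D x) (Sum.inr (Sum.inl j))) hk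
      · intro _
        change Fin.append u v (Fin.castAdd q i) = Fin.append u v' (Fin.castAdd q i)
        rw [Fin.append_left, Fin.append_left]
      · intro hk
        exact absurd ⟨t, rfl⟩ hk
    · rfl
  · rintro _ ⟨t, rfl⟩
    have h1 : rows x (Fin.append u v) (tau D x) (Sum.inr (Sum.inl (Fin.natAdd p t))) -
        rows x (Fin.append u v') (tau D x) (Sum.inr (Sum.inl (Fin.natAdd p t))) = v t - v' t := by
      change Fin.append u v (Fin.natAdd p t) - Fin.append u v' (Fin.natAdd p t) = _
      rw [Fin.append_right, Fin.append_right]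
    rw [h1]
    refine Submodule.span_mono ?_ (h t)
    rintro y (rfl | ⟨j, rfl⟩)
    · exact ⟨Sum.inl (), by rintro ⟨t, ht⟩; simp at ht, rfl⟩
    · refine ⟨Sum.inr (Sum.inl (Fin.castAdd q j)), ?_, ?_⟩
      · rintro ⟨t, ht⟩
        simp only [Sum.inr.injEq, Sum.inl.injEq] at ht
        have h2 := congrArg Fin.val ht
        simp only [Fin.val_natAdd, Fin.val_castAdd] at h2
        have h3 := j.isLt
        omega
      · change Fin.append u v' (Fin.castAdd q j) = u j
        rw [Fin.append_left]

theorem idn (e : Kx (p + q) r ≃ Fin (N + 1)) (x : Fin (N + 1) → Ω) (hx : x 0 = 1)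
    (y : Fin (N + 1) → Ω) (β : Fin (N + 1)) (u : Fin p → Fin (N + 1) → Ω)
    (H : ∀ (l : Fin (N + 1)) (P : Fin r → MvPolynomial (Fin (N + 1)) Ω),
        Sv D x P l - y l • Sv D x P β ∈ Submodule.span Ω (insert x (Set.range u)))
    (Q : Fin q → Fin r → MvPolynomial (Fin (N + 1)) Ω) (j l : Fin (N + 1)) :
    AA e D x (Fin.append u (fun t => Sv D x (Q t) β)) * pl x y j l ^ q =
      AA e D x (Fin.append u (fun t => dvC D x (fun i => hf x j l * Q t i))) := by
  have h1 : AA e D x (Fin.append u (fun t => dvC D x (fun i => hf x j l * Q t i))) =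
      AA e D x (Fin.append u (fun t => pl x y j l • Sv D x (Q t) β)) := by
    refine alt_change e D x u _ _ fun t => ?_
    have h2 := Submodule.sub_mem _ (Submodule.smul_mem _ (x j) (H l (Q t)))
      (Submodule.smul_mem _ (x l) (H j (Q t)))
    have h3 : dvC D x (fun i => hf x j l * Q t i) - pl x y j l • Sv D x (Q t) β =
        x j • (Sv D x (Q t) l - y l • Sv D x (Q t) β) -
          x l • (Sv D x (Q t) j - y j • Sv D x (Q t) β) := by
      rw [Idn_hf]
      unfold pl
      rw [smul_sub, smul_sub, smul_smul, smul_smul, sub_smul]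
      abel
    rw [h3]
    exact h2
  obtain ⟨A, hA, -⟩ := exists_alt e x (tau D x)
  have h4 : ∀ v, AA e D x v = A v := fun v => (hA v).symm
  rw [h1, h4, h4]
  have h5 : (Fin.append u (fun t => pl x y j l • Sv D x (Q t) β) :
      Fin (p + q) → Fin (N + 1) → Ω) =
      fun k => (Fin.append (fun _ : Fin p => (1 : Ω)) (fun _ : Fin q => pl x y j l) :
        Fin (p + q) → Ω) k • (Fin.append u (fun t => Sv D x (Q t) β) :
          Fin (p + q) → Fin (N + 1) → Ω) k := by
    funext k
    refine Fin.addCases (fun i => ?_) (fun t => ?_) k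
    · rw [Fin.append_left, Fin.append_left, Fin.append_left, one_smul]
    · rw [Fin.append_right, Fin.append_right, Fin.append_right]
  rw [h5, AlternatingMap.map_smul_univ, Fin.prod_univ_add]
  simp only [Fin.append_left, Fin.append_right, Finset.prod_const_one, Finset.prod_const,
    Finset.card_univ, Fintype.card_fin, one_mul, smul_eq_mul]
  ring

end

end Pool.Agent.Helper64.CJ
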