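import Pool.Agent.Helper10.CI.Pl

/-!
# CJ-IDNEX: completion by the single vectors at `β`

`TT` is contained in the span of `x`, the `u_j` and the `S_β` (`ho` and `H`). `tan_ext` with
`S = {S_β | Q rational} ∪ range u`; an element of `range u` cannot occur in the extension (independence).
-/

set_option autoImplicit false

namespace Pool.Agent.Helper64.CJ

open scoped BigOperators
open MvPolynomial
open Pool.Agent.Helper8.LG (Bdd form mon Ix)
open Pool.Agent.Helper49.LN (cP mo hf pl)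
open Pool.Agent.Helper6.QS (dv ev lf dt Par RatP)
open Pool.Agent.Helper10.CI

section

variable {Ω : Type*} [Field Ω] [CharZero Ω] {N r n p q : ℕ} {d : Fin r → ℕ}
  {D : Ix (Fin (N + 1)) d → Derivation ℤ Ω Ω} {a : Ix (Fin (N + 1)) d → Ω} {B : Subfield Ω}

theorem IdnEx_Sv_mem (hD : ∀ s t : Ix (Fin (N + 1)) d, D t (a s) = if s = t then 1 else 0)
    (hd : ∀ i, 1 ≤ d i) (x : Fin (N + 1) → Ω) (hx : x 0 = 1)
    (hF : ∀ i, form (fun J => a ⟨i, J⟩) x = 0) (P : Fin r → MvPolynomial (Fin (N + 1)) Ω)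
    (l : Fin (N + 1)) : Sv D x P l ∈ TT a x :=
  sv_TT hD x hx hF hd P l

theorem idn_ex (hD : ∀ s t : Ix (Fin (N + 1)) d, D t (a s) = if s = t then 1 else 0)
    (hn : p + q + r = N) (hd : ∀ i, 1 ≤ d i) (x : Fin (N + 1) → Ω) (hx : x 0 = 1)
    (hF : ∀ i, form (fun J => a ⟨i, J⟩) x = 0)
    (ho : TT a x ≤ Submodule.span Ω (insert x (SS D B x)))
    (u : Fin p → Fin (N + 1) → Ω) (huT : ∀ j, u j ∈ TT a x)
    (hu : LinearIndependent Ω (Fin.cons x u : Fin (p + 1) → Fin (N + 1) → Ω))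
    (y : Fin (N + 1) → Ω) (β : Fin (N + 1))
    (H : ∀ (l : Fin (N + 1)) (P : Fin r → MvPolynomial (Fin (N + 1)) Ω),
        Sv D x P l - y l • Sv D x P β ∈ Submodule.span Ω (insert x (Set.range u))) :
    ∃ Q : Fin q → Fin r → MvPolynomial (Fin (N + 1)) Ω, (∀ t, RatT B (Q t)) ∧
      LinearIndependent Ω (Fin.cons x (Fin.append u (fun t => Sv D x (Q t) β)) :
        Fin (p + q + 1) → Fin (N + 1) → Ω) := by
  have hS : ∀ (P : Fin r → MvPolynomial (Fin (N + 1)) Ω) (l : Fin (N + 1)), Sv D x P l ∈ TT a x :=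
    fun P l => IdnEx_Sv_mem hD hd x hx hF P l
  obtain ⟨S, hSdef⟩ : ∃ S : Set (Fin (N + 1) → Ω),
    S = {v | ∃ Q : Fin r → MvPolynomial (Fin (N + 1)) Ω, RatT B Q ∧ v = Sv D x Q β} ∪
      Set.range u := ⟨_, rfl⟩
  have hST : S ⊆ TT a x := by
    rw [hSdef]
    rintro v (⟨Q, _, rfl⟩ | ⟨j, rfl⟩)
    · exact hS Q β
    · exact huT j
  have hsp : TT a x ≤ Submodule.span Ω (insert x S) := by
    refine ho.trans (Submodule.span_le.2 ?_)
    rintro v (rfl | ⟨l, P, hP, rfl⟩)
    · exact Submodule.subset_span (Set.mem_insert _ _)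
    · have h1 : Sv D x P β ∈ Submodule.span Ω (insert x S) := by
        refine Submodule.subset_span (Set.mem_insert_of_mem _ ?_)
        rw [hSdef]
        exact Or.inl ⟨P, hP, rfl⟩
      have h2 : Submodule.span Ω (insert x (Set.range u)) ≤ Submodule.span Ω (insert x S) := by
        refine Submodule.span_mono (Set.insert_subset_insert ?_)
        rw [hSdef]
        exact Set.subset_union_right
      have h3 := Submodule.add_mem _ (h2 (H l P)) (Submodule.smul_mem _ (y l) h1)
      rw [sub_add_cancel] at h3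
      exact h3
  obtain ⟨s, hs, hli⟩ := tan_ext hD (q := q) hn x hx hF S hST hsp u huT hu
  have h1 : ∀ t, ∃ Q : Fin r → MvPolynomial (Fin (N + 1)) Ω, RatT B Q ∧ s t = Sv D x Q β := by
    intro t
    have h2 := hs t
    rw [hSdef] at h2
    rcases h2 with h2 | ⟨j, hj⟩
    · exact h2
    · exfalso
      have h3 : (Fin.cons x (Fin.append u s) : Fin (p + q + 1) → Fin (N + 1) → Ω)
          (Fin.succ (Fin.castAdd q j)) =
          (Fin.cons x (Fin.append u s) : Fin (p + q + 1) → Fin (N + 1) → Ω)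
          (Fin.succ (Fin.natAdd p t)) := by
        rw [Fin.cons_succ, Fin.cons_succ, Fin.append_left, Fin.append_right, hj]
      have h4 := congrArg Fin.val (Fin.succ_injective _ (hli.injective h3))
      rw [Fin.val_castAdd, Fin.val_natAdd] at h4
      have h5 := j.2
      omega
  choose Q hQ hQs using h1
  refine ⟨Q, hQ, ?_⟩
  have h2 : s = fun t => Sv D x (Q t) β := funext hQs
  rw [← h2]
  exact hli

end

end Pool.Agent.Helper64.CJ
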