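import Pool.Agent.Helper64.CJ.Defs
import Pool.Agent.Helper64.CJ.Idn
import Pool.Agent.Helper64.CJ.IdnEx

/-!
# CJ-EXPA: the function `G` in case A, exponent `n - 1`

`idn_ex` (`p = 1`, `u = ![w]`, `q = n - 1`), `G = AA (w, S_β..)`, `tan_ne`; `idn` and `aa_at` with the weights
`1, 2, ..`: `∑ w + 1 + r = 2 n + r = ∑ d_i + 1`.
-/

set_option autoImplicit false

namespace Pool.Agent.Helper64.CJ

open scoped BigOperators
open MvPolynomial
open Pool.Agent.Helper8.LG (Bdd form mon Ix)
open Pool.Agent.Helper49.LN (cP mo hf pl)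
open Pool.Agent.Helper6.QS (dv ev lf dt Par RatP)
open Pool.Agent.Helper10.CI

section

variable {Ω : Type*} [Field Ω] [CharZero Ω] {N r n p q : ℕ} {d : Fin r → ℕ}
  {D : Ix (Fin (N + 1)) d → Derivation ℤ Ω Ω} {a : Ix (Fin (N + 1)) d → Ω} {B : Subfield Ω}

theorem exp_a (hB : Frame D a B) (hn : 1 + q + r = N) (hd : ∀ i, 1 ≤ d i)
    (hnum : ∑ i, (d i + 1) + 1 = 2 * N) (x : Fin (N + 1) → Ω) (hx : x 0 = 1)
    (hF : ∀ i, form (fun J => a ⟨i, J⟩) x = 0)
    (ho : TT a x ≤ Submodule.span Ω (insert x (SS D B x)))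
    (w : Fin (N + 1) → Ω) (hw : w ∈ TT a x) (hw1 : Wt D B x 1 w)
    (hu : LinearIndependent Ω (Fin.cons x ![w] : Fin (1 + 1) → Fin (N + 1) → Ω))
    (y : Fin (N + 1) → Ω) (β : Fin (N + 1))
    (H : ∀ (l : Fin (N + 1)) (P : Fin r → MvPolynomial (Fin (N + 1)) Ω),
        Sv D x P l - y l • Sv D x P β ∈ Submodule.span Ω (insert x (Set.range ![w]))) :
    ExpG D B x y q := by
  obtain ⟨Q, hQ, hli⟩ := idn_ex (q := q) hB.dual hn hd x hx hF ho ![w]
    (fun j => by rw [Matrix.cons_val_fin_one]; exact hw) hu y β H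
  obtain ⟨e⟩ := Pl_e (N := N) (r := r) (n := 1 + q) hn
  refine ⟨AA e D x (Fin.append ![w] (fun t => Sv D x (Q t) β)), ?_, ?_⟩
  · refine (tan_ne hB.dual hn x hx hF e _ fun j => ?_).2 hli
    refine Fin.addCases (fun j => ?_) (fun j => ?_) j
    · rw [Fin.append_left, Matrix.cons_val_fin_one]
      exact hw
    · rw [Fin.append_right]
      exact sv_TT hB.dual x hx hF hd (Q j) β
  · intro m hm j l
    rw [idn e x hx y β ![w] H Q j l]
    have h1 := aa_at hB hn x hx hF e
      (Fin.append ![w] (fun t => dvC D x (fun i => hf x j l * Q t i)))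
      (Fin.append ![1] (fun _ => 2)) (fun k => ?_) (fun k => ?_) m hm
    · have h2 : ∑ k, (Fin.append ![1] (fun _ => 2) : Fin (1 + q) → ℕ) k + 1 + r =
          ∑ i, d i + 1 := by
        rw [Fin.sum_univ_add]
        simp only [Fin.append_left, Fin.append_right, Finset.sum_const, Finset.card_univ,
          Fintype.card_fin, smul_eq_mul, Matrix.cons_val_fin_one]
        rw [Finset.sum_add_distrib] at hnum
        simp only [Finset.sum_const, Finset.card_univ, Fintype.card_fin, smul_eq_mul] at hnum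
        omega
      rw [h2, pow_succ, ← div_div, mul_div_cancel_right₀ _ (pow_ne_zero _ hm)] at h1
      exact h1
    · refine Fin.addCases (fun k => ?_) (fun k => ?_) k
      · rw [Fin.append_left, Matrix.cons_val_fin_one]
        exact hw
      · rw [Fin.append_right]
        exact hf_TT hB.dual x hF hd (Q k) j l
    · refine Fin.addCases (fun k => ?_) (fun k => ?_) k
      · rw [Fin.append_left, Fin.append_left, Matrix.cons_val_fin_one, Matrix.cons_val_fin_one]
        exact hw1
      · rw [Fin.append_right, Fin.append_right]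
        exact wt_hf x (Q k) (hQ k) j l

end

end Pool.Agent.Helper64.CJ
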