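import Pool.Agent.Helper10.CI.Pl

/-!
# CJ-BLKAT: blocks cost one power of `x_m` less (bounded version, general rest)

`S_k = x_m^(-1) (s_k - x_k s_0)` (`sv_pivot`), `s_k = dvC D x (hf x m k * P)`; with `f` of `Blk_bil`
`f S_k S_l = x_m^(-2) (f s_k s_l - x_k f s_0 s_l + x_l f s_0 s_k)`, hence times `c x_m` it is
`(x_0/x_m) (f s_k s_l c) - (x_k/x_m) (f s_0 s_l c) + (x_l/x_m) (f s_0 s_k c)` (`x_0 = 1`; `Blk_id`, `bd_ratio`).
`blk1_at`: `aa_at` with the weights `2, 2, w` and `blk_at` with `c = x_m^(∑ d) / x_m^(∑ w + 4 + 1 + r)`.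
-/

set_option autoImplicit false

namespace Pool.Agent.Helper64.CJ

open scoped BigOperators
open MvPolynomial
open Pool.Agent.Helper8.LG (Bdd form mon Ix)
open Pool.Agent.Helper49.LN (cP mo hf pl)
open Pool.Agent.Helper6.QS (dv ev lf dt Par RatP)
open Pool.Agent.Helper10.CI

section

variable {Ω : Type*} [Field Ω] [CharZero Ω] {N r n p q : ℕ} {d : Fin r → ℕ}
  {D : Ix (Fin (N + 1)) d → Derivation ℤ Ω Ω} {a : Ix (Fin (N + 1)) d → Ω} {B : Subfield Ω}

theorem blk_at (x : Fin (N + 1) → Ω) (hx : x 0 = 1) (e : Kx (p + 2) r ≃ Fin (N + 1))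
    (P : Fin r → MvPolynomial (Fin (N + 1)) Ω) (rest : Fin p → Fin (N + 1) → Ω)
    (m : Fin (N + 1)) (hm : x m ≠ 0) (c : Ω)
    (h : ∀ k l, BddAt D B x m (AA e D x (two (dvC D x (fun i => hf x m k * P i))
      (dvC D x (fun i => hf x m l * P i)) rest) * c)) (k l : Fin (N + 1)) :
    BddAt D B x m (AA e D x (two (Sv D x P k) (Sv D x P l) rest) * (c * x m)) := by
  obtain ⟨f, hf1, hf2⟩ := Blk_bil e D x rest
  have hg := gam_zero (D := D) e x hx P rest k l
  have key : ∀ k l : Fin (N + 1), BddAt D B x m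
      (f (dvC D x (fun i => hf x m k * P i)) (dvC D x (fun i => hf x m l * P i)) * c) := by
    intro k l
    have h1 := h k l
    rwa [hf1] at h1
  unfold gam at hg
  rw [← hg, hf1, hf1, hf1, sv_pivot x hx m hm P 0, sv_pivot x hx m hm P k,
    sv_pivot x hx m hm P l, Blk_id f hf2]
  have hr : ∀ l, BddAt D B x m (x l / x m) := fun l => bd_ratio l
  have h2 := bd_add (bd_sub (bd_mul (hr 0) (key k l)) (bd_mul (hr k) (key 0 l)))
    (bd_mul (hr l) (key 0 k))
  have e1 : ∀ y1 y2 y3 : Ω,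
      (x 0 * (x m)⁻¹ * (y1 * (x m)⁻¹) - x k * (x m)⁻¹ * (y2 * (x m)⁻¹) +
        x l * (x m)⁻¹ * (y3 * (x m)⁻¹)) * (c * x m) =
      x 0 / x m * (y1 * c) - x k / x m * (y2 * c) + x l / x m * (y3 * c) := by
    intro y1 y2 y3
    field_simp
  rw [e1]
  exact h2

/-- the block with a general total weight -/
theorem blk1_at (hB : Frame D a B) (hn : p + 2 + r = N) (hd : ∀ i, 1 ≤ d i)
    (x : Fin (N + 1) → Ω) (hx : x 0 = 1)
    (hF : ∀ i, form (fun J => a ⟨i, J⟩) x = 0) (e : Kx (p + 2) r ≃ Fin (N + 1))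
    (P : Fin r → MvPolynomial (Fin (N + 1)) Ω) (hP : RatT B P) (k l : Fin (N + 1))
    (rest : Fin p → Fin (N + 1) → Ω) (w : Fin p → ℕ) (hT : ∀ j, rest j ∈ TT a x)
    (hw : ∀ j, Wt D B x (w j) (rest j)) (m : Fin (N + 1)) (hm : x m ≠ 0) :
    BddAt D B x m (AA e D x (two (Sv D x P k) (Sv D x P l) rest) * x m ^ (∑ i, d i) /
      x m ^ (∑ j, w j + 4 + r)) := by
  have hD : ∀ s t : Ix (Fin (N + 1)) d, D t (a s) = if s = t then 1 else 0 := hB.dual
  have h2 : ∑ j, (Fin.cons 2 (Fin.cons 2 w) : Fin (p + 2) → ℕ) j = ∑ j, w j + 4 := by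
    rw [Fin.sum_univ_succ, Fin.sum_univ_succ]
    simp only [Fin.cons_zero, Fin.cons_succ]
    omega
  have key := blk_at (D := D) (B := B) x hx e P rest m hm
    (x m ^ (∑ i, d i) / x m ^ (∑ j, w j + 4 + 1 + r)) (fun k l => by
      have h := aa_at hB hn x hx hF e
        (two (dvC D x (fun i => hf x m k * P i)) (dvC D x (fun i => hf x m l * P i)) rest)
        (Fin.cons 2 (Fin.cons 2 w) : Fin (p + 2) → ℕ) (by
          intro j
          refine Fin.cases ?_ (fun j => Fin.cases ?_ (fun j => ?_) j) j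
          · exact hf_TT hD x hF hd P m k
          · exact hf_TT hD x hF hd P m l
          · exact hT j) (by
          intro j
          refine Fin.cases ?_ (fun j => Fin.cases ?_ (fun j => ?_) j) j
          · exact wt_hf x P hP m k
          · exact wt_hf x P hP m l
          · exact hw j) m hm
      rw [h2, mul_div_assoc] at h
      exact h) k l
  have e1 : ∀ y : Ω, y * (x m ^ (∑ i, d i) / x m ^ (∑ j, w j + 4 + 1 + r) * x m) =
      y * x m ^ (∑ i, d i) / x m ^ (∑ j, w j + 4 + r) := by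
    intro y
    have h3 : x m ^ (∑ j, w j + 4 + 1 + r) = x m ^ (∑ j, w j + 4 + r) * x m := by
      rw [← pow_succ]
      congr 1
      omega
    have h4 : x m ^ (∑ j, w j + 4 + r) ≠ 0 := pow_ne_zero _ hm
    rw [h3]
    field_simp
  rw [e1] at key
  exact key

end

end Pool.Agent.Helper64.CJ
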