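import Pool.Agent.Helper64.CJ.Defs
import Pool.Agent.Helper64.CJ.Idn
import Pool.Agent.Helper64.CJ.IdnEx
import Pool.Agent.Helper64.CJ.BlkAt
import Pool.Agent.Helper10.CI.W1

/-!
# CJ-EXPB: the function `G` in case B, exponent `n - 2`

`idn_ex` (`p = 2`, `u = ![S_k, S_l]`, `q = n - 2`), `G = AA (S_k, S_l, S_β..)`, `tan_ne`; `idn` and `blk1_at` with the
weights `2, ..`: `2 q + 4 + r = 2 n + r = ∑ d_i + 1`. The rows `Fin.append ![S_k, S_l] v` (index `Fin (2 + q)`)
and `two S_k S_l v` (index `Fin (q + 2)`) agree up to `Fin.cast` (see `W1_two`); transport `e` along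
`Kx (q + 2) r ≃ Kx (2 + q) r` (or `obtain rfl`-free: state an auxiliary lemma for `Fin.append`).
-/

set_option autoImplicit false

namespace Pool.Agent.Helper64.CJ

open scoped BigOperators
open MvPolynomial
open Pool.Agent.Helper8.LG (Bdd form mon Ix)
open Pool.Agent.Helper49.LN (cP mo hf pl)
open Pool.Agent.Helper6.QS (dv ev lf dt Par RatP)
open Pool.Agent.Helper10.CI

section

variable {Ω : Type*} [Field Ω] [CharZero Ω] {N r n p q : ℕ} {d : Fin r → ℕ}
  {D : Ix (Fin (N + 1)) d → Derivation ℤ Ω Ω} {a : Ix (Fin (N + 1)) d → Ω} {B : Subfield Ω}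

/-- the rows `![a, b], v` and `two a b v` -/
theorem ExpB_append {V : Type*} {q : ℕ} (a b : V) (v : Fin q → V) (i : Fin (q + 2)) :
    (Fin.append ![a, b] v : Fin (2 + q) → V) (Fin.cast (by omega) i) =
      (Fin.cons a (Fin.cons b v : Fin (q + 1) → V) : Fin (q + 2) → V) i := by
  cases i using Fin.cases with
  | zero =>
    have h2 : Fin.cast (by omega : q + 2 = 2 + q) (0 : Fin (q + 2)) =
        Fin.castAdd q (0 : Fin 2) := rfl
    rw [h2, Fin.append_left]
    rfl
  | succ i =>
    cases i using Fin.cases with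
    | zero =>
      have h2 : Fin.cast (by omega : q + 2 = 2 + q) (Fin.succ (0 : Fin (q + 1))) =
          Fin.castAdd q (1 : Fin 2) := rfl
      rw [h2, Fin.append_left]
      rfl
    | succ i =>
      have h2 : Fin.cast (by omega : q + 2 = 2 + q) i.succ.succ = Fin.natAdd 2 i := by
        apply Fin.ext
        simp only [Fin.val_cast, Fin.val_succ, Fin.val_natAdd]
        omega
      rw [h2, Fin.append_right]
      rfl

/-- transport of the index type -/
theorem ExpB_cast (e : Kx (2 + q) r ≃ Fin (N + 1)) :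
    ∃ e' : Kx (q + 2) r ≃ Fin (N + 1), ∀ (D : Ix (Fin (N + 1)) d → Derivation ℤ Ω Ω)
      (x u v : Fin (N + 1) → Ω) (s : Fin q → Fin (N + 1) → Ω),
      AA e D x (Fin.append ![u, v] s) = AA e' D x (two u v s) := by
  let ι : Kx (q + 2) r ≃ Kx (2 + q) r :=
    Equiv.sumCongr (Equiv.refl Unit) (Equiv.sumCongr (finCongr (by omega)) (Equiv.refl (Fin r)))
  refine ⟨ι.trans e, fun D x u v s => ?_⟩
  unfold AA dtm
  rw [← Matrix.det_submatrix_equiv_self ι]
  congr 1
  ext k l
  rw [Matrix.submatrix_apply, Matrix.of_apply, Matrix.of_apply]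
  have h1 : rows x (Fin.append ![u, v] s) (tau D x) (ι k) =
      rows x (two u v s) (tau D x) k := by
    rcases k with k | k | k
    · rfl
    · exact ExpB_append u v s k
    · rfl
  rw [h1]
  rfl

theorem exp_b (hB : Frame D a B) (hn : 2 + q + r = N) (hd : ∀ i, 1 ≤ d i)
    (hnum : ∑ i, (d i + 1) + 1 = 2 * N) (x : Fin (N + 1) → Ω) (hx : x 0 = 1)
    (hF : ∀ i, form (fun J => a ⟨i, J⟩) x = 0)
    (ho : TT a x ≤ Submodule.span Ω (insert x (SS D B x)))
    (P : Fin r → MvPolynomial (Fin (N + 1)) Ω) (hP : RatT B P) (k l : Fin (N + 1))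
    (hu : LinearIndependent Ω (Fin.cons x ![Sv D x P k, Sv D x P l] :
      Fin (2 + 1) → Fin (N + 1) → Ω))
    (y : Fin (N + 1) → Ω) (β : Fin (N + 1))
    (H : ∀ (l' : Fin (N + 1)) (Q : Fin r → MvPolynomial (Fin (N + 1)) Ω),
        Sv D x Q l' - y l' • Sv D x Q β ∈
          Submodule.span Ω (insert x (Set.range ![Sv D x P k, Sv D x P l]))) :
    ExpG D B x y q := by
  have hcard : Fintype.card (Kx (2 + q) r) = N + 1 := by
    simp only [Fintype.card_sum, Fintype.card_unit, Fintype.card_fin]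
    omega
  obtain ⟨e⟩ : Nonempty (Kx (2 + q) r ≃ Fin (N + 1)) := ⟨Fintype.equivFinOfCardEq hcard⟩
  obtain ⟨e', he'⟩ := ExpB_cast (d := d) (Ω := Ω) e
  have huT : ∀ j, (![Sv D x P k, Sv D x P l] : Fin 2 → Fin (N + 1) → Ω) j ∈ TT a x := by
    intro j
    fin_cases j
    · exact sv_TT hB.dual x hx hF hd P k
    · exact sv_TT hB.dual x hx hF hd P l
  obtain ⟨Q, hQ, hli⟩ := idn_ex hB.dual hn hd x hx hF ho ![Sv D x P k, Sv D x P l] huT hu y β H
  refine ⟨AA e D x (Fin.append ![Sv D x P k, Sv D x P l] (fun t => Sv D x (Q t) β)), ?_, ?_⟩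
  · refine (tan_ne hB.dual hn x hx hF e _ ?_).2 hli
    intro j
    refine Fin.addCases (fun j => ?_) (fun j => ?_) j
    · rw [Fin.append_left]
      exact huT j
    · rw [Fin.append_right]
      exact sv_TT hB.dual x hx hF hd (Q j) β
  · intro m hm j l'
    rw [idn e x hx y β _ H Q j l', he']
    have h1 := blk1_at hB (p := q) (by omega) hd x hx hF e' P hP k l
      (fun t => dvC D x (fun i => hf x j l' * Q t i)) (fun _ => 2)
      (fun t => hf_TT hB.dual x hF hd (Q t) j l') (fun t => wt_hf x (Q t) (hQ t) j l') m hm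
    have h2 : ∑ i, (d i + 1) = ∑ i, d i + r := by
      rw [Finset.sum_add_distrib, Finset.sum_const, Finset.card_univ, Fintype.card_fin,
        smul_eq_mul, mul_one]
    have h3 : ∑ _j : Fin q, 2 + 4 + r = ∑ i, d i + 1 := by
      rw [Finset.sum_const, Finset.card_univ, Fintype.card_fin, smul_eq_mul]
      omega
    have h4 : x m ^ (∑ i, d i) ≠ 0 := pow_ne_zero _ hm
    have h5 : ∀ z : Ω, z * x m ^ (∑ i, d i) / x m ^ (∑ i, d i + 1) = z / x m := by
      intro z
      rw [pow_succ]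
      field_simp
    rw [h3, h5] at h1
    exact h1

end

end Pool.Agent.Helper64.CJ
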