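import Pool.Agent.Helper64.CJ.Pl
import Pool.Agent.Helper10.CI.Onto

/-!
# CJ-ONTO: the single vectors span the tangent space (`sum (d_i + 1) = 2 N - 1`)

As `onto` of `Helper10/CI/Onto.lean`: `p <= n - 1` independent single vectors `s` spanning `T₀ = span(x, SS)`
modulo `x`, completed by `n - p` unit vectors. If `p <= n - 2`: `aa_neg` (`2 p + 2 + r <= ∑ d_i = 2 n + r - 1`).
If `p = n - 1`: total weight `2 n - 2`. For `y = dvC D x (hf x j l * Q)` in the last single slot
`AA (.., y, unit)` lies in `B`: if it is not `0`, the rows `x, .., y` still span `T₀`, so the argument of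
`aa_neg` (`dtm_change` with `span_ss`, the bound `RZ_core`, here via a copy) gives that it has weight `0`.
The functional of this slot is not `0` at the single vector: `Pl_fin2`.
-/

set_option autoImplicit false

namespace Pool.Agent.Helper64.CJ

open scoped BigOperators
open MvPolynomial
open Pool.Agent.Helper8.LG (Bdd form mon Ix)
open Pool.Agent.Helper49.LN (cP mo hf pl)
open Pool.Agent.Helper6.QS (dv ev lf dt Par RatP)
open Pool.Agent.Helper10.CI

section

variable {Ω : Type*} [Field Ω] {N r n : ℕ} {d : Fin r → ℕ}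
  {D : Ix (Fin (N + 1)) d → Derivation ℤ Ω Ω} {a : Ix (Fin (N + 1)) d → Ω} {B : Subfield Ω}

/-- `dt (nu a x i)` is additive -/
private theorem Onto_c_dt_add (y u v : Fin (N + 1) → Ω) : dt y (u + v) = dt y u + dt y v := by
  simp only [dt, Pi.add_apply, mul_add, Finset.sum_add_distrib]

private theorem Onto_c_dt_smul (y : Fin (N + 1) → Ω) (c : Ω) (v : Fin (N + 1) → Ω) :
    dt y (c • v) = c * dt y v := by
  simp only [dt, Pi.smul_apply, smul_eq_mul, mul_left_comm _ c, ← Finset.mul_sum]

private theorem Onto_c_dt_sum (y : Fin (N + 1) → Ω) {κ : Type} (s : Finset κ)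
    (v : κ → Fin (N + 1) → Ω) : dt y (∑ k ∈ s, v k) = ∑ k ∈ s, dt y (v k) := by
  simp only [dt, Finset.sum_apply, Finset.mul_sum]
  rw [Finset.sum_comm]

/-- a maximal family of independent single vectors modulo `x` -/
private theorem Onto_c_max (T : Submodule Ω (Fin (N + 1) → Ω)) (S : Set (Fin (N + 1) → Ω))
    (x : Fin (N + 1) → Ω) (hx : x ≠ 0) (hT : Submodule.span Ω (insert x S) = T) :
    ∃ (p : ℕ) (s : Fin p → Fin (N + 1) → Ω), (∀ j, s j ∈ S) ∧
      LinearIndependent Ω (Fin.cons x s : Fin (p + 1) → Fin (N + 1) → Ω) ∧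
      T ≤ Submodule.span Ω (insert x (Set.range s)) ∧ p + 1 ≤ Module.finrank Ω T := by
  classical
  let P : ℕ → Prop := fun p => ∃ s : Fin p → Fin (N + 1) → Ω, (∀ j, s j ∈ S) ∧
      LinearIndependent Ω (Fin.cons x s : Fin (p + 1) → Fin (N + 1) → Ω)
  have hP0 : P 0 := by
    refine ⟨Fin.elim0, fun j => j.elim0, ?_⟩
    rw [linearIndependent_finCons]
    refine ⟨linearIndependent_empty_type, ?_⟩
    simpa using hx
  have hbound : ∀ p, P p → p + 1 ≤ Module.finrank Ω T := by
    rintro p ⟨s, hs, hli⟩
    have h1 := finrank_span_eq_card hli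
    rw [Fintype.card_fin] at h1
    rw [← h1]
    refine Submodule.finrank_mono ?_
    rw [Fin.range_cons, ← hT]
    refine Submodule.span_mono (Set.insert_subset_insert ?_)
    rintro _ ⟨j, rfl⟩
    exact hs j
  have hex : ∃ p, ¬ P p := ⟨Module.finrank Ω T, fun h => by
    have := hbound _ h
    omega⟩
  have hfind := Nat.find_spec hex
  have hmin : ∀ m, m < Nat.find hex → P m := fun m hm => by
    by_contra h
    exact Nat.find_min hex hm h
  obtain ⟨p, hp⟩ : ∃ p, Nat.find hex = p + 1 := by
    rcases Nat.eq_zero_or_pos (Nat.find hex) with h | h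
    · rw [h] at hfind
      exact absurd hP0 hfind
    · exact ⟨Nat.find hex - 1, by omega⟩
  rw [hp] at hfind
  obtain ⟨s, hs, hli⟩ := hmin p (by omega)
  refine ⟨p, s, hs, hli, ?_, hbound p ⟨s, hs, hli⟩⟩
  rw [← hT, Submodule.span_le]
  intro y hy
  rcases hy with rfl | hy
  · exact Submodule.subset_span (Set.mem_insert _ _)
  · by_contra hcon
    apply hfind
    refine ⟨Fin.snoc s y, fun j => ?_, ?_⟩
    · refine Fin.lastCases ?_ (fun j => ?_) j
      · rw [Fin.snoc_last]
        exact hy
      · rw [Fin.snoc_castSucc]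
        exact hs j
    · rw [Fin.cons_snoc_eq_snoc_cons]
      refine linearIndependent_finSnoc.2 ⟨hli, ?_⟩
      rw [Fin.range_cons]
      exact hcon

/-- independent tangent vectors together with the `tau_i` are independent -/
private theorem Onto_c_all (hD : ∀ s t : Ix (Fin (N + 1)) d, D t (a s) = if s = t then 1 else 0)
    (x : Fin (N + 1) → Ω) (hx : x 0 = 1)
    (hF : ∀ i, form (fun J => a ⟨i, J⟩) x = 0) {p : ℕ}
    (v : Fin p → Fin (N + 1) → Ω) (hv : ∀ j, v j ∈ TT a x)
    (h : LinearIndependent Ω (Fin.cons x v : Fin (p + 1) → Fin (N + 1) → Ω)) :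
    LinearIndependent Ω (rows x v (tau D x)) := by
  rw [Fintype.linearIndependent_iff] at h ⊢
  intro c hc
  rw [Fintype.sum_sum_type, Fintype.sum_sum_type] at hc
  have hc' : (∑ i : Unit, c (Sum.inl i) • x) + ((∑ j : Fin p, c (Sum.inr (Sum.inl j)) • v j) +
      ∑ i : Fin r, c (Sum.inr (Sum.inr i)) • tau D x i) = 0 := hc
  have h0 : ∀ i, c (Sum.inr (Sum.inr i)) = 0 := by
    intro i
    have h2 := congrArg (fun y => dt (nu a x i) y) hc'
    have h3 : dt (nu a x i) x = 0 := nu_x x hF i
    have h4 : ∀ j, dt (nu a x i) (v j) = 0 := fun j => hv j i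
    have h5 : ∀ j, dt (nu a x i) (tau D x j) = if i = j then -1 else 0 :=
      fun j => nu_tau hD x hx hF i j
    have h6 : dt (nu a x i) (0 : Fin (N + 1) → Ω) = 0 := by simp [dt]
    simp only [Onto_c_dt_add, Onto_c_dt_sum, Onto_c_dt_smul, h3, h4, h5, h6, mul_zero,
      Finset.sum_const_zero, zero_add, mul_ite, mul_neg, mul_one] at h2
    rw [Finset.sum_ite_eq] at h2
    simpa using h2
  have h6 := h (Fin.cons (c (Sum.inl ())) (fun j => c (Sum.inr (Sum.inl j)))) (by
    rw [Fin.sum_univ_succ]
    simp only [Fin.cons_zero, Fin.cons_succ]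
    simp only [h0, zero_smul, Finset.sum_const_zero, add_zero, Finset.univ_unique,
      Finset.sum_singleton] at hc'
    exact hc')
  intro k
  rcases k with u | j | i
  · exact h6 0
  · exact h6 j.succ
  · exact h0 i

/-- one more row -/
private theorem Onto_c_snoc {m : ℕ} (x : Fin (N + 1) → Ω) (v : Fin m → Fin (N + 1) → Ω)
    (τ : Fin r → Fin (N + 1) → Ω) (y : Fin (N + 1) → Ω) (h : LinearIndependent Ω (rows x v τ))
    (hy : y ∉ Submodule.span Ω (Set.range (rows x v τ))) :
    LinearIndependent Ω (rows x (Fin.snoc v y : Fin (m + 1) → Fin (N + 1) → Ω) τ) := by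
  have h1 : LinearIndependent Ω
      (fun o => Option.casesOn' o y (rows x v τ) : Option (Kx m r) → Fin (N + 1) → Ω) :=
    linearIndependent_option'.2 ⟨h, hy⟩
  let φ : Kx (m + 1) r → Option (Kx m r) := Sum.elim (fun u => some (Sum.inl u))
    (Sum.elim (Fin.snoc (fun j => some (Sum.inr (Sum.inl j))) none)
      (fun i => some (Sum.inr (Sum.inr i))))
  have hφ : Function.Injective φ := by
    rintro (u | j | i) (u' | j' | i') hh
    · rfl
    · exfalso
      revert hh
      refine Fin.lastCases ?_ (fun j => ?_) j' <;> simp [φ]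
    · simp [φ] at hh
    · exfalso
      revert hh
      refine Fin.lastCases ?_ (fun j => ?_) j <;> simp [φ]
    · revert hh
      refine Fin.lastCases ?_ (fun j => ?_) j
      · refine Fin.lastCases ?_ (fun j' => ?_) j' <;> simp [φ]
      · refine Fin.lastCases ?_ (fun j' => ?_) j' <;> simp [φ]
    · exfalso
      revert hh
      refine Fin.lastCases ?_ (fun j => ?_) j <;> simp [φ]
    · simp [φ] at hh
    · exfalso
      revert hh
      refine Fin.lastCases ?_ (fun j => ?_) j' <;> simp [φ]
    · simp only [φ, Sum.elim_inr, Option.some.injEq, Sum.inr.injEq] at hh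
      rw [hh]
  have h2 := h1.comp φ hφ
  convert h2 using 1
  funext k
  rcases k with u | j | i
  · rfl
  · refine Fin.lastCases ?_ (fun j => ?_) j
    · simp [φ, rows]
    · simp [φ, rows]
  · rfl

/-- some unit vector lies outside a small span -/
private theorem Onto_c_unit {ι : Type} [Fintype ι] (w : ι → Fin (N + 1) → Ω)
    (h : Fintype.card ι < N + 1) :
    ∃ l : Fin (N + 1), (Pi.single l 1 : Fin (N + 1) → Ω) ∉ Submodule.span Ω (Set.range w) := by
  by_contra hcon
  push Not at hcon
  have h1 : Submodule.span Ω (Set.range w) = ⊤ := by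
    rw [eq_top_iff]
    intro y _
    rw [pi_eq_sum_univ' y]
    refine Submodule.sum_mem _ fun l _ => Submodule.smul_mem _ _ ?_
    have := hcon l
    convert this using 1
  have h2 := finrank_range_le_card (R := Ω) w
  unfold Set.finrank at h2
  rw [h1, finrank_top, Module.finrank_fin_fun] at h2
  omega

/-- the last rows, normalised at the coordinate `m` -/
private noncomputable def Onto_rz_tau (D : Ix (Fin (N + 1)) d → Derivation ℤ Ω Ω)
    (x : Fin (N + 1) → Ω) (m : Fin (N + 1)) (i : Fin r) : Fin (N + 1) → Ω :=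
  dvC D x (sg i ((x m)⁻¹ ^ d i • X m ^ d i))

private theorem Onto_rz_coeff (O : ValuationSubring Ω) (m : Fin (N + 1)) (k : ℕ)
    (n : Fin (N + 1) →₀ ℕ) : coeff n (X m ^ k : MvPolynomial (Fin (N + 1)) Ω) ∈ O := by
  classical
  rw [coeff_X_pow]
  split_ifs
  · exact O.one_mem
  · exact O.zero_mem

private theorem Onto_rz_core (e : Kx n r ≃ Fin (N + 1)) (x : Fin (N + 1) → Ω)
    (v : Fin n → Fin (N + 1) → Ω) (w : Fin n → ℕ) (hw : ∀ j, Wt D B x (w j) (v j))
    (m : Fin (N + 1)) (hm : x m ≠ 0) :
    BddAt D B x m (dtm e x v (Onto_rz_tau D x m) * x m ^ (∑ i, d i) /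
      x m ^ (∑ j, w j + 1 + r)) := by
  classical
  choose s M hsB hs using hw
  refine ⟨Finset.univ.biUnion s, (∑ j, M j + 1) * (N + 1), ?_, fun O Δ hΔ hsO _ hmax => ?_⟩
  · intro b hb
    obtain ⟨j, -, hb⟩ := Finset.mem_biUnion.1 hb
    exact hsB j b hb
  · have h1 := fun j => hs j O Δ hΔ
      (fun b hb => hsO b (Finset.mem_biUnion.2 ⟨j, Finset.mem_univ j, hb⟩)) m hm hmax
    choose μ v' hv hv' using h1
    have h2 := fun i : Fin r => dvC_scale (D := D) x m hm (sg i (X m ^ d i))
    choose c hc using h2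
    set x' : Fin (N + 1) → Ω := fun l => x l / x m with hx'
    have hxx : x = x m • x' := by
      funext l
      rw [Pi.smul_apply, smul_eq_mul]
      exact (mul_div_cancel₀ _ hm).symm
    have hτ : ∀ i, Onto_rz_tau D x m i = ((x m)⁻¹ ^ d i * x m) • dvC D x' (sg i (X m ^ d i)) +
        ((x m)⁻¹ ^ d i * c i) • x := by
      intro i
      have h3 : sg i ((x m)⁻¹ ^ d i • X m ^ d i) =
          (x m)⁻¹ ^ d i • sg i (X m ^ d i : MvPolynomial (Fin (N + 1)) Ω) := by
        unfold sg
        rw [Pi.single_smul]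
      rw [Onto_rz_tau, h3, map_smul, hc, smul_add, smul_smul, smul_smul]
    have h4 := dtm_scale e x x' (x m) hxx v v' w μ hv (Onto_rz_tau D x m)
      (fun i => dvC D x' (sg i (X m ^ d i))) (fun i => (x m)⁻¹ ^ d i * x m)
      (fun i => (x m)⁻¹ ^ d i * c i) hτ
    have h5 : ∏ i, ((x m)⁻¹ ^ d i * x m) = (x m)⁻¹ ^ (∑ i, d i) * x m ^ r := by
      rw [Finset.prod_mul_distrib, Finset.prod_pow_eq_pow_sum, Finset.prod_const,
        Finset.card_univ, Fintype.card_fin]
    have h6 : dtm e x v (Onto_rz_tau D x m) * x m ^ (∑ i, d i) / x m ^ (∑ j, w j + 1 + r) =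
        dtm e x' v' (fun i => dvC D x' (sg i (X m ^ d i))) := by
      rw [h4, h5, inv_pow, div_eq_iff (pow_ne_zero _ hm)]
      have h7 : x m ^ (1 + ∑ j, w j) * ((x m ^ (∑ i, d i))⁻¹ * x m ^ r) *
          dtm e x' v' (fun i => dvC D x' (sg i (X m ^ d i))) * x m ^ (∑ i, d i) =
          x m ^ (1 + ∑ j, w j) * x m ^ r *
          dtm e x' v' (fun i => dvC D x' (sg i (X m ^ d i))) *
            ((x m ^ (∑ i, d i))⁻¹ * x m ^ (∑ i, d i)) := by ring
      rw [h7, inv_mul_cancel₀ (pow_ne_zero _ hm)]
      ring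
    rw [h6]
    refine dtm_mem e x' v' _ O Δ hΔ.1 (∑ j, M j + 1) hmax ?_ ?_
    · intro j l
      have h8 : M j ≤ ∑ j, M j := Finset.single_le_sum (fun _ _ => Nat.zero_le _)
        (Finset.mem_univ j)
      have h9 : ∑ j, M j + 1 = (∑ j, M j + 1 - M j) + M j := by omega
      rw [h9, pow_add, mul_assoc]
      exact O.mul_mem _ _ (pow_mem hΔ.1 _) (hv' j l)
    · intro i l
      rw [pow_add, mul_assoc]
      refine O.mul_mem _ _ (pow_mem hΔ.1 _) ?_
      refine dvC_bdd x' O Δ hΔ hmax (sg i (X m ^ d i)) 0 (fun k q => ?_) l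
      rw [pow_zero, one_mul]
      unfold sg
      by_cases hk : k = i
      · subst hk
        rw [Pi.single_eq_same]
        exact Onto_rz_coeff O m _ q
      · rw [Pi.single_eq_of_ne hk, coeff_zero]
        exact O.zero_mem

/-- the difference of the forms vanishes at `x` -/
private theorem Onto_rz_ev (x : Fin (N + 1) → Ω) (hx : x 0 = 1) (m : Fin (N + 1)) (hm : x m ≠ 0)
    (i k : Fin r) :
    ev (d k) x ((sg i ((x m)⁻¹ ^ d i • X m ^ d i) - sg i (X 0 ^ d i) :
      Fin r → MvPolynomial (Fin (N + 1)) Ω) k) = 0 := by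
  have h1 : ∀ l : Fin (N + 1), ev (d k) x (X l ^ d k : MvPolynomial (Fin (N + 1)) Ω) =
      x l ^ d k := by
    intro l
    rw [Pool.Agent.Helper6.QS.ev_hom]
    · rw [map_pow, eval_X]
    · simpa using (isHomogeneous_X Ω l).pow (d k)
  rw [Pi.sub_apply]
  unfold sg
  by_cases hk : k = i
  · subst hk
    rw [Pi.single_eq_same, Pi.single_eq_same, map_sub, map_smul, h1, h1, hx, one_pow,
      smul_eq_mul, ← mul_pow, inv_mul_cancel₀ hm, one_pow, sub_self]
  · rw [Pi.single_eq_of_ne hk, Pi.single_eq_of_ne hk, sub_self, map_zero]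

private theorem Onto_rz_sub (x : Fin (N + 1) → Ω) (m : Fin (N + 1)) (i : Fin r) :
    Onto_rz_tau D x m i - tau D x i = dvC D x (sg i ((x m)⁻¹ ^ d i • X m ^ d i) -
      sg i (X 0 ^ d i)) := by
  rw [Onto_rz_tau, tau, map_sub]

/-- functions of weight `0`, when the rows contain the span of the single vectors -/
private theorem Onto_zero (hB : Frame D a B) (x : Fin (N + 1) → Ω) (hx : x 0 = 1)
    (e : Kx n r ≃ Fin (N + 1)) (v : Fin n → Fin (N + 1) → Ω) (w : Fin n → ℕ)
    (hw : ∀ j, Wt D B x (w j) (v j))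
    (hspan : ∀ g : Fin r → MvPolynomial (Fin (N + 1)) Ω, (∀ i, ev (d i) x (g i) = 0) →
      dvC D x g ∈ Submodule.span Ω (insert x (Set.range v)))
    (hsum : ∑ j, w j + 1 + r = ∑ i, d i) : AA e D x v ∈ B := by
  refine bd_mem hB hx _ fun m hm => ?_
  have h1 : dtm e x v (Onto_rz_tau D x m) = AA e D x v := by
    refine dtm_change e x v _ _ fun i => ?_
    rw [Onto_rz_sub]
    exact hspan _ fun k => Onto_rz_ev x hx m hm i k
  have h2 := Onto_rz_core e x v w hw m hm
  rw [h1, hsum, mul_div_cancel_right₀ _ (pow_ne_zero _ hm)] at h2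
  exact h2

/-- the determinant as a linear map of the last but one vector -/
private theorem Onto_slot {p : ℕ} (e : Kx (p + 1 + 1) r ≃ Fin (N + 1))
    (D : Ix (Fin (N + 1)) d → Derivation ℤ Ω Ω) (x : Fin (N + 1) → Ω)
    (s : Fin p → Fin (N + 1) → Ω) (u : Fin (N + 1) → Ω) :
    ∃ L : (Fin (N + 1) → Ω) →ₗ[Ω] Ω, ∀ y, L y = AA e D x
      (Fin.snoc (Fin.snoc s y : Fin (p + 1) → Fin (N + 1) → Ω) u :
        Fin (p + 1 + 1) → Fin (N + 1) → Ω) := by
  obtain ⟨A, hA, -⟩ := exists_alt e x (tau D x)
  have h0 : ∀ y y' : Fin (N + 1) → Ω, Function.update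
      (Fin.snoc (Fin.snoc s y' : Fin (p + 1) → Fin (N + 1) → Ω) u :
        Fin (p + 1 + 1) → Fin (N + 1) → Ω) (Fin.last p).castSucc y =
      Fin.snoc (Fin.snoc s y : Fin (p + 1) → Fin (N + 1) → Ω) u := by
    intro y y'
    rw [← Fin.snoc_update, Fin.update_snoc_last]
  refine ⟨{ toFun := fun y => A (Fin.snoc (Fin.snoc s y : Fin (p + 1) → Fin (N + 1) → Ω) u :
              Fin (p + 1 + 1) → Fin (N + 1) → Ω)
            map_add' := ?_
            map_smul' := ?_ }, ?_⟩
  · intro y z
    have h := A.map_update_add (Fin.snoc (Fin.snoc s y : Fin (p + 1) → Fin (N + 1) → Ω) u :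
      Fin (p + 1 + 1) → Fin (N + 1) → Ω) (Fin.last p).castSucc y z
    rwa [h0, h0, h0] at h
  · intro c y
    have h := A.map_update_smul (Fin.snoc (Fin.snoc s y : Fin (p + 1) → Fin (N + 1) → Ω) u :
      Fin (p + 1 + 1) → Fin (N + 1) → Ω) (Fin.last p).castSucc c y
    rwa [h0, h0] at h
  · intro y
    exact hA _

/-- the first rows of independent rows are independent -/
private theorem Onto_part {m : ℕ} {x : Fin (N + 1) → Ω} {v : Fin m → Fin (N + 1) → Ω}
    {u : Fin (N + 1) → Ω} {τ : Fin r → Fin (N + 1) → Ω}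
    (h : LinearIndependent Ω (rows x (Fin.snoc v u : Fin (m + 1) → Fin (N + 1) → Ω) τ)) :
    LinearIndependent Ω (Fin.cons x v : Fin (m + 1) → Fin (N + 1) → Ω) := by
  have hinj : Function.Injective
      (Fin.cons (Sum.inl ()) (fun j : Fin m => Sum.inr (Sum.inl j.castSucc)) :
        Fin (m + 1) → Kx (m + 1) r) := by
    intro i j hij
    cases i using Fin.cases with
    | zero =>
      cases j using Fin.cases with
      | zero => rfl
      | succ j => simp at hij
    | succ i =>
      cases j using Fin.cases with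
      | zero => simp at hij
      | succ j =>
        simp only [Fin.cons_succ, Sum.inr.injEq, Sum.inl.injEq, Fin.castSucc_inj] at hij
        rw [hij]
  have h1 := h.comp _ hinj
  convert h1
  funext i
  cases i using Fin.cases with
  | zero => rfl
  | succ i =>
    rw [Function.comp_apply, Fin.cons_succ, Fin.cons_succ]
    exact (Fin.snoc_castSucc (α := fun _ => Fin (N + 1) → Ω) u v i).symm

end

section

variable {Ω : Type*} [Field Ω] [CharZero Ω] {N r n p q : ℕ} {d : Fin r → ℕ}
  {D : Ix (Fin (N + 1)) d → Derivation ℤ Ω Ω} {a : Ix (Fin (N + 1)) d → Ω} {B : Subfield Ω}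

theorem onto2 (hB : Frame D a B) (hn : n + r = N) (hn2 : 2 ≤ n) (hd : ∀ i, 1 ≤ d i)
    (hnum : ∑ i, (d i + 1) + 1 = 2 * N) (x : Fin (N + 1) → Ω) (hx : x 0 = 1)
    (hF : ∀ i, form (fun J => a ⟨i, J⟩) x = 0) :
    (∀ l, x l ∈ B) ∨ TT a x ≤ Submodule.span Ω (insert x (SS D B x)) := by
  classical
  by_cases hle : TT a x ≤ Submodule.span Ω (insert x (SS D B x))
  · exact Or.inr hle
  left
  have hD := hB.dual
  have hx0 : x ≠ 0 := by
    intro h
    rw [h] at hx
    exact zero_ne_one hx
  have hSST : ∀ y ∈ SS D B x, y ∈ TT a x := by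
    rintro _ ⟨l, P, -, rfl⟩
    exact sv_TT hD x hx hF hd P l
  have hT0 : Submodule.span Ω (insert x (SS D B x)) ≤ TT a x := by
    rw [Submodule.span_le]
    intro y hy
    rcases hy with rfl | hy
    · exact fun i => nu_x _ hF i
    · exact hSST y hy
  have hlt : Submodule.span Ω (insert x (SS D B x)) < TT a x := lt_of_le_not_ge hT0 hle
  have hfin := Submodule.finrank_lt_finrank_of_lt hlt
  rw [finrank_TT hD hn x hx hF] at hfin
  obtain ⟨p, s, hs, hli, hspan, hp⟩ := Onto_c_max _ (SS D B x) x hx0 rfl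
  have hpn : p + 1 ≤ n := by omega
  have hrow : LinearIndependent Ω (rows x s (tau D x)) :=
    Onto_c_all hD x hx hF s (fun j => hSST _ (hs j)) hli
  have hdsum : ∑ i, (d i + 1) = ∑ i, d i + r := by
    rw [Finset.sum_add_distrib]
    simp
  have hSS2 : Submodule.span Ω (SS D B x) ≤ Submodule.span Ω (insert x (SS D B x)) :=
    Submodule.span_mono (Set.subset_insert _ _)
  rcases Nat.lt_or_ge (p + 1) n with hpn2 | hpn2
  · -- completion by unit vectors
    have key : ∀ q : ℕ, p + q ≤ n → ∃ u : Fin q → Fin (N + 1) → Ω,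
        (∀ j, ∃ l, u j = Pi.single l 1) ∧
          LinearIndependent Ω (rows x (Fin.append s u) (tau D x)) := by
      intro q
      induction q with
      | zero =>
        intro _
        refine ⟨Fin.elim0, fun j => j.elim0, ?_⟩
        have h1 : (Fin.append s (Fin.elim0 : Fin 0 → Fin (N + 1) → Ω)) = s := by
          rw [Fin.append_elim0]
          rfl
        rw [h1]
        exact hrow
      | succ q ih =>
        intro hq
        obtain ⟨u, hu, hlu⟩ := ih (by omega)
        obtain ⟨l, hl⟩ := Onto_c_unit (rows x (Fin.append s u) (tau D x)) (by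
          rw [Fintype.card_sum, Fintype.card_sum, Fintype.card_fin, Fintype.card_fin,
            Fintype.card_unit]
          omega)
        refine ⟨Fin.snoc u (Pi.single l 1), ?_, ?_⟩
        · intro j
          refine Fin.lastCases ?_ (fun j => ?_) j
          · exact ⟨l, by rw [Fin.snoc_last]⟩
          · rw [Fin.snoc_castSucc]
            exact hu j
        · have h1 := Onto_c_snoc x (Fin.append s u) (tau D x) _ hlu hl
          rw [Fin.append_snoc]
          exact h1
    obtain ⟨q, hq⟩ : ∃ q, p + q = n := ⟨n - p, by omega⟩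
    obtain ⟨u, hu, hlu⟩ := key q hq.le
    subst hq
    have hcard : Fintype.card (Kx (p + q) r) = Fintype.card (Fin (N + 1)) := by
      rw [Fintype.card_sum, Fintype.card_sum, Fintype.card_fin, Fintype.card_fin,
        Fintype.card_unit, Fintype.card_fin]
      omega
    let e : Kx (p + q) r ≃ Fin (N + 1) := Fintype.equivOfCardEq hcard
    refine aa_neg hB x hx e (Fin.append s u) (Fin.append (fun _ => 2) (fun _ => 0)) ?_ ?_ ?_ ?_
    · intro j
      refine Fin.addCases (fun j => ?_) (fun j => ?_) j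
      · rw [Fin.append_left, Fin.append_left]
        exact ss_wt x hx _ (hs j)
      · rw [Fin.append_right, Fin.append_right]
        obtain ⟨l, hl⟩ := hu j
        rw [hl]
        exact wt_unit x l
    · intro g hg
      have h1 := span_ss (D := D) (B := B) x hx hd g hg
      have h3 : Submodule.span Ω (insert x (Set.range s)) ≤
          Submodule.span Ω (insert x (Set.range (Fin.append s u))) := by
        refine Submodule.span_mono (Set.insert_subset_insert ?_)
        rintro _ ⟨j, rfl⟩
        exact ⟨Fin.castAdd q j, Fin.append_left _ _ _⟩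
      exact h3 (hspan (hSS2 h1))
    · have h2 : ∑ j : Fin (p + q), (Fin.append (fun _ => 2) (fun _ => 0) : Fin (p + q) → ℕ) j
          = 2 * p := by
        rw [Fin.sum_univ_add]
        simp [Fin.append_left, Fin.append_right, mul_comm]
      rw [h2]
      omega
    · unfold AA
      rw [dtm_ne]
      exact hlu
  · -- `p = n - 1`: one unit vector, total weight `0`
    obtain ⟨m, rfl⟩ : ∃ m, p = m + 1 := ⟨p - 1, by omega⟩
    obtain rfl : n = m + 1 + 1 := by omega
    obtain ⟨l₁, hl₁⟩ := Onto_c_unit (rows x s (tau D x)) (by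
      rw [Fintype.card_sum, Fintype.card_sum, Fintype.card_fin, Fintype.card_fin,
        Fintype.card_unit]
      omega)
    set u : Fin (N + 1) → Ω := Pi.single l₁ 1 with hu
    have hsu := Onto_c_snoc x s (tau D x) u hrow hl₁
    obtain ⟨e⟩ := Pl_e (N := N) (r := r) (n := m + 1 + 1) hn
    set s' : Fin m → Fin (N + 1) → Ω := Fin.init s with hs'
    have hss : s = (Fin.snoc s' (s (Fin.last m)) : Fin (m + 1) → Fin (N + 1) → Ω) :=
      (Fin.snoc_init_self s).symm
    obtain ⟨L, hL⟩ := Onto_slot e D x s' u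
    obtain ⟨l₀, Q, hQ, hlast⟩ := hs (Fin.last m)
    have hdim : Module.finrank Ω (Submodule.span Ω (insert x (SS D B x))) ≤ m + 1 + 1 := by
      refine (Submodule.finrank_mono hspan).trans ?_
      have h1 := finrank_range_le_card (R := Ω) (Fin.cons x s : Fin (m + 1 + 1) → Fin (N + 1) → Ω)
      rw [Fintype.card_fin] at h1
      unfold Set.finrank at h1
      rwa [Fin.range_cons] at h1
    refine Pl_fin2 hB hnum x hx hF Q l₀ L ?_ fun j l => ?_
    · rw [← hlast, hL, ← hss]
      unfold AA
      rw [dtm_ne]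
      exact hsu
    · rw [hL]
      set y : Fin (N + 1) → Ω := dvC D x (fun i => hf x j l * Q i) with hy
      by_cases hne : AA e D x (Fin.snoc (Fin.snoc s' y : Fin (m + 1) → Fin (N + 1) → Ω) u :
          Fin (m + 1 + 1) → Fin (N + 1) → Ω) = 0
      · rw [hne]
        exact B.zero_mem
      · have hli2 : LinearIndependent Ω (Fin.cons x (Fin.snoc s' y : Fin (m + 1) →
            Fin (N + 1) → Ω) : Fin (m + 1 + 1) → Fin (N + 1) → Ω) := by
          refine Onto_part (u := u) (τ := tau D x) ?_
          rw [← dtm_ne e]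
          exact hne
        have hyS : y ∈ Submodule.span Ω (SS D B x) :=
          span_ss (D := D) (B := B) x hx hd _ fun i => Sing_ev x (d i) (hd i) (Q i) j l
        have hsub : Submodule.span Ω (Set.range (Fin.cons x (Fin.snoc s' y : Fin (m + 1) →
            Fin (N + 1) → Ω) : Fin (m + 1 + 1) → Fin (N + 1) → Ω)) ≤
            Submodule.span Ω (insert x (SS D B x)) := by
          rw [Submodule.span_le]
          rintro _ ⟨i, rfl⟩
          cases i using Fin.cases with
          | zero => exact Submodule.subset_span (Set.mem_insert _ _)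
          | succ i =>
            rw [Fin.cons_succ]
            refine Fin.lastCases ?_ (fun i => ?_) i
            · rw [Fin.snoc_last]
              exact hSS2 hyS
            · rw [Fin.snoc_castSucc]
              exact Submodule.subset_span (Set.mem_insert_of_mem _ (hs _))
        have heq : Submodule.span Ω (Set.range (Fin.cons x (Fin.snoc s' y : Fin (m + 1) →
            Fin (N + 1) → Ω) : Fin (m + 1 + 1) → Fin (N + 1) → Ω)) =
            Submodule.span Ω (insert x (SS D B x)) := by
          refine Submodule.eq_of_le_of_finrank_le hsub ?_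
          rw [finrank_span_eq_card hli2, Fintype.card_fin]
          exact hdim
        refine Onto_zero hB x hx e _ (Fin.snoc (fun _ : Fin (m + 1) => 2) 0 :
          Fin (m + 1 + 1) → ℕ) (fun k => ?_) (fun g hg => ?_) ?_
        · refine Fin.lastCases ?_ (fun k => ?_) k
          · rw [Fin.snoc_last, Fin.snoc_last]
            exact wt_unit x l₁
          · rw [Fin.snoc_castSucc, Fin.snoc_castSucc]
            refine Fin.lastCases ?_ (fun k => ?_) k
            · rw [Fin.snoc_last]
              exact wt_hf x Q hQ j l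
            · rw [Fin.snoc_castSucc]
              exact ss_wt x hx _ (hs _)
        · have h1 := hSS2 (span_ss (D := D) (B := B) x hx hd g hg)
          rw [← heq, Fin.range_cons] at h1
          refine Submodule.span_mono (Set.insert_subset_insert ?_) h1
          rintro _ ⟨k, rfl⟩
          exact ⟨k.castSucc, Fin.snoc_castSucc (α := fun _ => Fin (N + 1) → Ω) _ _ _⟩
        · rw [Fin.sum_univ_castSucc]
          simp only [Fin.snoc_castSucc, Fin.snoc_last, Finset.sum_const, Finset.card_univ,
            Fintype.card_fin, smul_eq_mul]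
          omega

end

end Pool.Agent.Helper64.CJ
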