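import Pool.Agent.Helper64.CJ.Defs

/-!
# CJ-BDL: elements bounded where `x_m` and `pl x y j l` are maximal

As `Helper10/CI/Bd.lean`. `bdl_mem`: `rat_max` for `x`, and for the Plücker coordinates
`Pool.Agent.Helper74.LG.exists_max_coord` (index type `Fin (N+1) × Fin (N+1)`), with the union of the finite
sets and the sum of the exponents over all `m, j, l`.
-/

set_option autoImplicit false

namespace Pool.Agent.Helper64.CJ

open scoped BigOperators
open MvPolynomial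
open Pool.Agent.Helper8.LG (Bdd form mon Ix)
open Pool.Agent.Helper49.LN (cP mo hf pl)
open Pool.Agent.Helper6.QS (dv ev lf dt Par RatP)
open Pool.Agent.Helper10.CI

section

variable {Ω : Type*} [Field Ω] [CharZero Ω] {N r n p q : ℕ} {d : Fin r → ℕ}
  {D : Ix (Fin (N + 1)) d → Derivation ℤ Ω Ω} {a : Ix (Fin (N + 1)) d → Ω} {B : Subfield Ω}

variable {x y : Fin (N + 1) → Ω} {m j l : Fin (N + 1)}

theorem bdl_const (b : Ω) (hb : b ∈ B) : BddL D B x y m j l b := by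
  refine ⟨{b}, 1, by simpa using hb, fun O Δ _ hsO _ _ _ _ => ?_⟩
  rw [pow_one]
  exact hsO b (Finset.mem_singleton_self b)

theorem bdl_at {z : Ω} (hz : BddAt D B x m z) : BddL D B x y m j l z := by
  obtain ⟨s, M, hs, h⟩ := hz
  exact ⟨s, M, hs, fun O Δ hΔ hsO hm hmax _ _ => h O Δ hΔ hsO hm hmax⟩

theorem bdl_ratio (j' l' : Fin (N + 1)) : BddL D B x y m j l (pl x y j' l' / pl x y j l) := by
  refine ⟨∅, 0, by simp, fun O Δ _ _ _ _ _ hpl => ?_⟩
  rw [pow_zero, one_mul]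
  exact hpl j' l'

theorem bdl_mul {z w : Ω} (hz : BddL D B x y m j l z) (hw : BddL D B x y m j l w) :
    BddL D B x y m j l (z * w) := by
  classical
  obtain ⟨s, M, hs, h⟩ := hz
  obtain ⟨s', M', hs', h'⟩ := hw
  refine ⟨s ∪ s', M + M', ?_, fun O Δ hΔ hsO hm hmax hp hpl => ?_⟩
  · intro b hb
    rcases Finset.mem_union.1 hb with hb | hb
    · exact hs b hb
    · exact hs' b hb
  · have h1 := h O Δ hΔ (fun b hb => hsO b (Finset.mem_union_left _ hb)) hm hmax hp hpl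
    have h2 := h' O Δ hΔ (fun b hb => hsO b (Finset.mem_union_right _ hb)) hm hmax hp hpl
    have h3 : Δ ^ (M + M') * (z * w) = (Δ ^ M * z) * (Δ ^ M' * w) := by
      ring
    rw [h3]
    exact O.mul_mem _ _ h1 h2

theorem bdl_pow {z : Ω} (hz : BddL D B x y m j l z) (k : ℕ) : BddL D B x y m j l (z ^ k) := by
  induction k with
  | zero =>
    rw [pow_zero]
    exact bdl_const 1 B.one_mem
  | succ k ih =>
    rw [pow_succ]
    exact bdl_mul ih hz

theorem bdl_mem (hB : Frame D a B) (hx : x 0 = 1) (hy : ∃ j l, pl x y j l ≠ 0) (z : Ω)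
    (h : ∀ m j l, x m ≠ 0 → pl x y j l ≠ 0 → BddL D B x y m j l z) : z ∈ B := by
  classical
  have h' : ∀ u : Fin (N + 1) × Fin (N + 1) × Fin (N + 1), ∃ (s : Finset Ω) (M : ℕ),
      (∀ b ∈ s, b ∈ B) ∧
      ∀ (O : ValuationSubring Ω) (Δ : Ω), Bdd D Δ O → (∀ b ∈ s, Δ * b ∈ O) →
        x u.1 ≠ 0 → (∀ k, x k / x u.1 ∈ O) → pl x y u.2.1 u.2.2 ≠ 0 →
        (∀ j' l', pl x y j' l' / pl x y u.2.1 u.2.2 ∈ O) → Δ ^ M * z ∈ O := by
    intro u
    by_cases hm : x u.1 = 0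
    · exact ⟨∅, 0, by simp, fun O Δ _ _ h0 _ _ _ => absurd hm h0⟩
    by_cases hp : pl x y u.2.1 u.2.2 = 0
    · exact ⟨∅, 0, by simp, fun O Δ _ _ _ _ h0 _ => absurd hp h0⟩
    exact h u.1 u.2.1 u.2.2 hm hp
  choose s M hs hM using h'
  obtain ⟨j0, l0, hjl⟩ := hy
  refine rat_max hB x 0 hx (Finset.univ.biUnion s) ?_ z (∑ u, M u) ?_
  · intro b hb
    obtain ⟨u, -, hu⟩ := Finset.mem_biUnion.1 hb
    exact hs u b hu
  · intro O Δ hΔ hsO m hm hmax
    obtain ⟨⟨j, l⟩, hp, hpl⟩ := Pool.Agent.Helper74.LG.exists_max_coord O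
      (fun u : Fin (N + 1) × Fin (N + 1) => pl x y u.1 u.2) (j0, l0) hjl
    have h1 := hM (m, j, l) O Δ hΔ
      (fun b hb => hsO b (Finset.mem_biUnion.2 ⟨(m, j, l), Finset.mem_univ _, hb⟩)) hm hmax hp
      (fun j' l' => hpl (j', l'))
    have h2 : ∑ u, M u = (∑ u ∈ Finset.univ.erase (m, j, l), M u) + M (m, j, l) :=
      (Finset.sum_erase_add _ _ (Finset.mem_univ (m, j, l))).symm
    rw [h2, pow_add, mul_assoc]
    exact O.mul_mem _ _ (Bd_pow_mem hΔ _) h1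

end

end Pool.Agent.Helper64.CJ
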