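import Pool.Agent.Helper10.CI.Pl

/-!
# CJ-SWAP: exchanging two pairs of rows

An even permutation: `exists_alt` and twice `AlternatingMap.map_swap` (rows `0, 2` and rows `1, 3`).
-/

set_option autoImplicit false

namespace Pool.Agent.Helper64.CJ

open scoped BigOperators
open MvPolynomial
open Pool.Agent.Helper8.LG (Bdd form mon Ix)
open Pool.Agent.Helper49.LN (cP mo hf pl)
open Pool.Agent.Helper6.QS (dv ev lf dt Par RatP)
open Pool.Agent.Helper10.CI

section

variable {Ω : Type*} [Field Ω] [CharZero Ω] {N r n p q : ℕ} {d : Fin r → ℕ}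
  {D : Ix (Fin (N + 1)) d → Derivation ℤ Ω Ω} {a : Ix (Fin (N + 1)) d → Ω} {B : Subfield Ω}

theorem swap4 (e : Kx (p + 2 + 2) r ≃ Fin (N + 1)) (D : Ix (Fin (N + 1)) d → Derivation ℤ Ω Ω)
    (x u v u' v' : Fin (N + 1) → Ω) (rest : Fin p → Fin (N + 1) → Ω) :
    AA e D x (two u v (two u' v' rest)) = AA e D x (two u' v' (two u v rest)) := by
  obtain ⟨A, hA, -⟩ := exists_alt e x (tau D x)
  have hA' : ∀ w, AA e D x w = A w := fun w => (hA w).symm
  rw [hA', hA']
  have n01 : (Fin.succ 0 : Fin (p + 2 + 2)) ≠ 0 := Fin.succ_ne_zero _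
  have n02 : (0 : Fin (p + 2 + 2)) ≠ Fin.succ (Fin.succ 0) := (Fin.succ_ne_zero _).symm
  have n13 : (Fin.succ 0 : Fin (p + 2 + 2)) ≠ Fin.succ (Fin.succ (Fin.succ 0)) := fun h =>
    Fin.succ_ne_zero _ (Fin.succ_injective _ h).symm
  have n03 : (0 : Fin (p + 2 + 2)) ≠ Fin.succ (Fin.succ (Fin.succ 0)) :=
    (Fin.succ_ne_zero _).symm
  have n12 : (Fin.succ 0 : Fin (p + 2 + 2)) ≠ Fin.succ (Fin.succ 0) := fun h =>
    Fin.succ_ne_zero _ (Fin.succ_injective _ h).symm
  have n23 : (Fin.succ (Fin.succ 0) : Fin (p + 2 + 2)) ≠ Fin.succ (Fin.succ (Fin.succ 0)) :=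
    fun h => Fin.succ_ne_zero _ (Fin.succ_injective _ (Fin.succ_injective _ h)).symm
  have h1 := A.map_swap (two u v (two u' v' rest)) n02
  have h2 := A.map_swap
    (two u v (two u' v' rest) ∘ Equiv.swap (0 : Fin (p + 2 + 2)) (Fin.succ (Fin.succ 0))) n13
  rw [h1, neg_neg] at h2
  rw [← h2]
  congr 1
  funext k
  simp only [Function.comp_apply]
  refine Fin.cases ?_ (fun k => ?_) k
  · rw [Equiv.swap_apply_of_ne_of_ne n01.symm n03, Equiv.swap_apply_left]
    rfl
  refine Fin.cases ?_ (fun k => ?_) k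
  · rw [Equiv.swap_apply_left, Equiv.swap_apply_of_ne_of_ne n03.symm n23.symm]
    rfl
  refine Fin.cases ?_ (fun k => ?_) k
  · rw [Equiv.swap_apply_of_ne_of_ne n12.symm n23, Equiv.swap_apply_right]
    rfl
  refine Fin.cases ?_ (fun k => ?_) k
  · rw [Equiv.swap_apply_right, Equiv.swap_apply_of_ne_of_ne n01 n12]
    rfl
  · rw [Equiv.swap_apply_of_ne_of_ne (a := (Fin.succ 0 : Fin (p + 2 + 2))) ?_ ?_,
      Equiv.swap_apply_of_ne_of_ne ?_ ?_]
    · rfl
    · exact Fin.succ_ne_zero _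
    · intro h
      exact Fin.succ_ne_zero _ (Fin.succ_injective _ (Fin.succ_injective _ h))
    · intro h
      exact Fin.succ_ne_zero _ (Fin.succ_injective _ h)
    · intro h
      exact Fin.succ_ne_zero _ (Fin.succ_injective _ (Fin.succ_injective _
        (Fin.succ_injective _ h)))


end

end Pool.Agent.Helper64.CJ
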