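import Pool.Agent.Helper64.CJ.BlkAt
import Pool.Agent.Helper64.CJ.Swap

/-!
# CJ-BLK2: two blocks

`aa_at` for the rows `s_k, s_l, t_k', t_l', rest` (`s` from `P`, `t` from `Q`, weights `2, 2, 2, 2, w`), `swap4`,
`blk_at` for `Q` (rest `s_k, s_l, rest`), `swap4`, `blk_at` for `P` (rest `Sv Q k', Sv Q l', rest`); the constant is
`c = x_m^(∑ d) / x_m^(∑ w + 8 + 1 + r)`, then `c x_m`, then `c x_m x_m`.
-/

set_option autoImplicit false

namespace Pool.Agent.Helper64.CJ

open scoped BigOperators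
open MvPolynomial
open Pool.Agent.Helper8.LG (Bdd form mon Ix)
open Pool.Agent.Helper49.LN (cP mo hf pl)
open Pool.Agent.Helper6.QS (dv ev lf dt Par RatP)
open Pool.Agent.Helper10.CI

section

variable {Ω : Type*} [Field Ω] [CharZero Ω] {N r n p q : ℕ} {d : Fin r → ℕ}
  {D : Ix (Fin (N + 1)) d → Derivation ℤ Ω Ω} {a : Ix (Fin (N + 1)) d → Ω} {B : Subfield Ω}

/-- two blocks -/
theorem blk2_at (hB : Frame D a B) (hn : p + 2 + 2 + r = N) (hd : ∀ i, 1 ≤ d i)
    (x : Fin (N + 1) → Ω) (hx : x 0 = 1)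
    (hF : ∀ i, form (fun J => a ⟨i, J⟩) x = 0) (e : Kx (p + 2 + 2) r ≃ Fin (N + 1))
    (P : Fin r → MvPolynomial (Fin (N + 1)) Ω) (hP : RatT B P) (k l : Fin (N + 1))
    (Q : Fin r → MvPolynomial (Fin (N + 1)) Ω) (hQ : RatT B Q) (k' l' : Fin (N + 1))
    (rest : Fin p → Fin (N + 1) → Ω) (w : Fin p → ℕ) (hT : ∀ j, rest j ∈ TT a x)
    (hw : ∀ j, Wt D B x (w j) (rest j)) (m : Fin (N + 1)) (hm : x m ≠ 0) :
    BddAt D B x m (AA e D x (two (Sv D x P k) (Sv D x P l) (two (Sv D x Q k') (Sv D x Q l') rest)) *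
      x m ^ (∑ i, d i) / x m ^ (∑ j, w j + 7 + r)) := by
  have hD : ∀ s t : Ix (Fin (N + 1)) d, D t (a s) = if s = t then 1 else 0 := hB.dual
  have h0 : ∀ k l k' l' : Fin (N + 1), BddAt D B x m
      (AA e D x (two (dvC D x (fun i => hf x m k * P i)) (dvC D x (fun i => hf x m l * P i))
        (two (dvC D x (fun i => hf x m k' * Q i)) (dvC D x (fun i => hf x m l' * Q i)) rest)) *
        (x m ^ (∑ i, d i) / x m ^ (∑ j, w j + 8 + 1 + r))) := by
    intro k l k' l'
    have h := aa_at hB hn x hx hF e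
      (two (dvC D x (fun i => hf x m k * P i)) (dvC D x (fun i => hf x m l * P i))
        (two (dvC D x (fun i => hf x m k' * Q i)) (dvC D x (fun i => hf x m l' * Q i)) rest))
      (Fin.cons 2 (Fin.cons 2 (Fin.cons 2 (Fin.cons 2 w))) : Fin (p + 2 + 2) → ℕ) ?_ ?_ m hm
    · have h2 : ∑ j, (Fin.cons 2 (Fin.cons 2 (Fin.cons 2 (Fin.cons 2 w))) :
          Fin (p + 2 + 2) → ℕ) j = ∑ j, w j + 8 := by
        rw [Fin.sum_univ_succ, Fin.sum_univ_succ, Fin.sum_univ_succ, Fin.sum_univ_succ]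
        simp only [Fin.cons_zero, Fin.cons_succ]
        omega
      rw [h2, mul_div_assoc] at h
      exact h
    · intro j
      refine Fin.cases ?_ (fun j => Fin.cases ?_ (fun j => Fin.cases ?_ (fun j =>
        Fin.cases ?_ (fun j => ?_) j) j) j) j
      · exact hf_TT hD x hF hd P m k
      · exact hf_TT hD x hF hd P m l
      · exact hf_TT hD x hF hd Q m k'
      · exact hf_TT hD x hF hd Q m l'
      · exact hT j
    · intro j
      refine Fin.cases ?_ (fun j => Fin.cases ?_ (fun j => Fin.cases ?_ (fun j =>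
        Fin.cases ?_ (fun j => ?_) j) j) j) j
      · exact wt_hf x P hP m k
      · exact wt_hf x P hP m l
      · exact wt_hf x Q hQ m k'
      · exact wt_hf x Q hQ m l'
      · exact hw j
  have h1 : ∀ k l : Fin (N + 1), BddAt D B x m
      (AA e D x (two (dvC D x (fun i => hf x m k * P i)) (dvC D x (fun i => hf x m l * P i))
        (two (Sv D x Q k') (Sv D x Q l') rest)) *
        (x m ^ (∑ i, d i) / x m ^ (∑ j, w j + 8 + 1 + r) * x m)) := by
    intro k l
    rw [swap4]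
    refine blk_at x hx e Q _ m hm _ (fun k' l' => ?_) k' l'
    rw [swap4]
    exact h0 k l k' l'
  have h2 := blk_at x hx e P _ m hm _ h1 k l
  have h3 : x m ^ (∑ i, d i) / x m ^ (∑ j, w j + 8 + 1 + r) * x m * x m =
      x m ^ (∑ i, d i) / x m ^ (∑ j, w j + 7 + r) := by
    have e1 : ∑ j, w j + 8 + 1 + r = (∑ j, w j + 7 + r) + 1 + 1 := by omega
    rw [e1, pow_succ, pow_succ]
    have h4 : x m ^ (∑ j, w j + 7 + r) ≠ 0 := pow_ne_zero _ hm
    field_simp
  rw [h3] at h2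
  rw [mul_div_assoc]
  exact h2

end

end Pool.Agent.Helper64.CJ
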