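import Pool.Agent.Helper64.CJ.Pl
import Pool.Agent.Helper10.CI.W1

/-!
# CJ-CASEW: two independent tangent vectors of weight one

`tan_ext` (`p = 2`, `q = n - 2 >= 1`) completes them by single vectors; `pl_one2` with the weights
`1, 1, 2, ..`: `2 + 2 (n - 3) + 3 + r = 2 n - 1 + r = ∑ d_i`.
-/

set_option autoImplicit false

namespace Pool.Agent.Helper64.CJ

open scoped BigOperators
open MvPolynomial
open Pool.Agent.Helper8.LG (Bdd form mon Ix)
open Pool.Agent.Helper49.LN (cP mo hf pl)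
open Pool.Agent.Helper6.QS (dv ev lf dt Par RatP)
open Pool.Agent.Helper10.CI

section

variable {Ω : Type*} [Field Ω] [CharZero Ω] {N r n : ℕ} {d : Fin r → ℕ}
  {D : Ix (Fin (N + 1)) d → Derivation ℤ Ω Ω} {a : Ix (Fin (N + 1)) d → Ω} {B : Subfield Ω}

theorem CaseW_dsum (hnum : ∑ i, (d i + 1) + 1 = 2 * N) : ∑ i, d i + r + 1 = 2 * N := by
  rw [← hnum, Finset.sum_add_distrib]
  simp

theorem case_w (hB : Frame D a B) (hn : n + r = N) (hn3 : 3 ≤ n) (hd : ∀ i, 1 ≤ d i)
    (hnum : ∑ i, (d i + 1) + 1 = 2 * N) (x : Fin (N + 1) → Ω) (hx : x 0 = 1)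
    (hF : ∀ i, form (fun J => a ⟨i, J⟩) x = 0)
    (ho : TT a x ≤ Submodule.span Ω (insert x (SS D B x)))
    (u v : Fin (N + 1) → Ω) (hu : u ∈ TT a x) (hv : v ∈ TT a x)
    (hu1 : Wt D B x 1 u) (hv1 : Wt D B x 1 v)
    (hli : LinearIndependent Ω ![x, u, v]) : ∀ l, x l ∈ B := by
  obtain ⟨m, rfl⟩ : ∃ m, n = m + 3 := ⟨n - 3, by omega⟩
  have hST : SS D B x ⊆ TT a x := by
    rintro _ ⟨l, P, -, rfl⟩
    exact sv_TT hB.dual x hx hF hd P l
  have hT2 : ∀ j, (![u, v] : Fin 2 → Fin (N + 1) → Ω) j ∈ TT a x := by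
    intro j
    fin_cases j
    · exact hu
    · exact hv
  have hW2 : ∀ j, Wt D B x 1 ((![u, v] : Fin 2 → Fin (N + 1) → Ω) j) := by
    intro j
    fin_cases j
    · exact hu1
    · exact hv1
  obtain ⟨s, hs, hl⟩ := tan_ext (p := 2) (q := m + 1) hB.dual (by omega) x hx hF (SS D B x) hST ho
    ![u, v] hT2 hli
  have hsn : s = Fin.snoc (Fin.init s) (s (Fin.last m)) := (Fin.snoc_init_self s).symm
  have hli2 : LinearIndependent Ω (Fin.cons x (Fin.snoc
      (Fin.append ![u, v] (Fin.init s) : Fin (2 + m) → Fin (N + 1) → Ω)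
        (s (Fin.last m))) : Fin (2 + m + 1 + 1) → Fin (N + 1) → Ω) := by
    rw [hsn, Fin.append_snoc] at hl
    simpa using hl
  have hd2 := CaseW_dsum (N := N) hnum
  refine pl_one2 hB (by omega) hd hnum x hx hF
    (Fin.append ![u, v] (Fin.init s)) (Fin.append (fun _ : Fin 2 => 1) (fun _ => 2))
    ?_ ?_ ?_ (s (Fin.last m)) (hs _) hli2
  · intro j
    refine Fin.addCases (fun i => ?_) (fun i => ?_) j
    · rw [Fin.append_left]
      exact hT2 i
    · rw [Fin.append_right]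
      exact hST (hs _)
  · intro j
    refine Fin.addCases (fun i => ?_) (fun i => ?_) j
    · rw [Fin.append_left, Fin.append_left]
      exact hW2 i
    · rw [Fin.append_right, Fin.append_right]
      exact ss_wt x hx _ (hs _)
  · rw [Fin.sum_univ_add]
    simp only [Fin.append_left, Fin.append_right, Finset.sum_const, Finset.card_univ,
      Fintype.card_fin, smul_eq_mul]
    omega

end

end Pool.Agent.Helper64.CJ
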