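import Pool.Agent.Helper10.CI.LineData

/-!
# CJ-TPB: a second block plane

Let `U = span (x, S_k, S_l)` (`S = Sv D x P`) and suppose that all rational blocks which are independent
modulo `x` lie in `U` (`hall`). Then all `S_m ∈ U` (otherwise the block `(k, m)` is independent). By `ho`
and dimensions (`n + 1 >= 4`) there are a rational `Q` and `l'` with `Sv D x Q l' ∉ U`; by `hall` (block `(l', m)`
of `Q`) `Sv D x Q m ∈ span (x, Sv D x Q l')` for all `m`. `P + Q`: `Sv (P + Q) l' ∉ U`, so in the same way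
`Sv (P + Q) m ∈ span (x, Sv (P + Q) l')`. Modulo `U` the coefficients agree, so `S_m` is modulo `x` the multiple
`λ_m S_l'` for all `m`: a contradiction to `hli`.
-/

set_option autoImplicit false

namespace Pool.Agent.Helper64.CJ

open scoped BigOperators
open MvPolynomial
open Pool.Agent.Helper8.LG (Bdd form mon Ix)
open Pool.Agent.Helper49.LN (cP mo hf pl)
open Pool.Agent.Helper6.QS (dv ev lf dt Par RatP)
open Pool.Agent.Helper10.CI

section

variable {Ω : Type*} [Field Ω] [CharZero Ω] {N r n p q : ℕ} {d : Fin r → ℕ}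
  {D : Ix (Fin (N + 1)) d → Derivation ℤ Ω Ω} {a : Ix (Fin (N + 1)) d → Ω} {B : Subfield Ω}

omit [CharZero Ω] in
theorem TpB_2 (x u : Fin (N + 1) → Ω) : LinearIndependent Ω ![x, u] ↔
    LinearIndependent Ω ![x] ∧
      u ∉ Submodule.span Ω (Set.range (![x] : Fin 1 → Fin (N + 1) → Ω)) := by
  have h : (![x, u] : Fin 2 → Fin (N + 1) → Ω) =
      (Fin.snoc (![x] : Fin 1 → Fin (N + 1) → Ω) u : Fin 2 → Fin (N + 1) → Ω) := by
    funext i
    refine Fin.lastCases ?_ (fun i => ?_) i
    · rw [Fin.snoc_last]; rfl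
    · rw [Fin.snoc_castSucc]
      fin_cases i; rfl
  rw [h]
  exact linearIndependent_finSnoc

omit [CharZero Ω] in
theorem TpB_3 (x u v : Fin (N + 1) → Ω) : LinearIndependent Ω ![x, u, v] ↔
    LinearIndependent Ω ![x, u] ∧
      v ∉ Submodule.span Ω (Set.range (![x, u] : Fin 2 → Fin (N + 1) → Ω)) := by
  have h : (![x, u, v] : Fin 3 → Fin (N + 1) → Ω) =
      (Fin.snoc (![x, u] : Fin 2 → Fin (N + 1) → Ω) v : Fin 3 → Fin (N + 1) → Ω) := by
    funext i
    refine Fin.lastCases ?_ (fun i => ?_) i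
    · rw [Fin.snoc_last]; rfl
    · rw [Fin.snoc_castSucc]
      fin_cases i <;> rfl
  rw [h]
  exact linearIndependent_finSnoc

omit [CharZero Ω] in
theorem TpB_add (D : Ix (Fin (N + 1)) d → Derivation ℤ Ω Ω) (x : Fin (N + 1) → Ω)
    (P Q : Fin r → MvPolynomial (Fin (N + 1)) Ω) (l : Fin (N + 1)) :
    Sv D x (P + Q) l = Sv D x P l + Sv D x Q l := by
  unfold Sv
  rw [← map_add]
  congr 1
  funext i
  rw [Pi.add_apply, Pi.add_apply, mul_add]

omit [CharZero Ω] in
theorem TpB_rat {P Q : Fin r → MvPolynomial (Fin (N + 1)) Ω} (hP : RatT B P) (hQ : RatT B Q) :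
    RatT B (P + Q) := by
  intro i m
  rw [Pi.add_apply, coeff_add]
  exact B.add_mem (hP i m) (hQ i m)

omit [CharZero Ω] in
theorem TpB_pair (x u z : Fin (N + 1) → Ω)
    (h : z ∈ Submodule.span Ω (Set.range (![x, u] : Fin 2 → Fin (N + 1) → Ω))) :
    ∃ α μ : Ω, z = α • x + μ • u := by
  have hr : Set.range (![x, u] : Fin 2 → Fin (N + 1) → Ω) = {x, u} := by
    ext w
    simp [eq_comm, or_comm]
  rw [hr, Submodule.mem_span_pair] at h
  obtain ⟨α, μ, h⟩ := h
  exact ⟨α, μ, h.symm⟩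

theorem tp_second (hD : ∀ s t : Ix (Fin (N + 1)) d, D t (a s) = if s = t then 1 else 0)
    (hn : n + r = N) (hn3 : 3 ≤ n) (x : Fin (N + 1) → Ω) (hx : x 0 = 1)
    (hF : ∀ i, form (fun J => a ⟨i, J⟩) x = 0)
    (ho : TT a x ≤ Submodule.span Ω (insert x (SS D B x)))
    (P : Fin r → MvPolynomial (Fin (N + 1)) Ω) (hP : RatT B P) (k l : Fin (N + 1))
    (hli : LinearIndependent Ω ![x, Sv D x P k, Sv D x P l]) :
    ∃ (Q : Fin r → MvPolynomial (Fin (N + 1)) Ω) (k' l' : Fin (N + 1)), RatT B Q ∧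
      LinearIndependent Ω ![x, Sv D x Q k', Sv D x Q l'] ∧
      ¬ (Sv D x Q k' ∈ Submodule.span Ω (insert x (Set.range ![Sv D x P k, Sv D x P l])) ∧
        Sv D x Q l' ∈ Submodule.span Ω (insert x (Set.range ![Sv D x P k, Sv D x P l]))) := by
  by_contra hcon
  push Not at hcon
  obtain ⟨U, hU⟩ : ∃ U : Submodule Ω (Fin (N + 1) → Ω), U = Submodule.span Ω
      (insert x (Set.range (![Sv D x P k, Sv D x P l] : Fin 2 → Fin (N + 1) → Ω))) := ⟨_, rfl⟩
  rw [← hU] at hcon
  have hxU : x ∈ U := by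
    rw [hU]
    exact Submodule.subset_span (Set.mem_insert _ _)
  have hkU : Sv D x P k ∈ U := by
    rw [hU]
    exact Submodule.subset_span (Set.mem_insert_of_mem _ ⟨0, rfl⟩)
  have hlU : Sv D x P l ∈ U := by
    rw [hU]
    exact Submodule.subset_span (Set.mem_insert_of_mem _ ⟨1, rfl⟩)
  obtain ⟨h12, -⟩ := (TpB_3 x _ _).1 hli
  obtain ⟨h11, -⟩ := (TpB_2 x _).1 h12
  have hs1 : Submodule.span Ω (Set.range (![x] : Fin 1 → Fin (N + 1) → Ω)) ≤ U := by
    rw [Submodule.span_le]
    rintro _ ⟨i, rfl⟩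
    fin_cases i
    exact hxU
  have hs2 : Submodule.span Ω
      (Set.range (![x, Sv D x P k] : Fin 2 → Fin (N + 1) → Ω)) ≤ U := by
    rw [Submodule.span_le]
    rintro _ ⟨i, rfl⟩
    fin_cases i
    · exact hxU
    · exact hkU
  have hUr : U ≤ Submodule.span Ω
      (Set.range (![x, Sv D x P k, Sv D x P l] : Fin 3 → Fin (N + 1) → Ω)) := by
    rw [hU, Submodule.span_le]
    rintro v (rfl | ⟨i, rfl⟩)
    · exact Submodule.subset_span ⟨0, rfl⟩
    · fin_cases i
      · exact Submodule.subset_span ⟨1, rfl⟩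
      · exact Submodule.subset_span ⟨2, rfl⟩
  -- all vectors of `P` are in `U`
  have c1 : ∀ m, Sv D x P m ∈ U := by
    intro m
    by_contra h
    have h3 : LinearIndependent Ω ![x, Sv D x P k, Sv D x P m] :=
      (TpB_3 x _ _).2 ⟨h12, fun h' => h (hs2 h')⟩
    exact h (hcon P k m hP h3).2
  -- some vector is outside `U`
  have c2 : ∃ (Q : Fin r → MvPolynomial (Fin (N + 1)) Ω) (l' : Fin (N + 1)),
      RatT B Q ∧ Sv D x Q l' ∉ U := by
    by_contra hc
    push Not at hc
    have h1 : TT a x ≤ U := by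
      refine ho.trans (Submodule.span_le.2 ?_)
      rintro v (rfl | ⟨l', Q, hQ, rfl⟩)
      · exact hxU
      · exact hc Q l' hQ
    have h2 := Submodule.finrank_mono (h1.trans hUr)
    rw [finrank_TT hD hn x hx hF] at h2
    have h3 := finrank_range_le_card (R := Ω)
      (![x, Sv D x P k, Sv D x P l] : Fin 3 → Fin (N + 1) → Ω)
    rw [Fintype.card_fin] at h3
    unfold Set.finrank at h3
    omega
  -- the vectors of such a `Q` are on a line
  have c3 : ∀ (R : Fin r → MvPolynomial (Fin (N + 1)) Ω) (i : Fin (N + 1)), RatT B R →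
      Sv D x R i ∉ U → ∀ m, ∃ α μ : Ω, Sv D x R m = α • x + μ • Sv D x R i := by
    intro R i hR hi m
    apply TpB_pair
    by_contra h
    have h3 : LinearIndependent Ω ![x, Sv D x R i, Sv D x R m] :=
      (TpB_3 x _ _).2 ⟨(TpB_2 x _).2 ⟨h11, fun h' => hi (hs1 h')⟩, h⟩
    exact hi (hcon R i m hR h3).1
  obtain ⟨Q, l', hQ, hl'⟩ := c2
  have hPQ : Sv D x (P + Q) l' ∉ U := by
    intro h
    rw [TpB_add] at h
    exact hl' ((Submodule.add_mem_iff_right U (c1 l')).1 h)
  have c4 : ∀ m, Sv D x P m ∈ Submodule.span Ω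
      (Set.range (![x, Sv D x P l'] : Fin 2 → Fin (N + 1) → Ω)) := by
    intro m
    obtain ⟨α, μ, h1⟩ := c3 Q l' hQ hl' m
    obtain ⟨β, ν, h2⟩ := c3 (P + Q) l' (TpB_rat hP hQ) hPQ m
    rw [TpB_add, TpB_add, h1] at h2
    have h3 : (ν - μ) • Sv D x Q l' = Sv D x P m - ν • Sv D x P l' + (α - β) • x := by
      rw [sub_smul, sub_smul]
      rw [smul_add] at h2
      have h4 : Sv D x P m = β • x + (ν • Sv D x P l' + ν • Sv D x Q l') -
          (α • x + μ • Sv D x Q l') := by
        rw [← h2]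
        abel
      rw [h4]
      abel
    have h5 : ν - μ = 0 := by
      by_contra hne
      apply hl'
      have h6 : (ν - μ) • Sv D x Q l' ∈ U := by
        rw [h3]
        exact U.add_mem (U.sub_mem (c1 m) (U.smul_mem _ (c1 l'))) (U.smul_mem _ hxU)
      exact (Submodule.smul_mem_iff U hne).1 h6
    rw [h5, zero_smul] at h3
    have h7 : Sv D x P m = ν • Sv D x P l' + (-(α - β)) • x := by
      rw [neg_smul]
      have h8 : Sv D x P m - ν • Sv D x P l' + (α - β) • x - (α - β) • x + ν • Sv D x P l' =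
          Sv D x P m := by abel
      rw [← h3] at h8
      rw [← h8]
      abel
    rw [h7]
    exact Submodule.add_mem _ (Submodule.smul_mem _ _ (Submodule.subset_span ⟨1, rfl⟩))
      (Submodule.smul_mem _ _ (Submodule.subset_span ⟨0, rfl⟩))
  -- contradiction with the independence of `x`, `S_k`, `S_l`
  have h9 : Submodule.span Ω
      (Set.range (![x, Sv D x P k, Sv D x P l] : Fin 3 → Fin (N + 1) → Ω)) ≤
      Submodule.span Ω (Set.range (![x, Sv D x P l'] : Fin 2 → Fin (N + 1) → Ω)) := by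
    rw [Submodule.span_le]
    rintro _ ⟨i, rfl⟩
    fin_cases i
    · exact Submodule.subset_span ⟨0, rfl⟩
    · exact c4 k
    · exact c4 l
  have h10 := Submodule.finrank_mono h9
  rw [finrank_span_eq_card hli, Fintype.card_fin] at h10
  have h11' := finrank_range_le_card (R := Ω) (![x, Sv D x P l'] : Fin 2 → Fin (N + 1) → Ω)
  rw [Fintype.card_fin] at h11'
  unfold Set.finrank at h11'
  omega

end

end Pool.Agent.Helper64.CJ
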