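import Pool.Agent.Helper10.CI.LineData

/-!
# CJ-TPC: the two lines agree

If `y` and `y'` are not proportional there are `η, η'` with `η·y = 0`, `η·y' = 1`, `η'·y = 1`, `η'·y' = 0`. For
`e_l = (e_l - y_l η') + y_l η'` and `S(ζ) = ∑ ζ_m Sv D x P m`: `S(ζ) - (ζ·y) Sv D x P β ∈ U`, `S(ζ) - (ζ·y') Sv D x P β' ∈ U'`,
so all `Sv D x P l ∈ U + U'`, of dimension `<= 5 < n + 1` (`ho`, `finrank_TT`): a contradiction. So `y' = c y`,
`c ≠ 0`, and `H'` for `l` and for `β` give `Sv D x P l - y_l Sv D x P β ∈ U'`.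
-/

set_option autoImplicit false

namespace Pool.Agent.Helper64.CJ

open scoped BigOperators
open MvPolynomial
open Pool.Agent.Helper8.LG (Bdd form mon Ix)
open Pool.Agent.Helper49.LN (cP mo hf pl)
open Pool.Agent.Helper6.QS (dv ev lf dt Par RatP)
open Pool.Agent.Helper10.CI

section

variable {Ω : Type*} [Field Ω] [CharZero Ω] {N r n p q : ℕ} {d : Fin r → ℕ}
  {D : Ix (Fin (N + 1)) d → Derivation ℤ Ω Ω} {a : Ix (Fin (N + 1)) d → Ω} {B : Subfield Ω}

theorem tp_line (hD : ∀ s t : Ix (Fin (N + 1)) d, D t (a s) = if s = t then 1 else 0)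
    (hn : n + r = N) (hn5 : 5 ≤ n) (x : Fin (N + 1) → Ω) (hx : x 0 = 1)
    (hF : ∀ i, form (fun J => a ⟨i, J⟩) x = 0)
    (ho : TT a x ≤ Submodule.span Ω (insert x (SS D B x)))
    (u u' : Fin 2 → Fin (N + 1) → Ω) (y y' : Fin (N + 1) → Ω) (β β' : Fin (N + 1))
    (hβ : y β = 1) (hβ' : y' β' = 1)
    (H : ∀ (l : Fin (N + 1)) (P : Fin r → MvPolynomial (Fin (N + 1)) Ω),
        Sv D x P l - y l • Sv D x P β ∈ Submodule.span Ω (insert x (Set.range u)))
    (H' : ∀ (l : Fin (N + 1)) (P : Fin r → MvPolynomial (Fin (N + 1)) Ω),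
        Sv D x P l - y' l • Sv D x P β' ∈ Submodule.span Ω (insert x (Set.range u')))
    (l : Fin (N + 1)) (P : Fin r → MvPolynomial (Fin (N + 1)) Ω) :
    Sv D x P l - y l • Sv D x P β ∈ Submodule.span Ω (insert x (Set.range u')) := by
  classical
  -- `y` and `y'` are proportional
  have hprop : ∀ l₁ l₂ : Fin (N + 1), y l₁ * y' l₂ = y l₂ * y' l₁ := by
    by_contra hcon
    push Not at hcon
    obtain ⟨l₁, l₂, hne⟩ := hcon
    obtain ⟨Z, hZ⟩ : ∃ Z : Submodule Ω (Fin (N + 1) → Ω), Z = Submodule.span Ω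
        (Set.range (![x, u 0, u 1, u' 0, u' 1] : Fin 5 → Fin (N + 1) → Ω)) := ⟨_, rfl⟩
    have hxZ : x ∈ Z := by
      rw [hZ]
      exact Submodule.subset_span ⟨0, rfl⟩
    have hUZ : Submodule.span Ω (insert x (Set.range u)) ≤ Z := by
      rw [Submodule.span_le]
      rintro v (rfl | ⟨j, rfl⟩)
      · exact hxZ
      · rw [hZ]
        fin_cases j
        · exact Submodule.subset_span ⟨1, rfl⟩
        · exact Submodule.subset_span ⟨2, rfl⟩
    have hUZ' : Submodule.span Ω (insert x (Set.range u')) ≤ Z := by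
      rw [Submodule.span_le]
      rintro v (rfl | ⟨j, rfl⟩)
      · exact hxZ
      · rw [hZ]
        fin_cases j
        · exact Submodule.subset_span ⟨3, rfl⟩
        · exact Submodule.subset_span ⟨4, rfl⟩
    have hS : ∀ (m : Fin (N + 1)) (Q : Fin r → MvPolynomial (Fin (N + 1)) Ω), Sv D x Q m ∈ Z := by
      intro m Q
      have e1 : ∀ i j : Fin (N + 1), y j • Sv D x Q i - y i • Sv D x Q j ∈ Z := by
        intro i j
        have h1 := Z.smul_mem (y j) (hUZ (H i Q))
        have h2 := Z.smul_mem (y i) (hUZ (H j Q))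
        have h3 : y j • Sv D x Q i - y i • Sv D x Q j =
            y j • (Sv D x Q i - y i • Sv D x Q β) - y i • (Sv D x Q j - y j • Sv D x Q β) := by
          rw [smul_sub, smul_sub, smul_smul, smul_smul, mul_comm (y j) (y i)]
          abel
        rw [h3]
        exact Z.sub_mem h1 h2
      have e2 : ∀ i j : Fin (N + 1), y' j • Sv D x Q i - y' i • Sv D x Q j ∈ Z := by
        intro i j
        have h1 := Z.smul_mem (y' j) (hUZ' (H' i Q))
        have h2 := Z.smul_mem (y' i) (hUZ' (H' j Q))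
        have h3 : y' j • Sv D x Q i - y' i • Sv D x Q j =
            y' j • (Sv D x Q i - y' i • Sv D x Q β') -
              y' i • (Sv D x Q j - y' j • Sv D x Q β') := by
          rw [smul_sub, smul_sub, smul_smul, smul_smul, mul_comm (y' j) (y' i)]
          abel
        rw [h3]
        exact Z.sub_mem h1 h2
      have hdet : y l₂ * y' l₁ - y l₁ * y' l₂ ≠ 0 := fun h0 => hne (sub_eq_zero.1 h0).symm
      have e3 : Sv D x Q l₁ ∈ Z := by
        have h1 := Z.sub_mem (Z.smul_mem (y' l₁) (e1 l₁ l₂)) (Z.smul_mem (y l₁) (e2 l₁ l₂))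
        have h2 : y' l₁ • (y l₂ • Sv D x Q l₁ - y l₁ • Sv D x Q l₂) -
            y l₁ • (y' l₂ • Sv D x Q l₁ - y' l₁ • Sv D x Q l₂) =
            (y l₂ * y' l₁ - y l₁ * y' l₂) • Sv D x Q l₁ := by
          rw [smul_sub, smul_sub, smul_smul, smul_smul, smul_smul, smul_smul, sub_smul,
            mul_comm (y' l₁) (y l₂), mul_comm (y' l₁) (y l₁)]
          abel
        rw [h2] at h1
        exact (Z.smul_mem_iff hdet).1 h1
      have e4 : Sv D x Q l₂ ∈ Z := by
        have h1 := Z.sub_mem (Z.smul_mem (y' l₂) (e1 l₁ l₂)) (Z.smul_mem (y l₂) (e2 l₁ l₂))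
        have h2 : y' l₂ • (y l₂ • Sv D x Q l₁ - y l₁ • Sv D x Q l₂) -
            y l₂ • (y' l₂ • Sv D x Q l₁ - y' l₁ • Sv D x Q l₂) =
            (y l₂ * y' l₁ - y l₁ * y' l₂) • Sv D x Q l₂ := by
          rw [smul_sub, smul_sub, smul_smul, smul_smul, smul_smul, smul_smul, sub_smul,
            mul_comm (y' l₂) (y l₂), mul_comm (y' l₂) (y l₁)]
          abel
        rw [h2] at h1
        exact (Z.smul_mem_iff hdet).1 h1
      have e5 : ∃ j : Fin (N + 1), y j ≠ 0 ∧ Sv D x Q j ∈ Z := by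
        by_cases h1 : y l₁ = 0
        · refine ⟨l₂, fun h2 => hne ?_, e4⟩
          rw [h1, h2, zero_mul, zero_mul]
        · exact ⟨l₁, h1, e3⟩
      obtain ⟨j, hj, hjZ⟩ := e5
      have h1 := Z.add_mem (e1 m j) (Z.smul_mem (y m) hjZ)
      rw [sub_add_cancel] at h1
      exact (Z.smul_mem_iff hj).1 h1
    have hTT : TT a x ≤ Z := by
      refine ho.trans (Submodule.span_le.2 ?_)
      rintro v (rfl | ⟨m, Q, -, rfl⟩)
      · exact hxZ
      · exact hS m Q
    have h3 := Submodule.finrank_mono hTT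
    rw [finrank_TT hD hn x hx hF] at h3
    have h4 := finrank_range_le_card (R := Ω)
      (![x, u 0, u 1, u' 0, u' 1] : Fin 5 → Fin (N + 1) → Ω)
    rw [Fintype.card_fin] at h4
    unfold Set.finrank at h4
    rw [← hZ] at h4
    omega
  have h1 : ∀ m, y m = y β' * y' m := by
    intro m
    have h2 := hprop m β'
    rw [hβ', mul_one] at h2
    exact h2
  have h2 : y β' * y' β = 1 := by rw [← h1 β, hβ]
  have h3 : Sv D x P l - y l • Sv D x P β = (Sv D x P l - y' l • Sv D x P β') -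
      y l • (Sv D x P β - y' β • Sv D x P β') := by
    have h4 : y l * y' β = y' l := by
      rw [h1 l, mul_right_comm, h2, one_mul]
    rw [smul_sub, smul_smul, h4]
    abel
  rw [h3]
  exact Submodule.sub_mem _ (H' l P) (Submodule.smul_mem _ _ (H' β P))

end

end Pool.Agent.Helper64.CJ
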