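import Pool.Agent.Helper64.CJ.TpA
import Pool.Agent.Helper64.CJ.TpB
import Pool.Agent.Helper64.CJ.TpC
import Pool.Agent.Helper64.CJ.Struct
import Pool.Agent.Helper64.CJ.CaseB
import Pool.Agent.Helper10.CI.Eqv

/-!
# CJ-TWOPL: case B with the intersection of two block planes
-/

set_option autoImplicit false

namespace Pool.Agent.Helper64.CJ

open scoped BigOperators
open MvPolynomial
open Pool.Agent.Helper8.LG (Bdd form mon Ix)
open Pool.Agent.Helper49.LN (cP mo hf pl)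
open Pool.Agent.Helper6.QS (dv ev lf dt Par RatP)
open Pool.Agent.Helper10.CI

section

variable {Ω : Type*} [Field Ω] [CharZero Ω] {N r n p q : ℕ} {d : Fin r → ℕ}
  {D : Ix (Fin (N + 1)) d → Derivation ℤ Ω Ω} {a : Ix (Fin (N + 1)) d → Ω} {B : Subfield Ω}

theorem two_pl (hB : Frame D a B) (hn : n + r = N) (hn5 : 5 ≤ n) (hd : ∀ i, 1 ≤ d i)
    (hnum : ∑ i, (d i + 1) + 1 = 2 * N) (x : Fin (N + 1) → Ω) (hx : x 0 = 1)
    (hF : ∀ i, form (fun J => a ⟨i, J⟩) x = 0)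
    (ho : TT a x ≤ Submodule.span Ω (insert x (SS D B x)))
    (P : Fin r → MvPolynomial (Fin (N + 1)) Ω) (hP : RatT B P) (k l : Fin (N + 1))
    (hli : LinearIndependent Ω ![x, Sv D x P k, Sv D x P l]) :
    (∀ l, x l ∈ B) ∨ ∃ (y w : Fin (N + 1) → Ω) (β : Fin (N + 1)), y 0 = 0 ∧ y β = 1 ∧ w 0 = 0 ∧
      w ∈ TT a x ∧ w ∈ Submodule.span Ω (insert x (Set.range ![Sv D x P k, Sv D x P l])) ∧
      ∀ (l' : Fin (N + 1)) (Q : Fin r → MvPolynomial (Fin (N + 1)) Ω),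
        ∃ c : Ω, pr x (Sv D x Q l') = y l' • pr x (Sv D x Q β) + c • w := by
  by_cases hcon : ∀ l, x l ∈ B
  · exact Or.inl hcon
  right
  obtain ⟨Q, k', l', hQ, hliQ, hne⟩ := tp_second hB.dual hn (by omega) x hx hF ho P hP k l hli
  obtain ⟨y, β, hy, hβ, H⟩ := struct hB.dual hn (by omega) x hx hF ho
    ![Sv D x P k, Sv D x P l] hli
    (fun R hR i j h => hcon (case_b hB hn hn5 hd hnum x hx hF ho P hP k l R hR i j h))
  obtain ⟨y', β', hy', hβ', H'⟩ := struct hB.dual hn (by omega) x hx hF ho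
    ![Sv D x Q k', Sv D x Q l'] hliQ
    (fun R hR i j h => hcon (case_b hB hn hn5 hd hnum x hx hF ho Q hQ k' l' R hR i j h))
  obtain ⟨w, hw0, hwU, hw⟩ := tp_inter x _ _ _ _ hx hli hliQ hne
  refine ⟨y, w, β, hy, hβ, hw0, ?_, hwU, fun m R => ?_⟩
  · have hle : Submodule.span Ω (insert x (Set.range ![Sv D x P k, Sv D x P l])) ≤ TT a x := by
      rw [Submodule.span_le]
      rintro v (rfl | ⟨j, rfl⟩)
      · exact fun i => nu_x v hF i
      · fin_cases j
        · exact sv_TT hB.dual x hx hF hd P k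
        · exact sv_TT hB.dual x hx hF hd P l
    exact hle hwU
  · obtain ⟨c, hc⟩ := hw _ (H m R)
      (tp_line hB.dual hn hn5 x hx hF ho _ _ y y' β β' hβ hβ' H H' m R)
    refine ⟨c, ?_⟩
    rw [← hc]
    funext i
    simp only [pr, Pi.add_apply, Pi.sub_apply, Pi.smul_apply, smul_eq_mul]
    ring

end

end Pool.Agent.Helper64.CJ
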