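import Pool.Agent.Helper64.CJ.Onto
import Pool.Agent.Helper64.CJ.CaseA
import Pool.Agent.Helper64.CJ.CaseB
import Pool.Agent.Helper64.CJ.CaseC
import Pool.Agent.Helper64.CJ.CaseW
import Pool.Agent.Helper64.CJ.Struct
import Pool.Agent.Helper64.CJ.TwoPl
import Pool.Agent.Helper64.CJ.ExpA
import Pool.Agent.Helper64.CJ.ExpB

/-!
# CJ-DATA: the line, the vector `w` and the function `G`
-/

set_option autoImplicit false

namespace Pool.Agent.Helper64.CJ

open scoped BigOperators
open MvPolynomial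
open Pool.Agent.Helper8.LG (Bdd form mon Ix)
open Pool.Agent.Helper49.LN (cP mo hf pl)
open Pool.Agent.Helper6.QS (dv ev lf dt Par RatP)
open Pool.Agent.Helper10.CI

section

variable {Ω : Type*} [Field Ω] [CharZero Ω] {N r n : ℕ} {d : Fin r → ℕ}
  {D : Ix (Fin (N + 1)) d → Derivation ℤ Ω Ω} {a : Ix (Fin (N + 1)) d → Ω} {B : Subfield Ω}

omit [CharZero Ω] in
theorem Data_span (x w v : Fin (N + 1) → Ω) (hx : x 0 = 1)
    (hv : v ∈ Submodule.span Ω (insert x (Set.range ![w]))) : ∃ c : Ω, pr x v = c • pr x w := by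
  induction hv using Submodule.span_induction with
  | mem v hv =>
    rcases hv with rfl | ⟨j, rfl⟩
    · refine ⟨0, ?_⟩
      rw [zero_smul]
      funext l
      simp only [pr, hx, Pi.zero_apply]
      ring
    · fin_cases j
      exact ⟨1, by rw [one_smul]; rfl⟩
  | zero =>
    refine ⟨0, ?_⟩
    rw [zero_smul]
    funext l
    simp [pr]
  | add u v _ _ hu hv =>
    obtain ⟨c, hc⟩ := hu
    obtain ⟨e, he⟩ := hv
    refine ⟨c + e, ?_⟩
    rw [add_smul, ← hc, ← he]
    funext l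
    simp only [pr, Pi.add_apply]
    ring
  | smul b v _ hv =>
    obtain ⟨c, hc⟩ := hv
    refine ⟨b * c, ?_⟩
    rw [mul_smul, ← hc]
    funext l
    simp only [pr, Pi.smul_apply, smul_eq_mul]
    ring

/-- **The data of cases A and B** (case C is impossible). -/
theorem line_w_data (hB : Frame D a B) (hn : n + r = N) (hn5 : 5 ≤ n) (hd : ∀ i, 1 ≤ d i)
    (hnum : ∑ i, (d i + 1) + 1 = 2 * N) (x : Fin (N + 1) → Ω) (hx : x 0 = 1)
    (hF : ∀ i, form (fun J => a ⟨i, J⟩) x = 0) :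
    (∀ l, x l ∈ B) ∨ (TT a x ≤ Submodule.span Ω (insert x (SS D B x)) ∧
      ∃ (y w : Fin (N + 1) → Ω) (β : Fin (N + 1)) (t : ℕ), y 0 = 0 ∧ y β = 1 ∧ w 0 = 0 ∧
        w ∈ TT a x ∧
        (∀ (l : Fin (N + 1)) (P : Fin r → MvPolynomial (Fin (N + 1)) Ω), ∃ c : Ω,
          pr x (Sv D x P l) = y l • pr x (Sv D x P β) + c • w) ∧
        (∀ v ∈ TT a x, Wt D B x 1 v → ∃ c : Ω, pr x v = c • w) ∧ 2 ≤ t ∧ ExpG D B x y t) := by
  rcases onto2 hB hn (by omega) hd hnum x hx hF with h0 | ho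
  · exact Or.inl h0
  by_cases hcon : ∀ l, x l ∈ B
  · exact Or.inl hcon
  refine Or.inr ⟨ho, ?_⟩
  by_cases hA : ∃ w ∈ TT a x, Wt D B x 1 w ∧ pr x w ≠ 0
  · obtain ⟨w, hw, hw1, hpr⟩ := hA
    have hu : LinearIndependent Ω (Fin.cons x ![w] : Fin (1 + 1) → Fin (N + 1) → Ω) := by
      have h1 := W1_li x w hx hpr
      convert h1 using 2
      funext j
      fin_cases j
      rfl
    obtain ⟨y, β, hy, hβ, H⟩ := struct hB.dual hn (by omega) x hx hF ho ![w] hu
      (fun Q hQ k l hli => hcon (case_a hB hn (by omega) hd hnum x hx hF ho w hw hw1 Q hQ k l hli))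
    obtain ⟨q, hq⟩ : ∃ q, n = 1 + q := ⟨n - 1, by omega⟩
    refine ⟨y, pr x w, β, q, hy, hβ, ?_, ?_, fun l P => ?_, fun v hv hv1 => ?_, by omega,
      exp_a hB (by omega) hd hnum x hx hF ho w hw hw1 hu y β H⟩
    · simp [pr, hx]
    · have h1 : pr x w = w - w 0 • x := by
        funext l
        simp [pr]
      rw [h1]
      exact Submodule.sub_mem _ hw (Submodule.smul_mem _ _ fun i => nu_x x hF i)
    · obtain ⟨c, hc⟩ := Data_span x w _ hx (H l P)
      refine ⟨c, ?_⟩
      rw [← hc]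
      funext i
      simp only [pr, Pi.add_apply, Pi.sub_apply, Pi.smul_apply, smul_eq_mul]
      ring
    · have h1 : ¬ LinearIndependent Ω ![x, w, v] := fun hli =>
        hcon (case_w hB hn (by omega) hd hnum x hx hF ho w v hw hv hw1 hv1 hli)
      rw [pr_li x hx, LinearIndependent.pair_iff' hpr] at h1
      push Not at h1
      obtain ⟨c, hc⟩ := h1
      exact ⟨c, hc.symm⟩
  · have hw1 : ∀ v ∈ TT a x, Wt D B x 1 v → pr x v = 0 := fun v hv hv1 => by
      by_contra h
      exact hA ⟨v, hv, hv1, h⟩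
    by_cases hrk : ∃ P : Fin r → MvPolynomial (Fin (N + 1)) Ω, RatT B P ∧ ∃ k l,
      LinearIndependent Ω ![x, Sv D x P k, Sv D x P l]
    · obtain ⟨P, hP, k, l, hli⟩ := hrk
      rcases two_pl hB hn hn5 hd hnum x hx hF ho P hP k l hli with h0 | h0
      · exact absurd h0 hcon
      obtain ⟨y, w, β, hy, hβ, hw0, hwT, hwU, H⟩ := h0
      obtain ⟨q, hq⟩ : ∃ q, n = 2 + q := ⟨n - 2, by omega⟩
      refine ⟨y, w, β, q, hy, hβ, hw0, hwT, H, fun v hv hv1 => ⟨0, ?_⟩, by omega,
        exp_b hB (by omega) hd hnum x hx hF ho P hP k l hli y β fun l' Q => ?_⟩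
      · rw [hw1 v hv hv1, zero_smul]
      · obtain ⟨c, hc⟩ := H l' Q
        have h1 : Sv D x Q l' - y l' • Sv D x Q β =
            c • w + (Sv D x Q l' 0 - y l' * Sv D x Q β 0) • x := by
          funext i
          have h2 := congrFun hc i
          simp only [pr, Pi.add_apply, Pi.smul_apply, smul_eq_mul] at h2
          simp only [Pi.add_apply, Pi.sub_apply, Pi.smul_apply, smul_eq_mul]
          linear_combination h2
        rw [h1]
        exact Submodule.add_mem _ (Submodule.smul_mem _ _ hwU)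
          (Submodule.smul_mem _ _ (Submodule.subset_span (Set.mem_insert _ _)))
    · push Not at hrk
      exact (case_c hB hn (by omega) hd hnum x hx hF hw1 ho hrk).elim

end

end Pool.Agent.Helper64.CJ
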