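import Pool.Agent.Helper64.CJ.Defs

/-!
# CJ-ROOT: a root of the equation on the line

`Lin_gen` (`p' = x - x_β y`, `v = y`) gives `i` and `ν` with `g₀ = F_i (p' + ν y) ≠ 0`; `T = ν - x_β ≠ 0` (as
`F_i x = 0`), `g = g₀ / T`. Let `P_m = pl x y j l ≠ 0`, `x' = x / x_m`, `U' = (pl x y m β + ν pl x y 0 m) / P_m`,
`q' = (pl x y m ·) / P_m`, `T' = T / x_m`: `p' + ν y = P_m (U' x' + T' q')`, so
`g x_m / P_m^(d_i) = (form (U' x' + T' q') - form (U' x')) / T'` (`form (U' x') = 0`), and for each monomial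
`∏ (A_l + T' C_l) - ∏ A_l ∈ T' O` (induction on the multiset). The coefficients `a` lie in `B` (the finite set
`s = univ.image a`), one power of `Δ`.
-/

set_option autoImplicit false

namespace Pool.Agent.Helper64.CJ

open scoped BigOperators
open MvPolynomial
open Pool.Agent.Helper8.LG (Bdd form mon Ix)
open Pool.Agent.Helper49.LN (cP mo hf pl)
open Pool.Agent.Helper6.QS (dv ev lf dt Par RatP)
open Pool.Agent.Helper10.CI

section

variable {Ω : Type*} [Field Ω] [CharZero Ω] {N r n p q : ℕ} {d : Fin r → ℕ}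
  {D : Ix (Fin (N + 1)) d → Derivation ℤ Ω Ω} {a : Ix (Fin (N + 1)) d → Ω} {B : Subfield Ω}

omit [CharZero Ω] in
private theorem Root_mon {σ : Type*} (O : ValuationSubring Ω) (A C : σ → Ω) (T : Ω)
    (hT : T ∈ O) (hA : ∀ l, A l ∈ O) (hC : ∀ l, C l ∈ O) (S : Multiset σ) :
    ∃ E ∈ O, (S.map fun l => A l + T * C l).prod = (S.map A).prod + T * E := by
  induction S using Multiset.induction_on with
  | empty => exact ⟨0, zero_mem O, by simp⟩
  | cons b S ih =>
    obtain ⟨E, hE, h⟩ := ih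
    have hpr : (S.map A).prod ∈ O := by
      refine Multiset.prod_induction (fun z => z ∈ O) _ (fun _ _ h1 h2 => mul_mem h1 h2)
        (one_mem O) ?_
      intro z hz
      obtain ⟨l, -, rfl⟩ := Multiset.mem_map.1 hz
      exact hA l
    refine ⟨A b * E + C b * (S.map A).prod + T * C b * E,
      add_mem (add_mem (mul_mem (hA b) hE) (mul_mem (hC b) hpr))
        (mul_mem (mul_mem hT (hC b)) hE), ?_⟩
    rw [Multiset.map_cons, Multiset.prod_cons, h, Multiset.map_cons, Multiset.prod_cons]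
    ring

theorem root (hB : Frame D a B) (hnum : ∑ i, (d i + 1) + 1 = 2 * N) (x : Fin (N + 1) → Ω)
    (hx : x 0 = 1) (hF : ∀ i, form (fun J => a ⟨i, J⟩) x = 0) (y : Fin (N + 1) → Ω)
    (hy : y 0 = 0) (β : Fin (N + 1)) (hβ : y β = 1) :
    ∃ (i : Fin r) (g : Ω), g ≠ 0 ∧ ∀ m j l, x m ≠ 0 → pl x y j l ≠ 0 →
      BddL D B x y m j l (g * x m / pl x y j l ^ d i) := by
  classical
  have hne : (0 : Fin (N + 1)) ≠ β := by
    rintro rfl
    rw [hy] at hβ
    exact zero_ne_one hβ
  obtain ⟨i, n, hn⟩ := Lin_gen hB.dual (by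
    rw [Fintype.card_fin]
    omega) 0 β hne (fun l => x l - x β * y l) y
    (by simp [hx, hy]) (by simp [hβ]) hy hβ
  have hw : (fun l => x l - x β * y l + (n : Ω) * y l) =
      fun l => x l + ((n : Ω) - x β) * y l := by
    funext l
    ring
  rw [hw] at hn
  obtain ⟨T, hTd⟩ : ∃ T : Ω, T = (n : Ω) - x β := ⟨_, rfl⟩
  rw [← hTd] at hn
  have hT0 : T ≠ 0 := by
    intro h0
    rw [h0] at hn
    apply hn
    have : (fun l => x l + 0 * y l) = x := by
      funext l
      ring
    rw [this]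
    exact hF i
  refine ⟨i, form (fun J => a ⟨i, J⟩) (fun l => x l + T * y l) / T, div_ne_zero hn hT0, ?_⟩
  intro m j l hm hP
  refine ⟨Finset.univ.image fun J : Sym (Fin (N + 1)) (d i) => a ⟨i, J⟩, 1, ?_, ?_⟩
  · intro b hb
    obtain ⟨J, -, rfl⟩ := Finset.mem_image.1 hb
    exact hB.mem _
  · intro O Δ hΔ hs _ hxm _ hpl
    have hΔa : ∀ J : Sym (Fin (N + 1)) (d i), Δ * a ⟨i, J⟩ ∈ O := fun J =>
      hs _ (Finset.mem_image.2 ⟨J, Finset.mem_univ _, rfl⟩)
    obtain ⟨P, hPd⟩ : ∃ P : Ω, P = pl x y j l := ⟨_, rfl⟩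
    rw [← hPd] at hP hpl ⊢
    obtain ⟨U, hU⟩ : ∃ U : Ω, U = pl x y m β / P + (n : Ω) * (pl x y 0 m / P) := ⟨_, rfl⟩
    obtain ⟨T', hT'⟩ : ∃ T' : Ω, T' = T / x m := ⟨_, rfl⟩
    have hnO : (n : Ω) ∈ O := natCast_mem O n
    have hUO : U ∈ O := by
      rw [hU]
      exact add_mem (hpl m β) (mul_mem hnO (hpl 0 m))
    have hTO : T' ∈ O := by
      have h1 : T' = (n : Ω) * (x 0 / x m) - x β / x m := by
        rw [hT', hTd, hx]
        ring
      rw [h1]
      exact sub_mem (mul_mem hnO (hxm 0)) (hxm β)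
    have hT'0 : T' ≠ 0 := by
      rw [hT']
      exact div_ne_zero hT0 hm
    have hexp : ∀ b, x b + T * y b =
        P * (U * (x b / x m) + T' * (pl x y m b / P)) := by
      intro b
      have e1 : P * (U * (x b / x m) + T' * (pl x y m b / P)) =
          (pl x y m β + (n : Ω) * pl x y 0 m) * x b / x m + T / x m * pl x y m b := by
        rw [hU, hT']
        field_simp
      rw [e1]
      unfold pl
      rw [hx, hy, hβ, hTd]
      field_simp
      ring
    have hA : ∀ b, U * (x b / x m) ∈ O := fun b => mul_mem hUO (hxm b)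
    have hC : ∀ b, pl x y m b / P ∈ O := fun b => hpl m b
    choose E hEO hE using fun J : Sym (Fin (N + 1)) (d i) =>
      Root_mon O (fun b => U * (x b / x m)) (fun b => pl x y m b / P) T' hTO hA hC
        (J : Multiset (Fin (N + 1)))
    have hf1 : form (fun J => a ⟨i, J⟩) (fun b => x b + T * y b) =
        P ^ d i * form (fun J => a ⟨i, J⟩)
          (fun b => U * (x b / x m) + T' * (pl x y m b / P)) := by
      have h1 : (fun b => x b + T * y b) =
          fun b => P * (U * (x b / x m) + T' * (pl x y m b / P)) := funext hexp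
      rw [h1]
      have h2 := Pool.Agent.Helper49.LG.form_mul (n := d i) (1 : Ω) P (fun J => a ⟨i, J⟩)
        (fun b => U * (x b / x m) + T' * (pl x y m b / P))
      simpa using h2
    have hf2 : form (fun J => a ⟨i, J⟩) (fun b => U * (x b / x m)) = 0 := by
      have h2 := Pool.Agent.Helper49.LG.form_mul (n := d i) (1 : Ω) (U / x m)
        (fun J => a ⟨i, J⟩) x
      rw [hF i, mul_zero] at h2
      rw [← h2]
      congr 1
      · funext J
        rw [one_mul]
      · funext b
        ring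
    have hf3 : form (fun J => a ⟨i, J⟩)
        (fun b => U * (x b / x m) + T' * (pl x y m b / P)) =
        T' * ∑ J : Sym (Fin (N + 1)) (d i), a ⟨i, J⟩ * E J := by
      have h3 : form (fun J => a ⟨i, J⟩)
        (fun b => U * (x b / x m) + T' * (pl x y m b / P)) =
        form (fun J => a ⟨i, J⟩) (fun b => U * (x b / x m)) +
          T' * ∑ J : Sym (Fin (N + 1)) (d i), a ⟨i, J⟩ * E J := by
        unfold form mon
        rw [Finset.mul_sum, ← Finset.sum_add_distrib]
        refine Finset.sum_congr rfl fun J _ => ?_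
        rw [hE J]
        ring
      rw [h3, hf2, zero_add]
    have hfin : form (fun J => a ⟨i, J⟩) (fun b => x b + T * y b) / T * x m / P ^ d i =
        ∑ J : Sym (Fin (N + 1)) (d i), a ⟨i, J⟩ * E J := by
      rw [hf1, hf3, hT']
      have hPd0 : P ^ d i ≠ 0 := pow_ne_zero _ hP
      field_simp
    rw [hfin, pow_one, Finset.mul_sum]
    refine sum_mem fun J _ => ?_
    rw [← mul_assoc]
    exact mul_mem (hΔa J) (hEO J)

end

end Pool.Agent.Helper64.CJ
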