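import Pool.Agent.Helper64.CJ.Pl
import Pool.Agent.Helper64.CJ.BdL
import Pool.Agent.Helper64.CJ.Root

/-!
# CJ-FIN: the line is rational

`G g pl x y j' l' = (G P^t / x_m) (g x_m / P^(d_i)) (pl x y j' l' / P) (1 / P)^(t - d_i - 1)`, `P = pl x y j l` maximal,
`1 / P = pl x y 0 β / P`. So `pl x (G g y) j' l' ∈ B` for all `j', l'` (`bdl_mem`), not `0` for `(0, β)`: `lin_mem2`.
-/

set_option autoImplicit false

namespace Pool.Agent.Helper64.CJ

open scoped BigOperators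
open MvPolynomial
open Pool.Agent.Helper8.LG (Bdd form mon Ix)
open Pool.Agent.Helper49.LN (cP mo hf pl)
open Pool.Agent.Helper6.QS (dv ev lf dt Par RatP)
open Pool.Agent.Helper10.CI

section

variable {Ω : Type*} [Field Ω] [CharZero Ω] {N r n p q : ℕ} {d : Fin r → ℕ}
  {D : Ix (Fin (N + 1)) d → Derivation ℤ Ω Ω} {a : Ix (Fin (N + 1)) d → Ω} {B : Subfield Ω}

theorem fin_line (hB : Frame D a B) (hnum : ∑ i, (d i + 1) + 1 = 2 * N) (x : Fin (N + 1) → Ω)
    (hx : x 0 = 1) (hF : ∀ i, form (fun J => a ⟨i, J⟩) x = 0) (y : Fin (N + 1) → Ω)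
    (hy : y 0 = 0) (β : Fin (N + 1)) (hβ : y β = 1) (t : ℕ) (ht : ∀ i, d i + 1 ≤ t)
    (hG : ExpG D B x y t) : ∀ l, x l ∈ B := by
  obtain ⟨G, hG0, hG⟩ := hG
  obtain ⟨i, g, hg0, hg⟩ := root hB hnum x hx hF y hy β hβ
  have h1 : pl x y 0 β = 1 := by
    unfold pl
    rw [hx, hy, hβ]
    ring
  have hne : ∃ j l, pl x y j l ≠ 0 := ⟨0, β, by rw [h1]; exact one_ne_zero⟩
  have hpl : ∀ j' l', pl x (fun k => G * g * y k) j' l' = G * g * pl x y j' l' := by
    intro j' l'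
    unfold pl
    ring
  refine lin_mem2 hB hnum x hx hF (fun k => G * g * y k) ⟨0, β, ?_⟩ fun j' l' => ?_
  · rw [hpl, h1, mul_one]
    exact mul_ne_zero hG0 hg0
  · rw [hpl]
    refine bdl_mem (y := y) hB hx hne _ fun m j l hm hP => ?_
    have e1 : G * g * pl x y j' l' = (G * pl x y j l ^ t / x m) * (g * x m / pl x y j l ^ d i) *
        (pl x y j' l' / pl x y j l) * (pl x y 0 β / pl x y j l) ^ (t - d i - 1) := by
      obtain ⟨c, hc⟩ : ∃ c, t = d i + 1 + c := ⟨t - (d i + 1), by have := ht i; omega⟩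
      have hc2 : t - d i - 1 = c := by omega
      have hPc : pl x y j l ^ c ≠ 0 := pow_ne_zero _ hP
      rw [h1, hc2, hc, pow_add, pow_add, pow_one, one_div_pow]
      field_simp
    rw [e1]
    exact bdl_mul (bdl_mul (bdl_mul (bdl_at (hG m hm j l)) (hg m j l hm hP)) (bdl_ratio j' l'))
      (bdl_pow (bdl_ratio 0 β) _)

end

end Pool.Agent.Helper64.CJ
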