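import Pool.Agent.Helper64.CJ.Onto
import Pool.Agent.Helper64.CJ.CaseA
import Pool.Agent.Helper64.CJ.CaseB
import Pool.Agent.Helper64.CJ.CaseC
import Pool.Agent.Helper64.CJ.Struct
import Pool.Agent.Helper64.CJ.ExpA
import Pool.Agent.Helper64.CJ.ExpB
import Pool.Agent.Helper64.CJ.Fin

/-!
# CJ-KEYASM: the key statement for `sum (d_i + 1) = 2 N - 1`, `2 <= d_i <= n - 3`

Case A: a tangent vector of weight one not parallel to `x`; case B: a rational block of rank two; case C:
neither (impossible).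
-/

set_option autoImplicit false

namespace Pool.Agent.Helper64.CJ

open scoped BigOperators
open MvPolynomial
open Pool.Agent.Helper8.LG (Bdd form mon Ix)
open Pool.Agent.Helper49.LN (cP mo hf pl)
open Pool.Agent.Helper6.QS (dv ev lf dt Par RatP)
open Pool.Agent.Helper10.CI

universe u

/-- **The key statement, one degree less.** -/
theorem keyCJ (N : ℕ) {r n : ℕ} (d : Fin r → ℕ) (hn : n + r = N) (hr : 1 ≤ r)
    (hd : ∀ i, 2 ≤ d i) (hdn : ∀ i, d i + 3 ≤ n) (hnum : ∑ i, (d i + 1) + 1 = 2 * N) :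
    KeyC.{u} N d := by
  intro Ω _ _ D a B hB x hx hF
  have hd1 : ∀ i, 1 ≤ d i := fun i => by have := hd i; omega
  have hn5 : 5 ≤ n := by
    have h1 := hd ⟨0, by omega⟩
    have h2 := hdn ⟨0, by omega⟩
    omega
  rcases onto2 hB hn (by omega) hd1 hnum x hx hF with h0 | ho
  · exact h0
  by_contra hcon
  -- case A
  have hw1 : ∀ v ∈ TT a x, Wt D B x 1 v → pr x v = 0 := by
    intro w hw hw1
    by_contra hpr
    have hu : LinearIndependent Ω (Fin.cons x ![w] : Fin (1 + 1) → Fin (N + 1) → Ω) := by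
      have h1 := W1_li x w hx hpr
      convert h1 using 2
      funext j
      fin_cases j
      rfl
    obtain ⟨y, β, hy, hβ, H⟩ := struct hB.dual hn (by omega) x hx hF ho ![w] hu
      (fun Q hQ k l hli => hcon (case_a hB hn (by omega) hd1 hnum x hx hF ho w hw hw1 Q hQ k l hli))
    obtain ⟨q, hq⟩ : ∃ q, n = 1 + q := ⟨n - 1, by omega⟩
    exact hcon (fin_line hB hnum x hx hF y hy β hβ q (fun i => by have := hdn i; omega)
      (exp_a hB (by omega) hd1 hnum x hx hF ho w hw hw1 hu y β H))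
  -- case B
  have hrk : ∀ P : Fin r → MvPolynomial (Fin (N + 1)) Ω, RatT B P → ∀ k l,
      ¬ LinearIndependent Ω ![x, Sv D x P k, Sv D x P l] := by
    intro P hP k l hli
    have hu : LinearIndependent Ω (Fin.cons x ![Sv D x P k, Sv D x P l] :
        Fin (2 + 1) → Fin (N + 1) → Ω) := hli
    obtain ⟨y, β, hy, hβ, H⟩ := struct hB.dual hn (by omega) x hx hF ho
      ![Sv D x P k, Sv D x P l] hu
      (fun Q hQ k' l' hli' => hcon
        (case_b hB hn hn5 hd1 hnum x hx hF ho P hP k l Q hQ k' l' hli'))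
    obtain ⟨q, hq⟩ : ∃ q, n = 2 + q := ⟨n - 2, by omega⟩
    exact hcon (fin_line hB hnum x hx hF y hy β hβ q (fun i => by have := hdn i; omega)
      (exp_b hB (by omega) hd1 hnum x hx hF ho P hP k l hu y β H))
  exact case_c hB hn (by omega) hd1 hnum x hx hF hw1 ho hrk

end Pool.Agent.Helper64.CJ
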