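import Pool.Agent.Helper64.CJ.Pl
import Pool.Agent.Helper64.CJ.Blk2

/-!
# CJ-PLTWO: two blocks and a single vector

As `pl_blk` of `Helper10/CI/Pl.lean`: the functional of the last place (`Pl_last` after rewriting the rows as
a `Fin.snoc`), rational at the `hf`-vectors by `blk2_at` and `bd_mem` (total weight `0`), not `0` at the
single vector (`tan_ne`): `Pl_fin2`.
-/

set_option autoImplicit false

namespace Pool.Agent.Helper64.CJ

open scoped BigOperators
open MvPolynomial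
open Pool.Agent.Helper8.LG (Bdd form mon Ix)
open Pool.Agent.Helper49.LN (cP mo hf pl)
open Pool.Agent.Helper6.QS (dv ev lf dt Par RatP)
open Pool.Agent.Helper10.CI

section

variable {Ω : Type*} [Field Ω] [CharZero Ω] {N r n p q : ℕ} {d : Fin r → ℕ}
  {D : Ix (Fin (N + 1)) d → Derivation ℤ Ω Ω} {a : Ix (Fin (N + 1)) d → Ω} {B : Subfield Ω}

omit [CharZero Ω] in
/-- two vectors before a last vector -/
theorem PlTwo_snoc {n : ℕ} (u u' : Fin (N + 1) → Ω) (v : Fin n → Fin (N + 1) → Ω)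
    (y : Fin (N + 1) → Ω) :
    two u u' (Fin.snoc v y) = (Fin.snoc (two u u' v) y : Fin (n + 1 + 2) → Fin (N + 1) → Ω) := by
  unfold two
  rw [Fin.cons_snoc_eq_snoc_cons]
  exact Fin.cons_snoc_eq_snoc_cons _ _ _

theorem pl_two (hB : Frame D a B) (hn : p + 1 + 2 + 2 + r = N) (hd : ∀ i, 1 ≤ d i)
    (hnum : ∑ i, (d i + 1) + 1 = 2 * N)
    (x : Fin (N + 1) → Ω) (hx : x 0 = 1) (hF : ∀ i, form (fun J => a ⟨i, J⟩) x = 0)
    (P : Fin r → MvPolynomial (Fin (N + 1)) Ω) (hP : RatT B P) (k l : Fin (N + 1))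
    (Q : Fin r → MvPolynomial (Fin (N + 1)) Ω) (hQ : RatT B Q) (k' l' : Fin (N + 1))
    (v : Fin p → Fin (N + 1) → Ω) (w : Fin p → ℕ) (hT : ∀ j, v j ∈ TT a x)
    (hw : ∀ j, Wt D B x (w j) (v j)) (hsum : ∑ j, w j + 9 + r = ∑ i, d i)
    (s : Fin (N + 1) → Ω) (hs : s ∈ SS D B x)
    (hli : LinearIndependent Ω (Fin.cons x (two (Sv D x P k) (Sv D x P l)
      (two (Sv D x Q k') (Sv D x Q l') (Fin.snoc v s))) :
      Fin (p + 1 + 2 + 2 + 1) → Fin (N + 1) → Ω)) : ∀ l, x l ∈ B := by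
  obtain ⟨e⟩ := Pl_e (N := N) (r := r) (n := p + 1 + 2 + 2) hn
  have htwo : ∀ y : Fin (N + 1) → Ω, two (Sv D x P k) (Sv D x P l)
      (two (Sv D x Q k') (Sv D x Q l') (Fin.snoc v y)) =
      (Fin.snoc (two (Sv D x P k) (Sv D x P l) (two (Sv D x Q k') (Sv D x Q l') v)) y :
        Fin (p + 1 + 2 + 2) → Fin (N + 1) → Ω) := by
    intro y
    rw [PlTwo_snoc, PlTwo_snoc]
  obtain ⟨L, hL⟩ := Pl_last (n := p + 2 + 2) e D x
    (two (Sv D x P k) (Sv D x P l) (two (Sv D x Q k') (Sv D x Q l') v))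
  have hL' : ∀ y, L y = AA e D x (two (Sv D x P k) (Sv D x P l)
      (two (Sv D x Q k') (Sv D x Q l') (Fin.snoc v y))) := by
    intro y
    rw [htwo]
    exact hL y
  obtain ⟨l₀, R, hR, rfl⟩ := hs
  refine Pl_fin2 hB hnum x hx hF R l₀ L ?_ fun j l'' => ?_
  · rw [hL']
    refine (tan_ne hB.dual hn x hx hF e _ fun j => ?_).2 hli
    unfold two
    refine Fin.cases ?_ (fun j => Fin.cases ?_ (fun j => Fin.cases ?_ (fun j =>
      Fin.cases ?_ (fun j => ?_) j) j) j) j
    · exact sv_TT hB.dual x hx hF hd P k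
    · exact sv_TT hB.dual x hx hF hd P l
    · exact sv_TT hB.dual x hx hF hd Q k'
    · exact sv_TT hB.dual x hx hF hd Q l'
    · rw [Fin.cons_succ, Fin.cons_succ, Fin.cons_succ, Fin.cons_succ]
      refine Fin.lastCases ?_ (fun j => ?_) j
      · rw [Fin.snoc_last]
        exact sv_TT hB.dual x hx hF hd R l₀
      · rw [Fin.snoc_castSucc]
        exact hT j
  · rw [hL']
    refine bd_mem hB hx _ fun m hm => ?_
    have h := blk2_at hB hn hd x hx hF e P hP k l Q hQ k' l'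
      (Fin.snoc v (dvC D x (fun i => hf x j l'' * R i)) : Fin (p + 1) → Fin (N + 1) → Ω)
      (Fin.snoc w 2 : Fin (p + 1) → ℕ) (fun k => ?_) (fun k => ?_) m hm
    · have h2 : ∑ j, (Fin.snoc w 2 : Fin (p + 1) → ℕ) j + 7 + r = ∑ i, d i := by
        rw [Fin.sum_univ_castSucc]
        simp only [Fin.snoc_castSucc, Fin.snoc_last]
        omega
      rw [h2, mul_div_assoc, div_self (pow_ne_zero _ hm), mul_one] at h
      exact h
    · refine Fin.lastCases ?_ (fun k => ?_) k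
      · rw [Fin.snoc_last]
        exact hf_TT hB.dual x hF hd R j l''
      · rw [Fin.snoc_castSucc]
        exact hT k
    · refine Fin.lastCases ?_ (fun k => ?_) k
      · rw [Fin.snoc_last, Fin.snoc_last]
        exact wt_hf x R hR j l''
      · rw [Fin.snoc_castSucc, Fin.snoc_castSucc]
        exact hw k

end

end Pool.Agent.Helper64.CJ
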