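import Pool.Agent.Helper10.CI.Pol

/-!
# CJ-POL: polarisation after a linear map `π`

Copy of `pol` of `Helper10/CI/Pol.lean` with `pr x` replaced by a linear map `π` (the minors
`(π S_k)_i (π S_l)_j - (π S_k)_j (π S_l)_i` are a quadratic form in `P` which vanishes on the rational `P`).
-/

set_option autoImplicit false

namespace Pool.Agent.Helper64.CJ

open scoped BigOperators
open MvPolynomial
open Pool.Agent.Helper8.LG (Bdd form mon Ix)
open Pool.Agent.Helper49.LN (cP mo hf pl)
open Pool.Agent.Helper6.QS (dv ev lf dt Par RatP)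
open Pool.Agent.Helper10.CI

section

variable {Ω : Type*} [Field Ω] [CharZero Ω] {N r n p q : ℕ} {d : Fin r → ℕ}
  {D : Ix (Fin (N + 1)) d → Derivation ℤ Ω Ω} {a : Ix (Fin (N + 1)) d → Ω} {B : Subfield Ω}

/-- dependence and the minors -/
private theorem Pol2_minor {ι : Type*} (U V : ι → Ω) :
    ¬ LinearIndependent Ω ![U, V] ↔ ∀ i j, U i * V j - U j * V i = 0 := by
  constructor
  · intro h i j
    by_cases hU : U = 0
    · rw [hU]
      simp
    · rw [LinearIndependent.pair_iff' hU] at h
      push Not at h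
      obtain ⟨a, ha⟩ := h
      rw [← ha]
      simp only [Pi.smul_apply, smul_eq_mul]
      ring
  · intro h hli
    have hU : U ≠ 0 := fun h0 => by
      rw [h0] at hli
      exact hli.ne_zero (0 : Fin 2) rfl
    rw [LinearIndependent.pair_iff' hU] at hli
    obtain ⟨i, hi⟩ := Function.ne_iff.1 hU
    rw [Pi.zero_apply] at hi
    apply hli (V i / U i)
    funext j
    rw [Pi.smul_apply, smul_eq_mul]
    have h1 := h i j
    field_simp
    linear_combination -h1

/-- `P ↦ π (Sv D x P l)` as a linear map -/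
private noncomputable def Pol2_u (D : Ix (Fin (N + 1)) d → Derivation ℤ Ω Ω)
    (x : Fin (N + 1) → Ω) (π : (Fin (N + 1) → Ω) →ₗ[Ω] (Fin (N + 1) → Ω)) (l : Fin (N + 1)) :
    (Fin r → MvPolynomial (Fin (N + 1)) Ω) →ₗ[Ω] (Fin (N + 1) → Ω) :=
  π.comp ((dvC D x).comp (LinearMap.pi fun i =>
    (LinearMap.mulLeft Ω (rl x l)).comp (LinearMap.proj i)))

/-- the rational tuples span -/
private theorem Pol2_span (B : Subfield Ω) (P : Fin r → MvPolynomial (Fin (N + 1)) Ω) :
    P ∈ Submodule.span Ω {Q : Fin r → MvPolynomial (Fin (N + 1)) Ω | RatT B Q} := by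
  classical
  have h1 : P = ∑ i, sg i (P i) := by
    unfold sg
    exact (Finset.univ_sum_single P).symm
  rw [h1]
  refine Submodule.sum_mem _ fun i _ => ?_
  have h2 : sg i (P i) = ∑ m ∈ (P i).support, coeff m (P i) • sg i (monomial m 1) := by
    conv_lhs => rw [(P i).as_sum]
    unfold sg
    funext k
    rw [Finset.sum_apply]
    by_cases hk : k = i
    · subst hk
      rw [Pi.single_eq_same]
      refine Finset.sum_congr rfl fun m _ => ?_
      rw [Pi.smul_apply, Pi.single_eq_same, smul_monomial, smul_eq_mul, mul_one]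
    · rw [Pi.single_eq_of_ne hk]
      symm
      refine Finset.sum_eq_zero fun m _ => ?_
      rw [Pi.smul_apply, Pi.single_eq_of_ne hk, smul_zero]
  rw [h2]
  refine Submodule.sum_mem _ fun m _ => Submodule.smul_mem _ _ (Submodule.subset_span ?_)
  intro k m'
  unfold sg
  by_cases hk : k = i
  · subst hk
    rw [Pi.single_eq_same, coeff_monomial]
    split_ifs
    · exact B.one_mem
    · exact B.zero_mem
  · rw [Pi.single_eq_of_ne hk, coeff_zero]
    exact B.zero_mem

theorem pol2 (x : Fin (N + 1) → Ω)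
    (π : (Fin (N + 1) → Ω) →ₗ[Ω] (Fin (N + 1) → Ω))
    (h : ∀ P : Fin r → MvPolynomial (Fin (N + 1)) Ω, RatT B P → ∀ k l,
      ¬ LinearIndependent Ω ![π (Sv D x P k), π (Sv D x P l)])
    (P : Fin r → MvPolynomial (Fin (N + 1)) Ω) (k l : Fin (N + 1)) :
    ¬ LinearIndependent Ω ![π (Sv D x P k), π (Sv D x P l)] := by
  have hr : ∀ P : Fin r → MvPolynomial (Fin (N + 1)) Ω, RatT B P → ∀ i j,
      Pol2_u D x π k P i * Pol2_u D x π l P j - Pol2_u D x π k P j * Pol2_u D x π l P i = 0 := by
    intro P hP
    exact (Pol2_minor _ _).1 (h P hP k l)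
  change ¬ LinearIndependent Ω ![Pol2_u D x π k P, Pol2_u D x π l P]
  rw [Pol2_minor]
  intro i j
  -- the polarisation
  set S : (Fin r → MvPolynomial (Fin (N + 1)) Ω) → (Fin r → MvPolynomial (Fin (N + 1)) Ω) → Ω :=
    fun P Q => (Pol2_u D x π k P i * Pol2_u D x π l Q j - Pol2_u D x π k P j * Pol2_u D x π l Q i) +
      (Pol2_u D x π k Q i * Pol2_u D x π l P j - Pol2_u D x π k Q j * Pol2_u D x π l P i) with hS
  have hSr : ∀ P Q : Fin r → MvPolynomial (Fin (N + 1)) Ω, RatT B P → RatT B Q → S P Q = 0 := by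
    intro P Q hP hQ
    have h1 := hr P hP i j
    have h2 := hr Q hQ i j
    have h3 := hr (P + Q) (fun e m => by
      rw [Pi.add_apply, coeff_add]
      exact B.add_mem (hP e m) (hQ e m)) i j
    rw [map_add, map_add] at h3
    simp only [Pi.add_apply] at h3
    rw [hS]
    linear_combination h3 - h1 - h2
  have hSP : ∀ P : Fin r → MvPolynomial (Fin (N + 1)) Ω, RatT B P → ∀ Q, S P Q = 0 := by
    intro P hP Q
    induction Pol2_span B Q using Submodule.span_induction with
    | mem Q hQ => exact hSr P Q hP hQ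
    | zero => simp [hS]
    | add Q Q' _ _ h1 h2 =>
      simp only [hS, map_add, Pi.add_apply] at h1 h2 ⊢
      linear_combination h1 + h2
    | smul c Q _ h1 =>
      simp only [hS, map_smul, Pi.smul_apply, smul_eq_mul] at h1 ⊢
      linear_combination c * h1
  have hall : ∀ P : Fin r → MvPolynomial (Fin (N + 1)) Ω,
      (Pol2_u D x π k P i * Pol2_u D x π l P j - Pol2_u D x π k P j * Pol2_u D x π l P i = 0) ∧
        ∀ Q, S P Q = 0 := by
    intro P
    induction Pol2_span B P using Submodule.span_induction with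
    | mem P hP => exact ⟨hr P hP i j, hSP P hP⟩
    | zero => exact ⟨by simp, fun Q => by simp [hS]⟩
    | add P P' _ _ h1 h2 =>
      refine ⟨?_, fun Q => ?_⟩
      · have h3 := h1.2 P'
        have h4 := h1.1
        have h5 := h2.1
        simp only [hS] at h3
        simp only [map_add, Pi.add_apply]
        linear_combination h3 + h4 + h5
      · have h3 := h1.2 Q
        have h4 := h2.2 Q
        simp only [hS, map_add, Pi.add_apply] at h3 h4 ⊢
        linear_combination h3 + h4
    | smul c P _ h1 =>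
      refine ⟨?_, fun Q => ?_⟩
      · have h4 := h1.1
        simp only [map_smul, Pi.smul_apply, smul_eq_mul]
        linear_combination c ^ 2 * h4
      · have h3 := h1.2 Q
        simp only [hS, map_smul, Pi.smul_apply, smul_eq_mul] at h3 ⊢
        linear_combination c * h3
  exact (hall P).1

end

end Pool.Agent.Helper64.CJ
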