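import Pool.Agent.Helper10.CI.Pl

/-!
# CJ-TPA: two different three-dimensional spaces through `x`

`U ≠ U'` of dimension `3`, so `U ⊓ U'` has dimension `<= 2` (otherwise `U' = U ⊓ U' = U`, against `hne`) and contains
`x`: if some `v₀ ∈ U ⊓ U'` has `pr x v₀ ≠ 0` take `w = pr x v₀` (a combination of `v₀` and `x`), then
`x, v₀` is a basis of `U ⊓ U'`; otherwise `w = 0`.
-/

set_option autoImplicit false

namespace Pool.Agent.Helper64.CJ

open scoped BigOperators
open MvPolynomial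
open Pool.Agent.Helper8.LG (Bdd form mon Ix)
open Pool.Agent.Helper49.LN (cP mo hf pl)
open Pool.Agent.Helper6.QS (dv ev lf dt Par RatP)
open Pool.Agent.Helper10.CI

section

variable {Ω : Type*} [Field Ω] [CharZero Ω] {N r n p q : ℕ} {d : Fin r → ℕ}
  {D : Ix (Fin (N + 1)) d → Derivation ℤ Ω Ω} {a : Ix (Fin (N + 1)) d → Ω} {B : Subfield Ω}

theorem tp_inter (x u₁ u₂ v₁ v₂ : Fin (N + 1) → Ω) (hx : x 0 = 1)
    (hu : LinearIndependent Ω ![x, u₁, u₂]) (hv : LinearIndependent Ω ![x, v₁, v₂])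
    (hne : ¬ (v₁ ∈ Submodule.span Ω (insert x (Set.range ![u₁, u₂])) ∧
      v₂ ∈ Submodule.span Ω (insert x (Set.range ![u₁, u₂])))) :
    ∃ w : Fin (N + 1) → Ω, w 0 = 0 ∧ w ∈ Submodule.span Ω (insert x (Set.range ![u₁, u₂])) ∧
      ∀ v, v ∈ Submodule.span Ω (insert x (Set.range ![u₁, u₂])) →
        v ∈ Submodule.span Ω (insert x (Set.range ![v₁, v₂])) → ∃ c : Ω, pr x v = c • w := by
  classical
  obtain ⟨U, hU⟩ : ∃ U : Submodule Ω (Fin (N + 1) → Ω),
      U = Submodule.span Ω (insert x (Set.range ![u₁, u₂])) := ⟨_, rfl⟩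
  obtain ⟨U', hU'⟩ : ∃ U' : Submodule Ω (Fin (N + 1) → Ω),
      U' = Submodule.span Ω (insert x (Set.range ![v₁, v₂])) := ⟨_, rfl⟩
  rw [← hU] at hne ⊢
  rw [← hU']
  have hxU : x ∈ U := by
    rw [hU]
    exact Submodule.subset_span (Set.mem_insert _ _)
  have hxU' : x ∈ U' := by
    rw [hU']
    exact Submodule.subset_span (Set.mem_insert _ _)
  have hpr : ∀ v : Fin (N + 1) → Ω, pr x v = v - v 0 • x := by
    intro v
    funext l
    rfl
  have hpr0 : ∀ v : Fin (N + 1) → Ω, pr x v 0 = 0 := by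
    intro v
    show v 0 - v 0 * x 0 = 0
    rw [hx, mul_one, sub_self]
  have hprU : ∀ (S : Submodule Ω (Fin (N + 1) → Ω)), x ∈ S → ∀ v ∈ S, pr x v ∈ S := by
    intro S hxS v hv
    rw [hpr]
    exact S.sub_mem hv (S.smul_mem _ hxS)
  by_cases hall : ∀ v, v ∈ U → v ∈ U' → pr x v = 0
  · refine ⟨0, rfl, U.zero_mem, fun v h1 h2 => ⟨0, ?_⟩⟩
    rw [hall v h1 h2, smul_zero]
  · push Not at hall
    obtain ⟨v₀, hv₀U, hv₀U', hv₀⟩ := hall
    refine ⟨pr x v₀, hpr0 v₀, hprU U hxU v₀ hv₀U, fun v h1 h2 => ?_⟩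
    by_contra hcon
    push Not at hcon
    have hli2 : LinearIndependent Ω ![pr x v, pr x v₀] := by
      rw [linearIndependent_fin2]
      exact ⟨hv₀, fun c hc => hcon c hc.symm⟩
    have hli3 : LinearIndependent Ω (Fin.cons x ![pr x v, pr x v₀] :
        Fin 3 → Fin (N + 1) → Ω) := by
      rw [linearIndependent_finCons]
      refine ⟨hli2, fun hmem => ?_⟩
      have h3 : Submodule.span Ω (Set.range ![pr x v, pr x v₀]) ≤
          LinearMap.ker (LinearMap.proj 0 : (Fin (N + 1) → Ω) →ₗ[Ω] Ω) := by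
        rw [Submodule.span_le]
        rintro _ ⟨i, rfl⟩
        fin_cases i
        · exact hpr0 v
        · exact hpr0 v₀
      have h4 : x 0 = 0 := h3 hmem
      rw [hx] at h4
      exact one_ne_zero h4
    have hsub : ∀ S : Submodule Ω (Fin (N + 1) → Ω), x ∈ S → v ∈ S → v₀ ∈ S →
        Submodule.span Ω (Set.range (Fin.cons x ![pr x v, pr x v₀] :
          Fin 3 → Fin (N + 1) → Ω)) ≤ S := by
      intro S hxS hvS hv₀S
      rw [Submodule.span_le]
      rintro _ ⟨i, rfl⟩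
      fin_cases i
      · exact hxS
      · exact hprU S hxS v hvS
      · exact hprU S hxS v₀ hv₀S
    have hf1 : Module.finrank Ω (Submodule.span Ω (Set.range (Fin.cons x ![pr x v, pr x v₀] :
        Fin 3 → Fin (N + 1) → Ω))) = 3 := by
      rw [finrank_span_eq_card hli3, Fintype.card_fin]
    have hf2 : Module.finrank Ω U' = 3 := by
      have h5 : Set.range (![x, v₁, v₂] : Fin 3 → Fin (N + 1) → Ω) =
          insert x (Set.range ![v₁, v₂]) := Fin.range_cons x ![v₁, v₂]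
      rw [hU', ← h5, finrank_span_eq_card hv, Fintype.card_fin]
    have heq := Submodule.eq_of_le_of_finrank_eq (hsub U' hxU' h2 hv₀U') (hf1.trans hf2.symm)
    have hle : U' ≤ U := by
      rw [← heq]
      exact hsub U hxU h1 hv₀U
    apply hne
    constructor
    · apply hle
      rw [hU']
      exact Submodule.subset_span (Set.mem_insert_of_mem _ ⟨0, rfl⟩)
    · apply hle
      rw [hU']
      exact Submodule.subset_span (Set.mem_insert_of_mem _ ⟨1, rfl⟩)

end

end Pool.Agent.Helper64.CJ
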